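import Pool.Agent.MP_71ac24_nt.H17.Main

/-! Definitions for the large values estimate with the explicit exponent 19/8. -/

set_option autoImplicit false

namespace Pool.Agent.MP_71ac24_nt.H54

open Finset Real
open scoped ComplexConjugate
open Pool.Agent.MP_71ac24_nt.H14 (ei Sep ei_add norm_ei ei_zero conj_ei norm_ei_sub continuous_ei)
open Pool.Agent.MP_71ac24_nt.H17

/-- the sum of `n ^ (i s)` over a dyadic block -/
noncomputable def ZD (A : ℕ) (s : ℝ) : ℂ := ∑ n ∈ Ico A (2 * A), ei (s * Real.log n)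

/-- the Fejer kernel -/
noncomputable def Fej (L : ℕ) (x : ℝ) : ℝ := ‖∑ k ∈ range L, ei (k * x)‖ ^ 2 / L

/-- the curve `exp u = 1 + σ exp v`, cut off so that it is continuous everywhere -/
noncomputable def Uc (σ v : ℝ) : ℝ := Real.log (max (1 / 22) (1 + σ * exp v))

/-- admissible arcs of the curve -/
structure Cv (σ ω p q : ℝ) : Prop where
  sg : σ = 1 ∨ σ = -1
  ω0 : 0 < ω
  ω7 : ω ≤ 7
  pq : p ≤ q
  len : q ≤ p + 5
  lo : ω / 13 ≤ exp p
  hi : exp q ≤ 8 * ω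
  d1 : 1 / 21 ≤ 1 + σ * exp q
  d2 : exp q ≤ 56

/-- the Fourier transform of the arc -/
noncomputable def Bk (σ p q : ℝ) (s' s : ℤ) : ℂ := ∫ v in p..q, ei (s' * v - s * Uc σ v)

/-- the majorant of the kernel -/
noncomputable def Mj (σ p q : ℝ) (L L' : ℕ) (a u : ℝ) : ℝ :=
  ∫ v in p..q, Fej L (a + v) * Fej L' (u - Uc σ v)

/-- the square function of the second slot -/
noncomputable def F2 (P : ℕ) (α : ℝ → ℂ) (ξ : ℝ) : ℝ :=
  ∑ m ∈ Ico P (2 * P), ‖α (ξ - Real.log m)‖ ^ 2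

/-- the square function of the third slot -/
noncomputable def F3 (P : ℕ) (W : Finset ℤ) (η : ℝ) : ℝ :=
  ∑ m ∈ Ico P (2 * P), ‖rho W (η + Real.log m)‖ ^ 2

/-- the contraction of the second and the third slot -/
noncomputable def Phi (P : ℕ) (α : ℝ → ℂ) (W : Finset ℤ) (ξ η : ℝ) : ℂ :=
  ∑ m ∈ Ico P (2 * P), conj (α (ξ - Real.log m)) * rho W (η + Real.log m)

/-- the weight -/
noncomputable def om (A F : ℝ) : ℝ := √(1 + F / A)

/-- the weighted square of the contraction -/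
noncomputable def Psi (P : ℕ) (α : ℝ → ℂ) (W : Finset ℤ) (ξ η : ℝ) : ℝ :=
  ‖Phi P α W ξ η‖ ^ 2 / (om (P * #W) (F2 P α ξ) * om (P * #W) (F3 P W η))

/-- integration against the family of curves -/
noncomputable def II (N P : ℕ) (H : ℝ → ℝ → ℝ) : ℝ :=
  ∑ m ∈ Ico P (2 * P), ∑ j ∈ Jst P, ∫ ξ in (Real.log P - 1)..(Real.log P + 2),
    ∫ z in (-1 : ℝ)..1, H ξ z * tri (1 / (8 * N)) (m * exp z - exp ξ - j)

/-- Fourier coefficients on the rectangle -/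
noncomputable def GG (P : ℕ) (Ψ : ℝ → ℝ → ℝ) (s' s : ℤ) : ℂ :=
  ∫ ξ in (Real.log P - 1)..(Real.log P + 2), ∫ η in (-Real.log P - 3)..(-Real.log P + 2),
    ((Ψ ξ η : ℝ) : ℂ) * ei (s' * ξ) * ei (s * η)

/-- the squared norm of the contraction on the rectangle -/
noncomputable def HN (P : ℕ) (α : ℝ → ℂ) (W : Finset ℤ) : ℝ :=
  ∫ ξ in (Real.log P - 1)..(Real.log P + 2), ∫ η in (-Real.log P - 3)..(-Real.log P + 2),
    ‖Phi P α W ξ η‖ ^ 2

/-- a symmetric interval of integers -/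
noncomputable def Sy (L : ℕ) : Finset ℤ := Icc (-(L : ℤ)) L

/-- the frequency sum -/
noncomputable def FS (N P J : ℕ) (σ p q : ℝ) (x y : ℤ → ℂ) (Ψ : ℝ → ℝ → ℝ) : ℂ :=
  ∑ s' ∈ Sy (N * J), ∑ s ∈ Sy (N * P), x s' * y s * Bk σ p q s' s * GG P Ψ s' s

/-! ### basic facts -/

@[fun_prop] lemma cont_Fej (L : ℕ) : Continuous (Fej L) := by unfold Fej; fun_prop

lemma Fej_nonneg (L : ℕ) (x : ℝ) : 0 ≤ Fej L x := by unfold Fej; positivity

@[fun_prop] lemma cont_Uc (σ : ℝ) : Continuous (Uc σ) := by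
  unfold Uc
  exact Continuous.log (by fun_prop) fun v =>
    (lt_of_lt_of_le (by norm_num) (le_max_left (1 / 22 : ℝ) _)).ne'

lemma Uc_eq {σ v : ℝ} (h : 1 / 22 ≤ 1 + σ * exp v) : Uc σ v = Real.log (1 + σ * exp v) := by
  unfold Uc; rw [max_eq_right h]

lemma Uc_deriv {σ v : ℝ} (h : 1 / 22 < 1 + σ * exp v) :
    HasDerivAt (Uc σ) (σ * exp v / (1 + σ * exp v)) v := by
  have h1 : HasDerivAt (fun v => Real.log (1 + σ * exp v)) (σ * exp v / (1 + σ * exp v)) v :=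
    (((Real.hasDerivAt_exp v).const_mul σ).const_add 1).log (by linarith)
  refine h1.congr_of_eventuallyEq ?_
  have h2 : ∀ᶠ w in nhds v, 1 / 22 < 1 + σ * exp w :=
    (continuousAt_const (y := (1 / 22 : ℝ))).eventually_lt (by fun_prop) h
  filter_upwards [h2] with w hw using Uc_eq hw.le

lemma Cv.rng {σ ω p q v : ℝ} (h : Cv σ ω p q) (h1 : p ≤ v) (h2 : v ≤ q) :
    ω / 13 ≤ exp v ∧ exp v ≤ 8 * ω ∧ 1 / 21 ≤ 1 + σ * exp v ∧ 1 + σ * exp v ≤ 57 := by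
  have a1 : exp p ≤ exp v := exp_le_exp.2 h1
  have a2 : exp v ≤ exp q := exp_le_exp.2 h2
  have a3 := exp_pos v
  have a4 := h.d1
  have a5 := h.d2
  refine ⟨h.lo.trans a1, a2.trans h.hi, ?_, ?_⟩ <;> rcases h.sg with e | e <;> rw [e] at a4 ⊢ <;>
    linarith

lemma Mj_nonneg {σ p q : ℝ} (h : p ≤ q) (L L' : ℕ) (a u : ℝ) : 0 ≤ Mj σ p q L L' a u :=
  intervalIntegral.integral_nonneg h fun _ _ => mul_nonneg (Fej_nonneg _ _) (Fej_nonneg _ _)

lemma cont_Mj (σ p q : ℝ) (L L' : ℕ) : Continuous fun x : ℝ × ℝ => Mj σ p q L L' x.1 x.2 := by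
  unfold Mj
  exact intervalIntegral.continuous_parametric_intervalIntegral_of_continuous'
    (f := fun (x : ℝ × ℝ) v => Fej L (x.1 + v) * Fej L' (x.2 - Uc σ v)) (by fun_prop) _ _

lemma cont_F2 (P : ℕ) {α : ℝ → ℂ} (h : Continuous α) : Continuous (F2 P α) := by
  unfold F2; fun_prop

@[fun_prop] lemma cont_F3 (P : ℕ) (W : Finset ℤ) : Continuous (F3 P W) := by
  unfold F3; fun_prop

lemma F2_nonneg (P : ℕ) (α : ℝ → ℂ) (ξ : ℝ) : 0 ≤ F2 P α ξ := sum_nonneg fun _ _ => sq_nonneg _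

lemma F3_nonneg (P : ℕ) (W : Finset ℤ) (η : ℝ) : 0 ≤ F3 P W η := sum_nonneg fun _ _ => sq_nonneg _

lemma cont_Phi (P : ℕ) {α : ℝ → ℂ} (h : Continuous α) (W : Finset ℤ) :
    Continuous (Phi P α W).uncurry := by
  unfold Phi Function.uncurry; fun_prop

@[fun_prop] lemma cont_om (A : ℝ) : Continuous (om A) := by unfold om; fun_prop

lemma one_le_om {A F : ℝ} (hA : 0 ≤ A) (hF : 0 ≤ F) : 1 ≤ om A F := by
  unfold om
  exact Real.one_le_sqrt.2 (le_add_of_nonneg_right (by positivity))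

lemma om_sq {A F : ℝ} (hA : 0 ≤ A) (hF : 0 ≤ F) : om A F ^ 2 = 1 + F / A :=
  Real.sq_sqrt (by positivity)

lemma le_om_sq {A F : ℝ} (hA : 0 < A) (hF : 0 ≤ F) : F ≤ A * om A F ^ 2 := by
  rw [om_sq hA.le hF, mul_add, mul_div_cancel₀ _ hA.ne']; linarith

lemma Psi_den (P : ℕ) (α : ℝ → ℂ) (W : Finset ℤ) (ξ η : ℝ) :
    1 ≤ om (P * #W) (F2 P α ξ) * om (P * #W) (F3 P W η) :=
  one_le_mul_of_one_le_of_one_le (one_le_om (by positivity) (F2_nonneg _ _ _))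
    (one_le_om (by positivity) (F3_nonneg _ _ _))

lemma Psi_nonneg (P : ℕ) (α : ℝ → ℂ) (W : Finset ℤ) (ξ η : ℝ) : 0 ≤ Psi P α W ξ η :=
  div_nonneg (sq_nonneg _) (zero_le_one.trans (Psi_den P α W ξ η))

lemma Psi_le (P : ℕ) (α : ℝ → ℂ) (W : Finset ℤ) (ξ η : ℝ) :
    Psi P α W ξ η ≤ ‖Phi P α W ξ η‖ ^ 2 := div_le_self (sq_nonneg _) (Psi_den P α W ξ η)

lemma cont_Psi (P : ℕ) {α : ℝ → ℂ} (h : Continuous α) (W : Finset ℤ) :
    Continuous (Psi P α W).uncurry := by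
  have h1 := cont_Phi P h W
  have h2 := cont_F2 P h
  refine (h1.norm.pow 2).div (((cont_om _).comp (h2.comp continuous_fst)).mul
    ((cont_om _).comp ((cont_F3 P W).comp continuous_snd))) fun x => ?_
  exact (lt_of_lt_of_le one_pos (Psi_den P α W x.1 x.2)).ne'

lemma HN_nonneg (P : ℕ) (α : ℝ → ℂ) (W : Finset ℤ) : 0 ≤ HN P α W :=
  intervalIntegral.integral_nonneg (by linarith) fun _ _ =>
    intervalIntegral.integral_nonneg (by linarith) fun _ _ => sq_nonneg _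

lemma II_nonneg {N : ℕ} (hN : 1 ≤ N) (P : ℕ) {H : ℝ → ℝ → ℝ} (h : ∀ ξ z, 0 ≤ H ξ z) :
    0 ≤ II N P H := by
  have : (0 : ℝ) < N := by exact_mod_cast hN
  exact sum_nonneg fun _ _ => sum_nonneg fun _ _ =>
    intervalIntegral.integral_nonneg (by linarith) fun _ _ =>
      intervalIntegral.integral_nonneg (by norm_num) fun _ _ =>
        mul_nonneg (h _ _) (tri_nonneg (by positivity) _)

lemma ZD_le (A : ℕ) (s : ℝ) : ‖ZD A s‖ ≤ A := by
  refine (norm_sum_le _ _).trans ?_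
  simp only [norm_ei, sum_const, Nat.card_Ico, nsmul_eq_mul, mul_one]
  rw [show 2 * A - A = A by omega]

lemma mem_Sy {L : ℕ} {s : ℤ} : s ∈ Sy L ↔ |s| ≤ L := by
  rw [Sy, mem_Icc, abs_le]

end Pool.Agent.MP_71ac24_nt.H54
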