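import Pool.Agent.MP_71ac24_nt.H54.Freq

attribute [-instance] IdemSemiring.toCanonicallyOrderedAdd AddQuantale.instAddLeftMono
  IsOrderedMonoid.toMulLeftMono IdemSemiring.toMulLeftMono Quantale.instMulLeftMono
  NumberField.to_charZero Fintype.decidableForallFintype RKHS.instFunLike
  AddQuantale.instAddRightMono CanonicallyOrderedAdd.toMulLeftMono instCoeTOfCoeDep
  LinearOrderedCommMonoidWithZero.toPosMulStrictMono Quantale.instMulRightMono
  continuousSub_of_discreteTopology NonarchimedeanRing.toIsTopologicalRing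
  IdemSemiring.toMulRightMono continuousSub_of_indiscreteTopology Valued.toUniformSpace
  Valued.isTopologicalDivisionRing ContDiffMapSupportedInClass.toDFunLike NeZero.of_gt'
  CanonicallyOrderedMul.toMulLeftMono Finset.decidableDforallFinset TestFunctionClass.toDFunLike
  instCoeHTCOfCoeHeadOfCoeOTC instCoeHTCTOfCoeTailOfCoeHTC SubringClass.nonUnitalSubringClass
  CompletePartialOrder.toPartialOrder Multiset.decidableDforallMultiset Option.decidableForallMem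
  Vector.instDecidableForallForallMemOfDecidablePred instCoeOTCOfCoeOut
  LieAdmissibleRing.toNonUnitalNonAssocRing IsRightCancelMul.mulRightReflectLE_of_mulRightReflectLT
  NonarchimedeanAddGroup.toIsTopologicalAddGroup instCoeTCOfCoe
  NonUnitalAlgSemiHomClass.toDistribMulActionSemiHomClass CharP.ofCharZero

set_option autoImplicit false

namespace Pool.Agent.MP_71ac24_nt.H54

open Finset Real
open scoped ComplexConjugate
open Pool.Agent.MP_71ac24_nt.H14 (ei Sep ei_add norm_ei ei_zero conj_ei norm_ei_sub continuous_ei)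
open Pool.Agent.MP_71ac24_nt.H17

section

/-- majorisation in operator form -/
theorem hh_exp {N T P X : ℕ} {E θ V : ℝ} {W : Finset ℤ} {a : ℕ → ℂ} (h : World N T P X E θ V W a)
    {B : ℕ} (hB : 1 ≤ B) (hBN : (B : ℝ) * N ≤ 24 * E * T) (c : ℕ → ℂ) :
    ∑ t ∈ W, ‖∑ b ∈ Ico B (2 * B), c b * ei (t * Real.log b)‖ ^ 2 ≤
      6000 * E ^ 2 * (T * N / V ^ 2) * ∑ b ∈ Ico B (2 * B), ‖c b‖ ^ 2 := by
  have E1 := h.E1
  have EN := h.EN
  have N1 : 1000 ≤ N := by exact_mod_cast (show (1000 : ℝ) ≤ N by linarith only [E1, EN])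
  have NT := h.NT
  have TN : T ≤ N ^ 2 := by
    by_contra g
    have := h.T2
    have a1 : (N ^ 2) ^ 2 ≤ T ^ 2 := Nat.pow_le_pow_left (by omega) 2
    have a2 : N ^ 3 * 1 < N ^ 3 * N := Nat.mul_lt_mul_of_pos_left (by omega) (by positivity)
    linarith only [this, a1, a2]
  have N0 : (1000 : ℝ) ≤ N := by exact_mod_cast N1
  have T0 : (N : ℝ) ≤ T := by exact_mod_cast NT
  have T2 : (T : ℝ) ≤ N ^ 2 := by exact_mod_cast TN
  have big : 4 * N * B ≤ N ^ 4 := by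
    have a1 : E * T ≤ N * N ^ 2 := mul_le_mul (by linarith only [E1, EN]) T2 (by linarith only [E1, EN, T0]) (by linarith only [E1, EN])
    have a2 : 96 * ((N : ℝ) * N ^ 2) ≤ N * (N * N ^ 2) :=
      mul_le_mul_of_nonneg_right (by linarith only [E1, EN]) (by positivity)
    exact_mod_cast (show (4 : ℝ) * N * B ≤ N ^ 4 by linarith only [hBN, a1, a2])
  set Q := Ioc N (2 * N) ×ˢ Ico B (2 * B) with hQ
  have r1 : ∀ q ∈ Q, N * B ≤ q.1 * q.2 ∧ q.1 * q.2 ≤ 4 * N * B := fun q hq => by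
    have a1 := mem_Ioc.1 (mem_product.1 hq).1
    have a2 := mem_Ico.1 (mem_product.1 hq).2
    exact ⟨Nat.mul_le_mul a1.1.le a2.1, (Nat.mul_le_mul a1.2 a2.2.le).trans_eq (by ring)⟩
  have pA : 1 ≤ N * B := Nat.mul_pos (by omega) hB
  have k := mom_l2 Q (fun q => Real.log ((q.1 * q.2 : ℕ) : ℝ)) (L := T + 4 * N * B) (by omega)
    (b := Real.log ((N * B : ℕ) : ℝ)) (ν := 2 * E) (fun q hq => by
      have a0 : (0 : ℝ) < (N * B : ℕ) := by exact_mod_cast pA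
      have a1 : ((N * B : ℕ) : ℝ) ≤ (q.1 * q.2 : ℕ) := by exact_mod_cast (r1 q hq).1
      have a2 : ((q.1 * q.2 : ℕ) : ℝ) ≤ 4 * (N * B : ℕ) := by
        have := (r1 q hq).2
        rw [mul_assoc] at this
        exact_mod_cast this
      refine ⟨Real.log_le_log a0 a1, (Real.log_le_log (by linarith only [a0, a1]) a2).trans ?_⟩
      rw [Real.log_mul (by norm_num) a0.ne']
      linarith only [Real.log_le_sub_one_of_pos (by norm_num : (0 : ℝ) < 4)])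
    (mom_cnt Q (fun q => q.1 * q.2) (by linarith only [E1])
      (fun q hq => ⟨pA.trans (r1 q hq).1, (r1 q hq).2.trans (by omega)⟩) fun n h1 _ => by
        by_cases g : n ≤ 4 * N * B
        · refine le_trans ?_ (h.tau n (by omega) (g.trans big))
          refine Nat.cast_le.2 (card_le_card_of_injOn (fun q => q.1) (fun q hq => ?_)
            fun q hq q' hq' e => ?_)
          · have := (mem_filter.1 (mem_coe.1 hq)).2
            exact mem_coe.2 (Nat.mem_divisors.2 ⟨this ▸ Dvd.intro _ rfl, by omega⟩)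
          · have b1 := (mem_filter.1 (mem_coe.1 hq)).2
            have b2 := (mem_filter.1 (mem_coe.1 hq')).2
            have e' : q.1 = q'.1 := e
            have b3 : 0 < q'.1 := Nat.pos_of_ne_zero fun z => by rw [z] at b2; omega
            rw [e', ← b2] at b1
            exact Prod.ext e' (Nat.eq_of_mul_eq_mul_left b3 b1)
        · rw [filter_eq_empty_iff.2 (show ∀ q ∈ Q, ¬ q.1 * q.2 = n from
            fun q hq e => g (e ▸ (r1 q hq).2)), card_empty, Nat.cast_zero]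
          linarith only [E1]) W (fun t ht => by
      have := h.hW t ht
      rw [abs_of_nonneg this.1]
      push_cast
      have : (0 : ℤ) ≤ 4 * N * B := by positivity
      omega) fun q => a q.1 * c q.2
  have e1 : ∀ t : ℤ, ∑ q ∈ Q, a q.1 * c q.2 * ei (t * Real.log ((q.1 * q.2 : ℕ) : ℝ)) =
      DP N a t * ∑ b ∈ Ico B (2 * B), c b * ei (t * Real.log b) := fun t => by
    rw [DP, sum_mul_sum, hQ, sum_product]
    refine sum_congr rfl fun n hn => sum_congr rfl fun b hb => ?_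
    have a1 := mem_Ioc.1 hn
    have a2 := mem_Ico.1 hb
    rw [Nat.cast_mul, Real.log_mul (by exact_mod_cast (by omega : n ≠ 0))
      (by exact_mod_cast (by omega : b ≠ 0)), mul_add, ei_add]
    ring
  have e2 : ∑ q ∈ Q, ‖a q.1 * c q.2‖ ^ 2 ≤ N * ∑ b ∈ Ico B (2 * B), ‖c b‖ ^ 2 := by
    rw [hQ, sum_product]
    refine (sum_le_card_nsmul _ _ (∑ b ∈ Ico B (2 * B), ‖c b‖ ^ 2) fun n _ =>
      sum_le_sum fun b _ => ?_).trans_eq (by
        rw [Nat.card_Ioc, show 2 * N - N = N by omega, nsmul_eq_mul])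
    rw [norm_mul]
    exact pow_le_pow_left₀ (by positivity) (mul_le_of_le_one_left (norm_nonneg _) (h.ha n)) 2
  have V0 := h.V0
  have e3 : V ^ 2 * ∑ t ∈ W, ‖∑ b ∈ Ico B (2 * B), c b * ei (t * Real.log b)‖ ^ 2 ≤
      ∑ t ∈ W, ‖DP N a t * ∑ b ∈ Ico B (2 * B), c b * ei (t * Real.log b)‖ ^ 2 := by
    rw [mul_sum]
    refine sum_le_sum fun t ht => ?_
    rw [norm_mul, mul_pow]
    exact mul_le_mul_of_nonneg_right (pow_le_pow_left₀ V0.le (h.hV t ht) 2) (by positivity)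
  simp only [e1] at k
  have n1 : 0 ≤ ∑ b ∈ Ico B (2 * B), ‖c b‖ ^ 2 := by positivity
  have e4 : ((T + 4 * N * B : ℕ) : ℝ) ≤ 97 * E * T := by
    push_cast
    nlinarith only [hBN, E1]
  refine le_of_mul_le_mul_left (e3.trans (k.trans ?_)) (by positivity : 0 < V ^ 2)
  calc _ ≤ 26 * (2 * E) * (97 * E * T) * (N * ∑ b ∈ Ico B (2 * B), ‖c b‖ ^ 2) := by gcongr
    _ = 5044 * (E ^ 2 * T * N * ∑ b ∈ Ico B (2 * B), ‖c b‖ ^ 2) := by ring
    _ ≤ 6000 * (E ^ 2 * T * N * ∑ b ∈ Ico B (2 * B), ‖c b‖ ^ 2) := by gcongr; norm_num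
    _ = _ := by field_simp

theorem hh : ∃ (C : ℝ) (k : ℕ), 0 < C ∧ ∀ (N T P X : ℕ) (E V : ℝ) (W : Finset ℤ) (a : ℕ → ℂ),
    World N T P X E 1 V W a → ∀ B : ℕ, 1 ≤ B → (B : ℝ) * N ≤ 24 * E * T → ∀ c : ℕ → ℂ,
      ∑ t ∈ W, ‖∑ b ∈ Ico B (2 * B), c b * ei (t * Real.log b)‖ ^ 2 ≤
        C * E ^ k * (T * N / V ^ 2) * ∑ b ∈ Ico B (2 * B), ‖c b‖ ^ 2 :=
  ⟨6000, 2, by norm_num, fun _ _ _ _ _ _ _ _ h _ hB hBN c => hh_exp h hB hBN c⟩

end

section

/-! ### block LO2 -/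

lemma lo2_dual (W : Finset ℤ) (S : Finset ℕ) (y : ℝ) :
    ∑ p ∈ S, ‖rho W (y - Real.log p)‖ ^ 2 ≤
      ∑ t ∈ W, ‖∑ p ∈ S, rho W (y - Real.log p) * ei (t * Real.log p)‖ := by
  have h2 : ((∑ p ∈ S, ‖rho W (y - Real.log p)‖ ^ 2 : ℝ) : ℂ) =
      ∑ t ∈ W, ei (-(t * y)) * ∑ p ∈ S, rho W (y - Real.log p) * ei (t * Real.log p) := by
    simp only [mul_sum]
    rw [Complex.ofReal_sum, sum_comm]
    refine sum_congr rfl fun p _ => ?_
    rw [Complex.ofReal_pow, ← Complex.mul_conj']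
    nth_rewrite 2 [rho]
    rw [map_sum, mul_sum]
    refine sum_congr rfl fun t _ => ?_
    rw [conj_ei, mul_left_comm, ← ei_add]
    congr 2
    ring
  refine (le_abs_self _).trans ?_
  rw [← Real.norm_eq_abs, ← Complex.norm_real, h2]
  exact (norm_sum_le _ _).trans_eq (sum_congr rfl fun t _ => by rw [norm_mul, norm_ei, one_mul])

theorem hh_dual : ∃ (C : ℝ) (k : ℕ), 0 < C ∧ ∀ (N T P X : ℕ) (E V : ℝ) (W : Finset ℤ) (a : ℕ → ℂ),
    World N T P X E 1 V W a → ∀ B : ℕ, 1 ≤ B → (B : ℝ) * N ≤ 24 * E * T → ∀ y : ℝ,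
      ∑ p ∈ Ico B (2 * B), ‖rho W (y - Real.log p)‖ ^ 2 ≤
        C * E ^ k * (#W * (T * N / V ^ 2)) := by
  obtain ⟨C, k, hC, h⟩ := hh
  refine ⟨C, k, hC, fun N T P X E V W a w B hB hBN y => ?_⟩
  have h1 := h N T P X E V W a w B hB hBN fun p => rho W (y - Real.log p)
  have h2 := lo2_dual W (Ico B (2 * B)) y
  have h3 := sq_sum_le_card_mul_sum_sq (s := W)
    (f := fun t : ℤ => ‖∑ p ∈ Ico B (2 * B), rho W (y - Real.log p) * ei (t * Real.log p)‖)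
  have E0 : 0 ≤ E := zero_le_one.trans w.E1
  have F0 : 0 ≤ ∑ p ∈ Ico B (2 * B), ‖rho W (y - Real.log p)‖ ^ 2 :=
    sum_nonneg fun _ _ => sq_nonneg _
  have h4 := (pow_le_pow_left₀ F0 h2 2).trans
    (h3.trans (mul_le_mul_of_nonneg_left h1 (Nat.cast_nonneg _)))
  rcases F0.eq_or_lt with h5 | h5
  · rw [← h5]
    positivity
  · refine le_of_mul_le_mul_right ?_ h5
    rw [← sq]
    exact h4.trans_eq (by ring)

lemma lo2_dy (f : ℕ → ℝ) (L : ℕ) :
    ∑ p ∈ Ico 1 (2 ^ L), f p = ∑ i ∈ range L, ∑ p ∈ Ico (2 ^ i) (2 * 2 ^ i), f p := by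
  induction L with
  | zero => simp only [pow_zero, Std.le_refl, Ico_eq_empty_of_le, sum_empty, range_zero]
  | succ L ih =>
    rw [sum_range_succ, ← ih, sum_Ico_consecutive _ Nat.one_le_two_pow (by omega), pow_succ']

theorem low2 : ∃ (C : ℝ) (k : ℕ), 0 < C ∧ ∀ (N T P X : ℕ) (E V : ℝ) (W : Finset ℤ) (a : ℕ → ℂ),
    World N T P X E 1 V W a → ∀ ξ : ℝ,
      ∑ b ∈ Icc 1 (T / N), (1 / b : ℝ) *
        ∑ p ∈ Icc 1 (6 * b), ‖rho W (ξ + Real.log b - Real.log p)‖ ^ 2 ≤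
        C * E ^ k * (#W * (T * N / V ^ 2)) := by
  obtain ⟨C, k, hC, h⟩ := hh_dual
  refine ⟨C, k + 2, hC, fun N T P X E V W a w ξ => ?_⟩
  have hE := w.E1
  have T0 : (0 : ℝ) < T := by exact_mod_cast w.T1
  have K0 : 0 ≤ C * E ^ k * (#W * (T * N / V ^ 2)) := by positivity
  have hb : ∀ b ∈ Icc 1 (T / N), ∑ p ∈ Icc 1 (6 * b), ‖rho W (ξ + Real.log b - Real.log p)‖ ^ 2 ≤
      E * (C * E ^ k * (#W * (T * N / V ^ 2))) := by
    intro b hb
    have h0 := (mem_Icc.1 hb).1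
    have h1 : b * N ≤ T := (Nat.le_div_iff_mul_le w.N1).1 (mem_Icc.1 hb).2
    have h2 : 6 * b ≤ N ^ 2 := by
      have h3 := w.TX
      have h4 : 6 * b ≤ X := Nat.le_of_mul_le_mul_right (by linarith only [h1, h3]) w.N1
      exact (h4.trans w.XN).trans (Nat.le_self_pow two_ne_zero N)
    have h3 : ((Nat.log 2 (6 * b) + 1 : ℕ) : ℝ) ≤ E := by
      refine le_trans ?_ (bp_log w.N1 w.lg)
      exact_mod_cast Nat.succ_le_succ (Nat.log_mono_right h2)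
    have h4 : Icc 1 (6 * b) ⊆ Ico 1 (2 ^ (Nat.log 2 (6 * b) + 1)) := fun p hp =>
      mem_Ico.2 ⟨(mem_Icc.1 hp).1, (mem_Icc.1 hp).2.trans_lt (Nat.lt_pow_succ_log_self one_lt_two _)⟩
    refine (sum_le_sum_of_subset_of_nonneg h4 fun _ _ _ => sq_nonneg _).trans ?_
    rw [lo2_dy]
    refine (sum_le_card_nsmul _ _ (C * E ^ k * (#W * (T * N / V ^ 2))) fun i hi => ?_).trans ?_
    · refine h N T P X E V W a w _ Nat.one_le_two_pow ?_ _
      have h5 : 2 ^ i ≤ 6 * b := (Nat.pow_le_pow_right two_pos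
        (Nat.lt_succ_iff.1 (mem_range.1 hi))).trans (Nat.pow_log_le_self 2 (by omega))
      have h6 : 2 ^ i * N ≤ 6 * T := by nlinarith only [h1, h5]
      have h7 : ((2 ^ i : ℕ) : ℝ) * N ≤ 6 * T := by exact_mod_cast h6
      nlinarith only [hE, h7]
    · rw [card_range, nsmul_eq_mul]
      exact mul_le_mul_of_nonneg_right h3 K0
  have hs : ∑ b ∈ Icc 1 (T / N), (1 / b : ℝ) ≤ E := by
    have h1 := sum_le_sum_of_subset_of_nonneg (f := fun b : ℕ => (1 / b : ℝ))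
      (Icc_subset_Icc_right (Nat.div_le_self T N) : Icc 1 (T / N) ⊆ Icc 1 T)
      fun _ _ _ => by positivity
    have h2 := Pool.Agent.MP_e4c747_an.harm_le T
    have h3 : (T : ℝ) ≤ (N : ℝ) ^ 2 := by exact_mod_cast low_TN w.T2 w.N1
    have h4 := Real.log_le_log T0 h3
    have h5 : 0 ≤ Real.log N := Real.log_natCast_nonneg N
    rw [Real.log_pow] at h4
    push_cast at h4
    linarith only [w.lg, hE, h1, h2, h4]
  refine (sum_le_sum fun b hb' => mul_le_mul_of_nonneg_left (hb b hb') (by positivity)).trans ?_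
  rw [← sum_mul]
  refine (mul_le_mul_of_nonneg_right hs (by positivity)).trans_eq ?_
  ring

end

section

theorem bh2_bql : ∃ (C : ℝ) (k : ℕ), 0 < C ∧ ∀ (N T P X : ℕ) (E V : ℝ) (W : Finset ℤ) (a : ℕ → ℂ),
    World N T P X E 1 V W a → ∀ (Q K : ℕ) (A : Finset (ℕ × ℕ × ℕ)), 1 ≤ Q → 1 ≤ K →
      (∀ y ∈ A, Q ≤ y.1 ∧ y.1 < 2 * Q ∧ y.1 * N ≤ T ∧ K ≤ y.2.1 ∧ y.2.1 < 2 * K ∧
        y.2.1 ≤ 4 * P * y.1 ∧ 1 ≤ y.2.2 ∧ y.2.2 ≤ 6 * P + 1 ∧
        y.2.1 * N ≤ T * Nat.gcd (y.1 * y.2.2) y.2.1) →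
      ∑ y ∈ A, ∫ z in (-1 : ℝ)..1,
        ‖rho W (-z)‖ ^ 2 * cut (y.1 * (23 * E / N)) (y.2.1 * exp z - y.1 * y.2.2) ≤
        C * E ^ k * (Q * (#W * T / V ^ 2)) := by
  obtain ⟨C, k, C0, hC⟩ := low2
  refine ⟨8832 * C, k + 2, by positivity, fun N T P X E V W a h Q K A hQ hK hA => ?_⟩
  have N0 : (0 : ℝ) < N := by exact_mod_cast h.N1
  have Q0 : (0 : ℝ) < Q := by exact_mod_cast hQ
  have K0 : (0 : ℝ) < K := by exact_mod_cast hK
  have E0 : 0 < E := by linarith only [h.E1]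
  have V0 := h.V0
  rcases A.eq_empty_or_nonempty with rfl | ⟨y₀, hy₀⟩
  · rw [sum_empty]; positivity
  have hKN : 12 * K ≤ N ^ 4 := by
    obtain ⟨-, -, a3, a4, -, a6, -⟩ := hA _ hy₀
    have b1 : 12 * P ≤ N := h.PX.trans h.XN
    have b0 := h.N1000
    have b2 : y₀.1 ≤ N := by
      by_contra hc
      have c1 : N * N ≤ T := le_trans (Nat.mul_le_mul_right _ (not_le.1 hc).le) a3
      have c2 : (N * N) ^ 2 ≤ N ^ 3 := (Nat.pow_le_pow_left c1 2).trans h.T2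
      have c3 : N ^ 3 * N ≤ N ^ 3 * 1 := by linarith only [c2]
      have := Nat.le_of_mul_le_mul_left c3 (by positivity)
      omega
    have b3 : 12 * P * y₀.1 ≤ N * N := Nat.mul_le_mul b1 b2
    have b4 : 4 ≤ N * N := by nlinarith only [b0]
    have b5 : 4 * (N * N) ≤ N * N * (N * N) := Nat.mul_le_mul_right _ b4
    linarith only [a4, a6, b3, b5]
  set d : ℝ := 23 * E / N with hd
  have d0 : 0 < d := by positivity
  have d1 : d ≤ 0.023 := by rw [hd, div_le_iff₀ N0]; linarith only [h.EN]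
  set w : ℝ := 12 * Q * d / K with hw
  have w0 : 0 < w := by positivity
  let G : ℕ → ℕ → ℝ := fun b p =>
    ∫ ξ in (-(2 * w))..(2 * w), ‖rho W (ξ + Real.log b - Real.log p)‖ ^ 2
  have G0 : ∀ b p, 0 ≤ G b p := fun b p =>
    intervalIntegral.integral_nonneg (by linarith only [w0]) fun _ _ => by positivity
  have h1 : ∀ y ∈ A, ∫ z in (-1 : ℝ)..1,
      ‖rho W (-z)‖ ^ 2 * cut (y.1 * d) (y.2.1 * exp z - y.1 * y.2.2) ≤
      if y.1 * y.2.2 / Nat.gcd (y.1 * y.2.2) y.2.1 ≤ 6 * (y.2.1 / Nat.gcd (y.1 * y.2.2) y.2.1) then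
        4 * G (y.2.1 / Nat.gcd (y.1 * y.2.2) y.2.1) (y.1 * y.2.2 / Nat.gcd (y.1 * y.2.2) y.2.1)
      else 0 := by
    intro y hy
    obtain ⟨a1, a2, -, a4, -, -, a7, -⟩ := hA y hy
    have k1 : 0 < y.2.1 := by omega
    refine bql_one W (hQ.trans a1) a7 (Nat.gcd_pos_of_pos_right _ k1)
      (Nat.div_gcd_pos_of_pos_right _ k1) (Nat.mul_div_cancel' (Nat.gcd_dvd_right _ _)).symm
      (Nat.mul_div_cancel' (Nat.gcd_dvd_left _ _)).symm d0 d1 w0 ?_
    have c1 : (y.1 : ℝ) ≤ 2 * Q := by exact_mod_cast a2.le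
    have c2 : (K : ℝ) ≤ y.2.1 := by exact_mod_cast a4
    have c3 : w * K = 12 * Q * d := by rw [hw]; field_simp
    nlinarith only [d0, w0, c1, c2, c3]
  refine (sum_le_sum h1).trans ?_
  rw [← sum_filter, ← mul_sum]
  have h2 := bql_count (T / N) K (A.filter fun y => y.1 * y.2.2 / Nat.gcd (y.1 * y.2.2) y.2.1 ≤
      6 * (y.2.1 / Nat.gcd (y.1 * y.2.2) y.2.1)) G G0 E0.le
    (fun n hn hn' => h.tau n hn (hn'.trans hKN)) fun y hy => by
      obtain ⟨hy, hy'⟩ := mem_filter.1 hy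
      obtain ⟨a1, -, -, a4, a5, -, a7, -, a9⟩ := hA y hy
      have k1 : 0 < y.2.1 := by omega
      refine ⟨hQ.trans a1, a7, k1, a5, (Nat.le_div_iff_mul_le h.N1).2 ?_, hy'⟩
      refine Nat.le_of_mul_le_mul_left ?_ (Nat.gcd_pos_of_pos_right (y.1 * y.2.2) k1)
      rw [← mul_assoc, Nat.mul_div_cancel' (Nat.gcd_dvd_right _ _), mul_comm _ T]
      exact a9
  have h3 : ∑ b ∈ Icc 1 (T / N), (1 / b : ℝ) * ∑ p ∈ Icc 1 (6 * b), G b p =
      ∫ ξ in (-(2 * w))..(2 * w), ∑ b ∈ Icc 1 (T / N), (1 / b : ℝ) *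
        ∑ p ∈ Icc 1 (6 * b), ‖rho W (ξ + Real.log b - Real.log p)‖ ^ 2 := by
    rw [intervalIntegral.integral_finsetSum fun b _ =>
      Continuous.intervalIntegrable (by fun_prop) _ _]
    refine sum_congr rfl fun b _ => ?_
    rw [intervalIntegral.integral_const_mul, intervalIntegral.integral_finsetSum fun b _ =>
      Continuous.intervalIntegrable (by fun_prop) _ _]
  have h4 : ∑ b ∈ Icc 1 (T / N), (1 / b : ℝ) * ∑ p ∈ Icc 1 (6 * b), G b p ≤
      4 * w * (C * E ^ k * (#W * (T * N / V ^ 2))) := by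
    rw [h3]
    refine (intervalIntegral.integral_mono_on (by linarith only [w0])
      (Continuous.intervalIntegrable (by fun_prop) _ _) (intervalIntegrable_const (c := C * E ^ k *
        (#W * (T * N / V ^ 2)))) fun ξ _ => hC N T P X E V W a h ξ).trans (le_of_eq ?_)
    rw [intervalIntegral.integral_const, smul_eq_mul]
    ring
  have h5 := h2.trans (mul_le_mul_of_nonneg_left h4 (by positivity))
  refine (mul_le_mul_of_nonneg_left h5 (by norm_num)).trans ?_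
  refine le_of_eq ?_
  rw [hw, hd]
  field_simp
  ring

theorem bh2_bp : ∃ (C : ℝ) (k : ℕ), 0 < C ∧ ∀ (N T P X : ℕ) (E V : ℝ) (W : Finset ℤ) (a : ℕ → ℂ),
    World N T P X E 1 V W a → BB N T P E W ≤ C * E ^ k * (#W + #W * T / V ^ 2) := by
  classical
  obtain ⟨C₁, k₁, hC₁, h₁⟩ := bqh
  obtain ⟨C₂, k₂, hC₂, h₂⟩ := bh2_bql
  refine ⟨2 * (C₁ + C₂), k₁ + k₂ + 2, by positivity, fun N T P X E V W a w => ?_⟩
  have N0 : (0 : ℝ) < N := by exact_mod_cast w.N1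
  have E0 : 0 < E := one_pos.trans_le w.E1
  have d0 : 0 < 23 * E / N := by positivity
  have d1 : 2 * (23 * E / N) ≤ 1 := by
    rw [← mul_div_assoc, div_le_one N0]; linarith [w.EN]
  set I : ℕ × ℕ × ℕ → ℝ := fun y => ∫ z in (-1 : ℝ)..1,
    ‖rho W (-z)‖ ^ 2 * cut (y.1 * (23 * E / N)) (y.2.1 * exp z - y.1 * y.2.2) with hI
  set B : Finset (ℕ × ℕ × ℕ) := (Icc 1 (T / N) ×ˢ Icc 1 (4 * P * (T / N)) ×ˢ Icc 1 (6 * P + 1)).filter
    fun y => y.2.1 ≤ 4 * P * y.1 with hB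
  set R : ℝ := #W + #W * T / V ^ 2 with hR
  have hWR : (#W : ℝ) ≤ R := le_add_of_nonneg_right (by positivity)
  have hWR' : (#W : ℝ) * T / V ^ 2 ≤ R := le_add_of_nonneg_left (by positivity)
  have R0 : 0 ≤ R := (Nat.cast_nonneg _).trans hWR
  have I0 : ∀ y ∈ B, 0 ≤ I y := fun y hy =>
    intervalIntegral.integral_nonneg (by norm_num) fun z _ => mul_nonneg (sq_nonneg _) <|
      cut_nonneg (mul_pos (by
        simp only [hB, mem_filter, mem_product, mem_Icc] at hy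
        exact_mod_cast hy.1.1.1) d0) _
  have e1 : BB N T P E W = 2 * ∑ y ∈ B, (1 / y.1 : ℝ) * I y := by
    rw [BB, hB, sum_filter, sum_product, mul_sum]
    refine sum_congr rfl fun q hq => ?_
    have hq' := mem_Icc.1 hq
    have q1 : (1 : ℝ) ≤ q := by exact_mod_cast hq'.1
    have e2 : (4 * P * q : ℤ) = ((4 * P * q : ℕ) : ℤ) := by push_cast; ring
    have e3 : (6 * P + 1 : ℤ) = ((6 * P + 1 : ℕ) : ℤ) := by push_cast; ring
    have e4 : Icc 1 (4 * P * q) = (Icc 1 (4 * P * (T / N))).filter (· ≤ 4 * P * q) := by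
      have := Nat.mul_le_mul_left (4 * P) hq'.2
      ext k; simp only [mem_filter, mem_Icc]; omega
    rw [e2, bp_sym, e4, sum_filter, sum_product, mul_sum, mul_sum]
    refine sum_congr rfl fun k hk => ?_
    split_ifs with hc
    swap
    · simp
    rw [Jst, Jall, e3, bp_sym, bp_sym, ← sum_add_distrib, mul_sum, mul_sum]
    refine sum_congr rfl fun j hj => ?_
    have j1 : (1 : ℝ) ≤ j := by exact_mod_cast (mem_Icc.1 hj).1
    have hz : ∀ z : ℝ, cut (q * (23 * E / N)) (k * exp z + q * j) = 0 := fun z => by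
      refine cut_zero (by positivity) (le_abs.2 (Or.inl ?_))
      have : (0 : ℝ) ≤ k * exp z := by positivity
      linarith only [mul_le_mul_of_nonneg_left (d1.trans j1) (zero_le_one.trans q1), this]
    have a1 : ∀ z : ℝ, (((k : ℤ) : ℝ) * exp z - q * ((-(j : ℤ) : ℤ) : ℝ)) = k * exp z + q * j :=
      fun z => by push_cast; ring
    have a2 : ∀ z : ℝ, (((-(k : ℤ) : ℤ) : ℝ) * exp z - q * ((j : ℤ) : ℝ)) = -(k * exp z + q * j) :=
      fun z => by push_cast; ring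
    have a3 : ∀ z : ℝ, (((-(k : ℤ) : ℤ) : ℝ) * exp z - q * ((-(j : ℤ) : ℤ) : ℝ)) =
        -(k * exp z - q * j) := fun z => by push_cast; ring
    simp only [a1, a2, a3, cut_neg, hz, mul_zero, intervalIntegral.integral_zero, hI]
    simp only [Int.cast_natCast]
    ring
  set L := Nat.log 2 (N ^ 2) + 1 with hL
  have hLE : (L : ℝ) ≤ E := bp_log w.N1 w.lg
  have hTN : T / N ≤ N := by
    refine Nat.div_le_of_le_mul ((Nat.pow_le_pow_iff_left two_ne_zero).1 (w.T2.trans ?_))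
    rw [show (N * N) ^ 2 = N ^ 4 by ring]
    exact Nat.pow_le_pow_right w.N1 (by norm_num)
  have hmap : ∀ y ∈ B, (Nat.log 2 y.1, Nat.log 2 y.2.1) ∈ range L ×ˢ range L := fun y hy => by
    simp only [hB, mem_filter, mem_product, mem_Icc] at hy
    have h1 : y.1 ≤ N ^ 2 := (hy.1.1.2.trans hTN).trans (Nat.le_self_pow two_ne_zero N)
    have h2 : y.2.1 ≤ N ^ 2 := by
      have : 4 * P ≤ N := by linarith only [w.PX, w.XN]
      calc y.2.1 ≤ 4 * P * (T / N) := hy.1.2.1.2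
        _ ≤ N * N := Nat.mul_le_mul this hTN
        _ = N ^ 2 := by ring
    simp only [mem_product, mem_range, hL]
    exact ⟨Nat.lt_succ_of_le (Nat.log_mono_right h1), Nat.lt_succ_of_le (Nat.log_mono_right h2)⟩
  have cell : ∀ c ∈ range L ×ˢ range L,
      ∑ y ∈ B with (Nat.log 2 y.1, Nat.log 2 y.2.1) = c, (1 / y.1 : ℝ) * I y ≤
        (C₁ + C₂) * E ^ (k₁ + k₂) * R := fun c _ => by
    set A := B.filter fun y => (Nat.log 2 y.1, Nat.log 2 y.2.1) = c with hA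
    have Q1 : 1 ≤ 2 ^ c.1 := Nat.one_le_two_pow
    have Q0 : (0 : ℝ) < (2 ^ c.1 : ℕ) := by exact_mod_cast Q1
    have hy : ∀ y ∈ A, 2 ^ c.1 ≤ y.1 ∧ y.1 < 2 * 2 ^ c.1 ∧ y.1 * N ≤ T ∧ 2 ^ c.2 ≤ y.2.1 ∧
        y.2.1 < 2 * 2 ^ c.2 ∧ y.2.1 ≤ 4 * P * y.1 ∧ 1 ≤ y.2.2 ∧ y.2.2 ≤ 6 * P + 1 := fun y hy => by
      simp only [hA, hB, mem_filter, mem_product, mem_Icc] at hy
      obtain ⟨⟨⟨⟨a1, a2⟩, ⟨a3, -⟩, a5, a6⟩, a7⟩, rfl⟩ := hy
      exact ⟨Nat.pow_log_le_self 2 (by omega), by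
          rw [← pow_succ']; exact Nat.lt_pow_succ_log_self one_lt_two _,
        (Nat.le_div_iff_mul_le w.N1).1 a2, Nat.pow_log_le_self 2 (by omega), by
          rw [← pow_succ']; exact Nat.lt_pow_succ_log_self one_lt_two _, a7, a5, a6⟩
    have b1 := h₁ N T P X E 1 V W a w (2 ^ c.1) (2 ^ c.2)
      (A.filter fun y => ¬ y.2.1 * N ≤ T * Nat.gcd (y.1 * y.2.2) y.2.1) Q1 Nat.one_le_two_pow
      fun y hy' => by
        obtain ⟨a1, a2, a3, a4, a5, a6, a7, a8⟩ := hy y (mem_filter.1 hy').1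
        exact ⟨a1, a2, a3, a4, a5, a6, a7, a8, not_le.1 (mem_filter.1 hy').2⟩
    have b2 := h₂ N T P X E V W a w (2 ^ c.1) (2 ^ c.2)
      (A.filter fun y => y.2.1 * N ≤ T * Nat.gcd (y.1 * y.2.2) y.2.1) Q1 Nat.one_le_two_pow
      fun y hy' => by
        obtain ⟨a1, a2, a3, a4, a5, a6, a7, a8⟩ := hy y (mem_filter.1 hy').1
        exact ⟨a1, a2, a3, a4, a5, a6, a7, a8, (mem_filter.1 hy').2⟩
    have b3 : ∑ y ∈ A, (1 / y.1 : ℝ) * I y ≤ ∑ y ∈ A, (1 / ((2 ^ c.1 : ℕ) : ℝ)) * I y :=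
      sum_le_sum fun y hy' => mul_le_mul_of_nonneg_right
        (one_div_le_one_div_of_le Q0 (by exact_mod_cast (hy y hy').1)) (I0 y (mem_filter.1 hy').1)
    refine b3.trans ?_
    rw [← mul_sum, ← sum_filter_add_sum_filter_not A
      fun y => y.2.1 * N ≤ T * Nat.gcd (y.1 * y.2.2) y.2.1, one_div, inv_mul_le_iff₀ Q0]
    have p1 : E ^ k₁ ≤ E ^ (k₁ + k₂) := pow_le_pow_right₀ w.E1 (by omega)
    have p2 : E ^ k₂ ≤ E ^ (k₁ + k₂) := pow_le_pow_right₀ w.E1 (by omega)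
    have c1 : C₁ * E ^ k₁ * (((2 ^ c.1 : ℕ) : ℝ) * #W) ≤
        C₁ * E ^ (k₁ + k₂) * (((2 ^ c.1 : ℕ) : ℝ) * R) :=
      mul_le_mul (mul_le_mul_of_nonneg_left p1 hC₁.le) (mul_le_mul_of_nonneg_left hWR Q0.le)
        (mul_nonneg Q0.le (Nat.cast_nonneg _)) (mul_nonneg hC₁.le (pow_nonneg E0.le _))
    have c2 : C₂ * E ^ k₂ * (((2 ^ c.1 : ℕ) : ℝ) * (#W * T / V ^ 2)) ≤
        C₂ * E ^ (k₁ + k₂) * (((2 ^ c.1 : ℕ) : ℝ) * R) :=
      mul_le_mul (mul_le_mul_of_nonneg_left p2 hC₂.le) (mul_le_mul_of_nonneg_left hWR' Q0.le)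
        (by positivity) (mul_nonneg hC₂.le (pow_nonneg E0.le _))
    linarith only [b1, b2, c1, c2]
  rw [e1, ← sum_fiberwise_of_maps_to hmap]
  have f1 := sum_le_card_nsmul _ _ _ cell
  rw [card_product, card_range, nsmul_eq_mul, Nat.cast_mul] at f1
  have f2 : (L : ℝ) * L * ((C₁ + C₂) * E ^ (k₁ + k₂) * R) ≤
      E * E * ((C₁ + C₂) * E ^ (k₁ + k₂) * R) :=
    mul_le_mul_of_nonneg_right (mul_self_le_mul_self (Nat.cast_nonneg _) hLE)
      (mul_nonneg (mul_nonneg (add_pos hC₁ hC₂).le (pow_nonneg E0.le _)) R0)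
  calc _ ≤ 2 * (E * E * ((C₁ + C₂) * E ^ (k₁ + k₂) * R)) := by linarith only [f1, f2]
    _ = _ := by ring

theorem blockH2 : ∃ (C : ℝ) (k : ℕ), 0 < C ∧ ∀ (N T P X : ℕ) (E V : ℝ) (W : Finset ℤ) (a : ℕ → ℂ),
    World N T P X E 1 V W a → ∀ h : ℝ → ℂ, Continuous h → (∀ z, ‖h z‖ ≤ ‖rho W (-z)‖) →
      (∀ z, ‖h z‖ ≤ ‖rho W (-z)‖ ^ 2 / √(X * #W)) →
      SS N P W h ≤ C * E ^ k * (N ^ 2 * X * #W / V ^ 2 * (1 + T / V ^ 2)) := by
  obtain ⟨C₁, c₁, h₁⟩ := g3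
  obtain ⟨C₂, k₂, c₂, h₂⟩ := zero
  obtain ⟨C₃, c₃, h₃⟩ := minor
  obtain ⟨C₄, k₄, c₄, h₄⟩ := qq_one
  obtain ⟨C₅, k₅, c₅, h₅⟩ := mja
  obtain ⟨C₆, k₆, c₆, h₆⟩ := bh2_bp
  refine ⟨C₁ * (8 * C₂ + 72 * C₃ * C₄ + C₅ * C₆), k₂ + k₄ + (k₅ + k₆), by positivity,
    fun N T P X E V W a w h hc b₁ b₂ => ?_⟩
  have N1 := w.N1
  have N0 : (0 : ℝ) < N := by exact_mod_cast N1
  have E1 := w.E1
  have E0 : 0 < E := by linarith only [E1]
  have V0 := w.V0
  have R0 : (0 : ℝ) < #W := by exact_mod_cast w.W1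
  have P0 : (0 : ℝ) < P := by exact_mod_cast w.P1
  have PX : (P : ℝ) ≤ X := by
    have := w.PX
    exact_mod_cast (by omega : P ≤ X)
  have X0 : (0 : ℝ) < X := P0.trans_le PX
  have cf : Continuous fun z => ‖h z‖ := hc.norm
  have cr : Continuous fun z : ℝ => ‖rho W (-z)‖ ^ 2 := by fun_prop
  have sq : ∀ z, ‖h z‖ ^ 2 ≤ ‖rho W (-z)‖ ^ 2 := fun z =>
    pow_le_pow_left₀ (norm_nonneg _) (b₁ z) 2
  have r2 : ∫ z in (-1 : ℝ)..1, ‖rho W (-z)‖ ^ 2 ≤ 8 * #W :=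
    (rho_l2 W (by norm_num) (by linarith only [pi_gt_three])).trans
      (mul_le_mul_of_nonneg_right (by linarith only [pi_le_four]) R0.le)
  have i2 : ∫ z in (-1 : ℝ)..1, ‖h z‖ ^ 2 ≤ 8 * #W :=
    (intervalIntegral.integral_mono_on (by norm_num) ((cf.pow 2).intervalIntegrable _ _)
      (cr.intervalIntegrable _ _) fun z _ => sq z).trans r2
  have i1 : ∫ z in (-1 : ℝ)..1, ‖h z‖ ≤ 8 * #W / √(X * #W) := by
    refine (intervalIntegral.integral_mono_on (by norm_num) (cf.intervalIntegrable _ _)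
      ((cr.div_const _).intervalIntegrable _ _) fun z _ => b₂ z).trans ?_
    rw [intervalIntegral.integral_div]
    exact div_le_div_of_nonneg_right r2 (sqrt_nonneg _)
  have i3 : (P : ℝ) ^ 2 * (∫ z in (-1 : ℝ)..1, ‖h z‖) ^ 2 ≤ 64 * (X * #W) := by
    have i0 : 0 ≤ ∫ z in (-1 : ℝ)..1, ‖h z‖ :=
      intervalIntegral.integral_nonneg (by norm_num) fun z _ => norm_nonneg _
    calc _ ≤ (X : ℝ) ^ 2 * (8 * #W / √(X * #W)) ^ 2 := by gcongr
      _ = _ := by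
        rw [div_pow, sq_sqrt (by positivity)]
        field_simp
        norm_num
  have i4 : (P : ℝ) * ∫ z in (-1 : ℝ)..1, ‖h z‖ ^ 2 ≤ 8 * (X * #W) :=
    (mul_le_mul PX i2 (intervalIntegral.integral_nonneg (by norm_num) fun z _ => sq_nonneg _)
      X0.le).trans (le_of_eq (by ring))
  have e₂ : E ^ k₂ ≤ E ^ (k₂ + k₄ + (k₅ + k₆)) := pow_le_pow_right₀ E1 (by omega)
  have e₄ : E ^ k₄ ≤ E ^ (k₂ + k₄ + (k₅ + k₆)) := pow_le_pow_right₀ E1 (by omega)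
  have e₅ : E ^ (k₅ + k₆) ≤ E ^ (k₂ + k₄ + (k₅ + k₆)) := pow_le_pow_right₀ E1 (by omega)
  set F := E ^ (k₂ + k₄ + (k₅ + k₆)) with hF
  have F0 : 0 < F := by positivity
  set A : ℝ := N ^ 2 * X * #W with hA
  set B : ℝ := N ^ 2 * X * #W * T / V ^ 2 with hB
  have A0 : 0 ≤ A := by positivity
  have B0 : 0 ≤ B := by positivity
  have q0 : QQ N P (fun z => ‖h z‖) (fun z => ‖h z‖) (nu T (allp N)) {0} ≤
      8 * C₂ * (F * (A + B)) := by
    refine (sym N P N1 cf (cont_nu _ _) (nu_nonneg w.T1 _) (nu_even (allp_swap N)) {0}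
      (by simp)).trans ((h₂ N T P X E 1 V W a w (fun z => ‖h z‖ ^ 2) (cf.pow 2)
        fun z => sq_nonneg _).trans ?_)
    calc _ = C₂ * E ^ k₂ * (N ^ 2 * (P * ∫ z in (-1 : ℝ)..1, ‖h z‖ ^ 2)) := by ring
      _ ≤ C₂ * E ^ k₂ * (N ^ 2 * (8 * (X * #W))) := by gcongr
      _ = 8 * C₂ * (E ^ k₂ * A) := by rw [hA]; ring
      _ ≤ _ := by gcongr; linarith only [B0]
  have q1 : QQ N P (fun z => ‖h z‖) (fun z => ‖h z‖) (nu T (minp N T)) (Jst P) ≤
      72 * C₃ * C₄ * (F * (A + B)) := by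
    refine (blh_mono N P N1 (C₃ * N ^ 2) cf cf (cont_nu _ _) cf cf
      (continuous_const (y := (1 : ℝ))) (Jst P) fun z hz z' hz' => ?_).trans ?_
    · rw [mul_one, mul_comm (C₃ * N ^ 2)]
      exact mul_le_mul_of_nonneg_left (h₃ N T N1 w.NT _
        (abs_le.2 ⟨by linarith only [hz.1, hz'.2], by linarith only [hz.2, hz'.1]⟩)) (by positivity)
    calc _ ≤ C₃ * N ^ 2 * (C₄ * E ^ k₄ * (64 * (X * #W) + 8 * (X * #W))) := by
          refine mul_le_mul_of_nonneg_left ((h₄ N T P X E 1 V W a w _ cf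
            (fun z => norm_nonneg _) (Jst P)).trans ?_) (by positivity)
          exact mul_le_mul_of_nonneg_left (add_le_add i3 i4) (by positivity)
      _ = 72 * C₃ * C₄ * (E ^ k₄ * A) := by rw [hA]; ring
      _ ≤ _ := by gcongr; linarith only [B0]
  have q2 : QQ N P (fun z => ‖h z‖) (fun z => ‖h z‖) (nu T (majp N T)) (Jst P) ≤
      C₅ * C₆ * (F * (A + B)) := by
    refine (sym N P N1 cf (cont_nu _ _) (nu_nonneg w.T1 _) (nu_even (majp_swap N T)) _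
      (Jst_neg P)).trans ((blh_mono N P N1 (f := fun z => ‖h z‖ ^ 2) 1 (cf.pow 2)
        continuous_const (cont_nu _ _) cr (continuous_const (y := (1 : ℝ)))
        (cont_nu T (majp N T)) (Jst P) fun z _ z' _ => ?_).trans ?_)
    · rw [one_mul]
      exact mul_le_mul_of_nonneg_right (mul_le_mul_of_nonneg_right (sq z) zero_le_one)
        (nu_nonneg w.T1 _ _)
    rw [one_mul]
    calc _ ≤ C₅ * E ^ k₅ * (N ^ 2 * P * (C₆ * E ^ k₆ * (#W + #W * T / V ^ 2))) := by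
          refine (h₅ N T P X E 1 V W a w).trans ?_
          have := h₆ N T P X E V W a w
          gcongr
      _ ≤ C₅ * E ^ k₅ * (N ^ 2 * X * (C₆ * E ^ k₆ * (#W + #W * T / V ^ 2))) := by gcongr
      _ = C₅ * C₆ * (E ^ (k₅ + k₆) * (A + B)) := by
          rw [hA, hB, pow_add]
          field_simp
      _ ≤ _ := by gcongr
  have en : nu T (allp N) = fun x => nu T (majp N T) x + nu T (minp N T) x :=
    funext (nu_split N T)
  have q3 : QQ N P (fun z => ‖h z‖) (fun z => ‖h z‖) (nu T (allp N)) (Jst P) =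
      QQ N P (fun z => ‖h z‖) (fun z => ‖h z‖) (nu T (majp N T)) (Jst P) +
        QQ N P (fun z => ‖h z‖) (fun z => ‖h z‖) (nu T (minp N T)) (Jst P) := by
    rw [en]
    exact blh_add N P cf cf (cont_nu _ _) (cont_nu _ _) _
  refine (h₁ N T P X E 1 V W a w h hc).trans ?_
  rw [blh_split, q3]
  calc _ ≤ C₁ / V ^ 2 * (8 * C₂ * (F * (A + B)) +
        (C₅ * C₆ * (F * (A + B)) + 72 * C₃ * C₄ * (F * (A + B)))) :=
        mul_le_mul_of_nonneg_left (add_le_add q0 (add_le_add q2 q1)) (by positivity)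
    _ = _ := by ring

end

section

/-! ### block CS1 -/

lemma cs1_eq {P : ℕ} (hP : 1 ≤ P) (W : Finset ℤ) {α : ℝ → ℂ} (hα : Continuous α)
    (h0 : ∀ z, 1 ≤ |z| → α z = 0) (δ c j : ℝ) :
    ∑ m ∈ Ico P (2 * P), ∫ z in (-1 : ℝ)..1, ∫ z' in (-1 : ℝ)..1, α z * conj (α z') *
      rho W (z - z') * ((Kr δ (c * exp z - m * exp z' - j) : ℝ) : ℂ) =
    ∫ ξ in (Real.log P - 1)..(Real.log P + 2), ∫ z in (-1 : ℝ)..1,
      α z * Phi P α W ξ (z - ξ) * ((Kr δ (c * exp z - exp ξ - j) : ℝ) : ℂ) := by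
  simp only [Phi, mul_sum, sum_mul]
  rw [tri_isum _ fun m => by fun_prop]
  refine sum_congr rfl fun m hm => ?_
  rw [ii_swap (by fun_prop) (by norm_num) (by norm_num), tri_shift hP hm fun z hz => by
    simp [h0 z hz], show Real.log P - 1 + 3 = Real.log P + 2 by ring]
  simp only [tri_exp hP hm, ← mul_assoc, sub_sub_eq_add_sub, add_sub_right_comm]

lemma cs1_am {a b w τ : ℝ} (hw : 1 ≤ w) (hτ : 0 < τ) :
    a * b ≤ (τ * (a ^ 2 * w) + b ^ 2 / w / τ) / 2 := by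
  have h : 0 < w * τ := by positivity
  rw [div_div, le_div_iff₀ two_pos, ← sub_le_iff_le_add', le_div_iff₀ h]
  linarith only [sq_nonneg (a * (w * τ) - b)]

lemma cs1_gen {f : ℝ → ℝ → ℂ} {A B : ℝ → ℝ → ℝ} (hf : Continuous f.uncurry)
    (hA : Continuous A.uncurry) (hB : Continuous B.uncurry) {a b c d τ : ℝ} (hab : a ≤ b)
    (hcd : c ≤ d) (h : ∀ x y, ‖f x y‖ ≤ 4 * (τ * A x y + B x y / τ)) :
    ‖∫ x in a..b, ∫ y in c..d, f x y‖ ≤ 4 * (τ * (∫ x in a..b, ∫ y in c..d, A x y) +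
      (∫ x in a..b, ∫ y in c..d, B x y) / τ) := by
  refine (ii_norm hf hab hcd).trans (le_trans (ii_mono (f := fun x y => ‖f x y‖)
    (g := fun x y => 4 * (τ * A x y + B x y / τ)) hf.norm
    (((hA.const_mul τ).add (hB.div_const τ)).const_mul 4) hab hcd fun x _ y _ => h x y)
    (le_of_eq ?_))
  rw [← intervalIntegral.integral_const_mul, ← intervalIntegral.integral_div,
    ← intervalIntegral.integral_add (((ii_cont hA _ _).const_mul τ).intervalIntegrable _ _)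
      (((ii_cont hB _ _).div_const τ).intervalIntegrable _ _),
    ← intervalIntegral.integral_const_mul]
  congr 1
  funext x
  rw [intervalIntegral.integral_const_mul, intervalIntegral.integral_add
    (((hA.uncurry_left x).const_mul τ).intervalIntegrable _ _)
    (((hB.uncurry_left x).div_const τ).intervalIntegrable _ _),
    intervalIntegral.integral_const_mul, intervalIntegral.integral_div]

lemma cs1_one {N P : ℕ} (hN : 1 ≤ N) (W : Finset ℤ) {α : ℝ → ℂ} (hα : Continuous α)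
    {τ : ℝ} (hτ : 0 < τ) (c j : ℝ) :
    ‖∫ ξ in (Real.log P - 1)..(Real.log P + 2), ∫ z in (-1 : ℝ)..1, α z * Phi P α W ξ (z - ξ) *
      ((Kr (1 / (32 * N)) (c * exp z - exp ξ - j) : ℝ) : ℂ)‖ ≤
    4 * (τ * (∫ ξ in (Real.log P - 1)..(Real.log P + 2), ∫ z in (-1 : ℝ)..1,
      ‖α z‖ ^ 2 * (om (P * #W) (F2 P α ξ) * om (P * #W) (F3 P W (z - ξ))) *
        tri (1 / (8 * N)) (c * exp z - exp ξ - j)) +
      (∫ ξ in (Real.log P - 1)..(Real.log P + 2), ∫ z in (-1 : ℝ)..1,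
        Psi P α W ξ (z - ξ) * tri (1 / (8 * N)) (c * exp z - exp ξ - j)) / τ) := by
  have N0 : (0 : ℝ) < N := by exact_mod_cast hN
  have hd : (0 : ℝ) < 1 / (32 * N) := by positivity
  have c1 := cont_Phi P hα W
  have c2 := cont_Psi P hα W
  have c3 := cont_F2 P hα
  refine cs1_gen (by fun_prop) (by fun_prop) (by fun_prop) (by linarith only []) (by norm_num)
    fun ξ z => ?_
  have b := Kr_le hd (c * exp z - exp ξ - j)
  rw [show 4 * (1 / (32 * N) : ℝ) = 1 / (8 * N) by ring] at b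
  have a := cs1_am (a := ‖α z‖) (b := ‖Phi P α W ξ (z - ξ)‖) (Psi_den P α W ξ (z - ξ)) hτ
  rw [norm_mul, norm_mul, Complex.norm_real, Real.norm_of_nonneg (Kr_nonneg hd _)]
  refine (mul_le_mul a b (Kr_nonneg hd _) (le_trans (by positivity) a)).trans (le_of_eq ?_)
  rw [Psi]
  ring

theorem cs1 (N P : ℕ) (hN : 1 ≤ N) (hP : 1 ≤ P) (W : Finset ℤ) {α : ℝ → ℂ} (hα : Continuous α)
    (h0 : ∀ z, 1 ≤ |z| → α z = 0) {τ : ℝ} (hτ : 0 < τ) :
    ‖TT N P α (rho W)‖ ≤ 4 * (τ * II N P (fun ξ z =>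
      ‖α z‖ ^ 2 * (om (P * #W) (F2 P α ξ) * om (P * #W) (F3 P W (z - ξ)))) +
      II N P (fun ξ z => Psi P α W ξ (z - ξ)) / τ) := by
  rw [TT, II, II, mul_sum, sum_div, ← sum_add_distrib, mul_sum]
  refine (norm_sum_le _ _).trans (sum_le_sum fun m _ => ?_)
  rw [sum_comm, mul_sum, sum_div, ← sum_add_distrib, mul_sum]
  refine (norm_sum_le _ _).trans (sum_le_sum fun j _ => ?_)
  rw [cs1_eq hP W hα h0]
  exact cs1_one hN W hα hτ m j

end

section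

/-! ### block FIN -/

lemma fin_pars (S : Finset ℤ) (f : ℤ → ℂ) {c d : ℝ} (h1 : c ≤ d) (h2 : d ≤ c + 2 * π) :
    ∫ x in c..d, ‖∑ s ∈ S, f s * ei (s * x)‖ ^ 2 ≤ 2 * π * ∑ s ∈ S, ‖f s‖ ^ 2 := by
  rw [← parseval c S f]
  exact intervalIntegral.integral_mono_interval le_rfl h1 h2
    (Filter.Eventually.of_forall fun _ => sq_nonneg _)
    (Continuous.intervalIntegrable (by fun_prop) _ _)

lemma fin_sum (P : ℕ) (W : Finset ℤ) {f : ℕ → ℝ → ℝ} (hf : ∀ m, Continuous (f m)) {c d : ℝ}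
    (h : ∀ m, ∫ x in c..d, f m x ≤ 2 * π * #W) :
    ∫ x in c..d, ∑ m ∈ Ico P (2 * P), f m x ≤ 2 * π * (P * #W) := by
  rw [intervalIntegral.integral_finsetSum fun m _ => (hf m).intervalIntegrable _ _]
  refine (sum_le_sum fun m _ => h m).trans (le_of_eq ?_)
  rw [sum_const, Nat.card_Ico, show 2 * P - P = P by omega, nsmul_eq_mul]
  ring

theorem int_F2 {W : Finset ℤ} {α : ℝ → ℂ} (h : Adm W α) {P : ℕ} (hP : 1 ≤ P) :
    ∫ ξ in (Real.log P - 1)..(Real.log P + 2), F2 P α ξ ≤ 2 * π * (P * #W) := by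
  have := hP
  have hc := h.cont
  refine fin_sum P W (f := fun m ξ => ‖α (ξ - Real.log m)‖ ^ 2) (fun m => by fun_prop) fun m => ?_
  rw [intervalIntegral.integral_comp_sub_right (fun z => ‖α z‖ ^ 2)]
  refine le_trans (intervalIntegral.integral_mono_on (by linarith only [])
    (Continuous.intervalIntegrable (by fun_prop) _ _)
    (Continuous.intervalIntegrable (by fun_prop) _ _) fun z _ =>
      pow_le_pow_left₀ (norm_nonneg _) (h.le z) 2) (rho_l2 W (by linarith only []) ?_)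
  linarith [pi_gt_three]

theorem int_F3 (P : ℕ) (W : Finset ℤ) {c d : ℝ} (h1 : c ≤ d) (h2 : d ≤ c + 2 * π) :
    ∫ η in c..d, F3 P W η ≤ 2 * π * (P * #W) := by
  refine fin_sum P W (f := fun m η => ‖rho W (η + Real.log m)‖ ^ 2) (fun m => by fun_prop)
    fun m => ?_
  have h3 := fin_pars W (fun t => ei (t * Real.log m)) h1 h2
  simp only [norm_ei, one_pow, sum_const, nsmul_eq_mul, mul_one, ← ei_add, ← mul_add] at h3
  simpa only [rho, add_comm] using h3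

theorem hn_le : ∃ (C : ℝ) (k : ℕ), 0 < C ∧ ∀ (N T P X : ℕ) (E V : ℝ) (W : Finset ℤ) (a : ℕ → ℂ),
    World N T P X E 1 V W a → ∀ α : ℝ → ℂ, Adm W α →
      HN P α W ≤ C * E ^ k * (T * N / V ^ 2 * (P * #W)) := by
  obtain ⟨C, k, hC, hh⟩ := hh
  refine ⟨2 * π * C * (2 * π), k, by positivity, fun N T P X E V W a h α hα => ?_⟩
  have hE := h.E1
  have hK : 0 ≤ 2 * π * (C * E ^ k * (T * N / V ^ 2)) := by positivity
  have h1 : HN P α W ≤ ∫ ξ in (Real.log P - 1)..(Real.log P + 2),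
      2 * π * (C * E ^ k * (T * N / V ^ 2)) * F2 P α ξ := by
    refine intervalIntegral.integral_mono_on (by linarith only [])
      ((ii_cont (f := fun ξ η => ‖Phi P α W ξ η‖ ^ 2)
        ((cont_Phi P hα.cont W).norm.fun_pow 2) _ _).intervalIntegrable _ _)
      ((continuous_const.mul (cont_F2 P hα.cont)).intervalIntegrable _ _) fun ξ _ => ?_
    have e : ∀ η, Phi P α W ξ η = ∑ t ∈ W, (∑ m ∈ Ico P (2 * P),
        conj (α (ξ - Real.log m)) * ei (t * Real.log m)) * ei (t * η) := fun η => by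
      simp only [Phi, rho, mul_sum, sum_mul]
      rw [sum_comm]
      refine sum_congr rfl fun t _ => sum_congr rfl fun m _ => ?_
      rw [mul_add, ei_add]
      ring
    simp only [e]
    refine (fin_pars W _ (by linarith only []) (by linarith only [pi_gt_three])).trans ?_
    have h2 := hh N T P X E V W a h P h.P1 (by
      have : 0 ≤ E * T := by positivity
      linarith only [h.PN, this]) fun m => conj (α (ξ - Real.log m))
    simp only [Complex.norm_conj] at h2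
    rw [mul_assoc (2 * π)]
    exact mul_le_mul_of_nonneg_left h2 (by positivity)
  rw [intervalIntegral.integral_const_mul] at h1
  refine h1.trans ((mul_le_mul_of_nonneg_left (int_F2 hα h.P1) hK).trans (le_of_eq ?_))
  ring

end

section

/-! ### block IIA -/

theorem iia_shift (L : ℝ) (F : ℝ → ℝ) :
    ∫ ξ in (L - 1)..(L + 2), F ξ = ∫ x in (-1 : ℝ)..2, F (L + x) := by
  rw [intervalIntegral.integral_comp_add_left, sub_eq_add_neg]

theorem ii_a : ∃ C : ℝ, 0 < C ∧ ∀ (N T P X : ℕ) (E V : ℝ) (W : Finset ℤ) (a : ℕ → ℂ),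
    World N T P X E 1 V W a → ∀ f g : ℝ → ℝ, Continuous f → Continuous g → (∀ x, 0 ≤ f x) →
      (∀ x, 0 ≤ g x) → II N P (fun ξ z => f z * g ξ) ≤
        C * (P * (∫ z in (-1 : ℝ)..1, f z) * (∫ ξ in (Real.log P - 1)..(Real.log P + 2), g ξ) +
          E * √(P * ∫ z in (-1 : ℝ)..1, f z ^ 2) *
            √(∫ ξ in (Real.log P - 1)..(Real.log P + 2), g ξ ^ 2)) := by
  obtain ⟨C, hC, hb⟩ := bil
  refine ⟨C, hC, fun N T P X E V W a h f g hf hg f0 g0 => ?_⟩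
  have hE := h.E1
  have N1 : (1 : ℝ) ≤ N := by exact_mod_cast h.N1
  have P1 := h.P1
  have P0 : (0 : ℝ) < P := by exact_mod_cast P1
  have i1 : Function.Injective fun m : ℕ => (m : ℤ) := fun x y e => by simpa using e
  have key := hb (1 / (8 * N)) E (2 * P) {-(P : ℤ)}
    ((Ico P (2 * P)).image fun m : ℕ => (m : ℤ)) (Jst P) (by positivity)
    (by rw [div_le_one (by positivity)]; linarith only [N1]) (by linarith only [hE])
    (fun x hx => by
      obtain rfl := mem_singleton.1 hx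
      exact ⟨by omega, abs_le.2 ⟨by omega, by omega⟩⟩)
    (fun x hx => by
      obtain ⟨m, hm, rfl⟩ := mem_image.1 hx
      rw [mem_Ico] at hm
      exact ⟨by omega, abs_le.2 ⟨by omega, by omega⟩⟩)
    (fun n hn hl => by
      refine h.tau n hn ?_
      have h1 : (T : ℝ) ≤ (N : ℝ) ^ 2 := by exact_mod_cast low_TN h.T2 h.N1
      have h2 : ((2 * P : ℕ) : ℝ) / (1 / (8 * N)) = 16 * (P * N) := by push_cast; field_simp; ring
      have h3 : E * T ≤ N / 1000 * (N : ℝ) ^ 2 :=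
        mul_le_mul (by linarith only [h.EN]) h1 (Nat.cast_nonneg T) (by positivity)
      have h4 : (N : ℝ) ^ 3 ≤ (N : ℝ) ^ 4 := pow_le_pow_right₀ N1 (by norm_num)
      have h5 : (n : ℝ) ≤ (N : ℝ) ^ 4 := by
        have : (0 : ℝ) ≤ (N : ℝ) ^ 3 := by positivity
        linarith only [h.PN, hl, h2, h3, h4]
      exact_mod_cast h5)
    (-1) 2 (-1) 1 (by norm_num) (by norm_num) (by norm_num) (by norm_num) (by norm_num)
    (by norm_num) (fun x => g (Real.log P + x)) f (by fun_prop) hf (fun x => g0 _) f0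
  rw [card_image_of_injective _ i1, card_singleton, Nat.card_Ico,
    show 2 * P - P = P by omega, sum_singleton, sum_image fun x _ y _ e => i1 e] at key
  have e : II N P (fun ξ z => f z * g ξ) = ∑ m ∈ Ico P (2 * P), ∑ j ∈ Jst P,
      ∫ x in (-1 : ℝ)..2, ∫ x' in (-1 : ℝ)..1, g (Real.log P + x) * f x' *
        tri (1 / (8 * N)) (((-(P : ℤ) : ℤ) : ℝ) * exp x + ((m : ℤ) : ℝ) * exp x' - j) := by
    unfold II
    refine sum_congr rfl fun m _ => sum_congr rfl fun j _ => ?_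
    rw [iia_shift]
    refine congrArg (intervalIntegral · _ _ _) (funext fun x => ?_)
    refine congrArg (intervalIntegral · _ _ _) (funext fun z => ?_)
    beta_reduce
    rw [Real.exp_add, Real.exp_log P0, mul_comm (f z)]
    congr 2
    push_cast
    ring
  rw [e, iia_shift, iia_shift]
  refine key.trans_eq ?_
  simp only [Nat.cast_one, one_mul]
  ring

end

section

/-! ### block IIB -/

lemma iib_one {δ : ℝ} (hδ : 0 < δ) {f g : ℝ → ℝ} (hf : Continuous f) (hg : Continuous g)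
    (f0 : ∀ x, 0 ≤ f x) (g0 : ∀ x, 0 ≤ g x) (L m j : ℝ) :
    ∫ ξ in (L - 1)..(L + 2), ∫ z in (-1 : ℝ)..1,
        f z * g (z - ξ) * tri δ (m * exp z - exp ξ - j) ≤
      12 * ∫ z in (-1 : ℝ)..1, ∫ η in (-L - 3)..(-L + 2),
        f z * g η * tri (6 * δ) (j * exp (-z) + exp (-η) - m) := by
  have hδ6 : 0 < 6 * δ := by linarith
  rw [ii_swap (f := fun ξ z => f z * g (z - ξ) * tri δ (m * exp z - exp ξ - j)) (by fun_prop)
    (by linarith) (by norm_num), ← intervalIntegral.integral_const_mul]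
  refine intervalIntegral.integral_mono_on (by norm_num)
    ((ii_cont (f := fun z ξ => f z * g (z - ξ) * tri δ (m * exp z - exp ξ - j))
      (by fun_prop) _ _).intervalIntegrable _ _)
    ((continuous_const.mul (ii_cont
      (f := fun z η => f z * g η * tri (6 * δ) (j * exp (-z) + exp (-η) - m))
      (by fun_prop) _ _)).intervalIntegrable _ _) fun z hz => ?_
  have e2 := intervalIntegral.integral_comp_sub_left (a := L - 1) (b := L + 2)
    (fun η => 12 * (f z * g η * tri (6 * δ) (j * exp (-z) + exp (-η) - m))) z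
  rw [← intervalIntegral.integral_const_mul]
  refine le_trans ?_ (intervalIntegral.integral_mono_interval (a := z - (L + 2)) (b := z - (L - 1))
    (by linarith [hz.1]) (by linarith) (by linarith [hz.2])
    (Filter.Eventually.of_forall fun x => ?_) (Continuous.intervalIntegrable (by fun_prop) _ _))
  · rw [← e2]
    refine intervalIntegral.integral_mono_on (by linarith)
      (Continuous.intervalIntegrable (by fun_prop) _ _)
      (Continuous.intervalIntegrable (by fun_prop) _ _) fun ξ _ => ?_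
    have h1 := th_tri hδ hz.1 (-(j * exp (-z) + exp (-(z - ξ)) - m))
    have h2 : exp z * (-(j * exp (-z) + exp (-(z - ξ)) - m)) = m * exp z - exp ξ - j := by
      have a1 : exp z * exp (-z) = 1 := by rw [← exp_add]; simp
      have a2 : exp z * exp (-(z - ξ)) = exp ξ := by rw [← exp_add]; congr 1; ring
      linear_combination (-j) * a1 - a2
    rw [h2, tri_neg] at h1
    calc f z * g (z - ξ) * tri δ (m * exp z - exp ξ - j)
        ≤ f z * g (z - ξ) * (12 * tri (6 * δ) (j * exp (-z) + exp (-(z - ξ)) - m)) :=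
          mul_le_mul_of_nonneg_left h1 (mul_nonneg (f0 _) (g0 _))
      _ = _ := by ring
  · exact mul_nonneg (by norm_num) (mul_nonneg (mul_nonneg (f0 _) (g0 _)) (tri_nonneg hδ6 _))

lemma iib_refl (F : ℝ → ℝ) (c u v : ℝ) :
    ∫ x in (-c - v)..(-c - u), F (-c - x) = ∫ η in u..v, F η := by
  rw [intervalIntegral.integral_comp_sub_left F (-c)]
  congr 1 <;> ring

lemma iib_sub {δ : ℝ} (f g : ℝ → ℝ) {b : ℝ} (hb : 0 < b) (u v m j : ℝ) :
    ∫ z in (-1 : ℝ)..1, ∫ η in u..v, f z * g η * tri δ (j * exp (-z) + exp (-η) - m) =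
      ∫ x in (-1 : ℝ)..1, ∫ x' in (-Real.log b - v)..(-Real.log b - u),
        f (-x) * g (-Real.log b - x') * tri δ (j * exp x + b * exp x' - m) := by
  have e1 := intervalIntegral.integral_comp_neg (a := (-1 : ℝ)) (b := 1)
    (fun x => ∫ x' in (-Real.log b - v)..(-Real.log b - u),
      f (-x) * g (-Real.log b - x') * tri δ (j * exp x + b * exp x' - m))
  simp only [neg_neg] at e1
  rw [← e1]
  refine intervalIntegral.integral_congr fun z _ => ?_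
  rw [← iib_refl (fun η => f z * g η * tri δ (j * exp (-z) + exp (-η) - m)) (Real.log b) u v]
  refine intervalIntegral.integral_congr fun x _ => ?_
  have : exp (-(-Real.log b - x)) = b * exp x := by
    rw [show -(-Real.log b - x) = Real.log b + x by ring, exp_add, exp_log hb]
  simp only [this]

lemma iib_piece : ∃ C : ℝ, 0 < C ∧ ∀ (N T P X : ℕ) (E V : ℝ) (W : Finset ℤ) (a : ℕ → ℂ),
    World N T P X E 1 V W a → ∀ f g : ℝ → ℝ, Continuous f → Continuous g → (∀ x, 0 ≤ f x) →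
      (∀ x, 0 ≤ g x) → ∀ b : ℕ, 1 ≤ b → b ≤ 6 * P + 1 → ∀ u v : ℝ, u ≤ v →
        -2 ≤ -Real.log b - v → -Real.log b - u ≤ 2 →
        ∑ m ∈ Ico P (2 * P), ∑ j ∈ Jst P, ∫ z in (-1 : ℝ)..1, ∫ η in u..v,
          f z * g η * tri (6 * (1 / (8 * N))) (j * exp (-z) + exp (-η) - m) ≤
        C * (P * (∫ z in (-1 : ℝ)..1, f z) * (∫ η in u..v, g η) +
          E * √(P * ∫ z in (-1 : ℝ)..1, f z ^ 2) * √(∫ η in u..v, g η ^ 2)) := by
  obtain ⟨C, C0, hC⟩ := bil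
  refine ⟨16 * C, by positivity, fun N T P X E V W a h f g hf hg f0 g0 b b1 b6 u v huv h1 h2 => ?_⟩
  have hN := h.N1
  have N0 : (0 : ℝ) < N := by exact_mod_cast hN
  have N1000 : (1000 : ℝ) ≤ N := by exact_mod_cast h.N1000
  have P1 : (1 : ℝ) ≤ P := by exact_mod_cast h.P1
  have PN : 12 * (P : ℝ) ≤ N := by exact_mod_cast h.PX.trans h.XN
  have E1 := h.E1
  have b0 : (0 : ℝ) < b := by exact_mod_cast b1
  have cA : (#(Jst P) : ℝ) ≤ 16 * P := by
    have h1 : #(Jst P) ≤ #(Jall P) := card_erase_le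
    have h2 : #(Jall P) = 12 * P + 3 := by
      unfold Jall
      rw [Int.card_Icc]
      omega
    have h3 : #(Jst P) ≤ 16 * P := by have := h.P1; omega
    exact_mod_cast h3
  have s4 := hC (6 * (1 / (8 * N))) E (6 * P + 1) (Jst P) {(b : ℤ)}
    ((Ico P (2 * P)).map Nat.castEmbedding) (by positivity)
    (by rw [mul_one_div, div_le_one (by positivity)]; linarith only [N1000]) (by linarith only [E1])
    (fun j hj => by
      simp only [Jst, Jall, mem_erase, mem_Icc] at hj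
      exact ⟨hj.1, abs_le.2 (by push_cast; exact hj.2)⟩)
    (fun c hc => by
      rw [mem_singleton] at hc
      subst hc
      exact ⟨by omega, abs_le.2 ⟨by omega, by omega⟩⟩)
    (fun n hn hle => h.tau n hn (by
      have h1 : (((6 * P + 1 : ℕ) : ℝ)) / (6 * (1 / (8 * N))) ≤ (N : ℝ) ^ 4 := by
        rw [div_le_iff₀ (by positivity)]
        have h2 : (N : ℝ) ^ 4 * (6 * (1 / (8 * N))) = 3 / 4 * N ^ 3 := by field_simp; ring
        rw [h2]
        push_cast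
        nlinarith only [mul_le_mul N1000 N1000 (by norm_num) N0.le, PN]
      exact_mod_cast hle.trans h1))
    (-1) 1 (-Real.log b - v) (-Real.log b - u) (by norm_num) (by norm_num) (by norm_num) h1
    (by linarith only [huv]) h2 (fun x => f (-x)) (fun x => g (-Real.log b - x)) (by fun_prop) (by fun_prop)
    (fun x => f0 _) (fun x => g0 _)
  have i1 := intervalIntegral.integral_comp_neg (a := (-1 : ℝ)) (b := 1) f
  have i2 := intervalIntegral.integral_comp_neg (a := (-1 : ℝ)) (b := 1) (fun z => f z ^ 2)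
  simp only [neg_neg] at i1 i2
  rw [i1, i2, iib_refl g, iib_refl (fun η => g η ^ 2)] at s4
  simp only [sum_singleton, sum_map, Nat.castEmbedding_apply, Int.cast_natCast, card_singleton,
    Nat.cast_one, mul_one, one_mul] at s4
  rw [sum_comm]
  simp only [iib_sub f g b0]
  refine s4.trans ?_
  set I1 := ∫ z in (-1 : ℝ)..1, f z
  set I2 := ∫ z in (-1 : ℝ)..1, f z ^ 2
  set J1 := ∫ η in u..v, g η
  set J2 := ∫ η in u..v, g η ^ 2
  have I10 : 0 ≤ I1 := intervalIntegral.integral_nonneg (by norm_num) fun x _ => f0 x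
  have I20 : 0 ≤ I2 := intervalIntegral.integral_nonneg (by norm_num) fun x _ => by positivity
  have J10 : 0 ≤ J1 := intervalIntegral.integral_nonneg huv fun x _ => g0 x
  have r1 : √(#(Jst P) * I2) ≤ 16 * √(P * I2) := by
    have : (16 : ℝ) = √256 := by
      rw [show (256 : ℝ) = 16 ^ 2 by norm_num, sqrt_sq (by norm_num)]
    rw [this, ← sqrt_mul (by norm_num)]
    exact sqrt_le_sqrt (by nlinarith only [cA, I20])
  calc C * (#(Jst P) * I1 * J1 + E * √(#(Jst P) * I2) * √J2)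
      ≤ C * (16 * P * I1 * J1 + E * (16 * √(P * I2)) * √J2) := by gcongr
    _ = _ := by ring

theorem ii_b : ∃ C : ℝ, 0 < C ∧ ∀ (N T P X : ℕ) (E V : ℝ) (W : Finset ℤ) (a : ℕ → ℂ),
    World N T P X E 1 V W a → ∀ f g : ℝ → ℝ, Continuous f → Continuous g → (∀ x, 0 ≤ f x) →
      (∀ x, 0 ≤ g x) → II N P (fun ξ z => f z * g (z - ξ)) ≤
        C * (P * (∫ z in (-1 : ℝ)..1, f z) * (∫ η in (-Real.log P - 3)..(-Real.log P + 2), g η) +
          E * √(P * ∫ z in (-1 : ℝ)..1, f z ^ 2) *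
            √(∫ η in (-Real.log P - 3)..(-Real.log P + 2), g η ^ 2)) := by
  obtain ⟨C, C0, hC⟩ := iib_piece
  refine ⟨24 * C, by positivity, fun N T P X E V W a h f g hf hg f0 g0 => ?_⟩
  have N0 : (0 : ℝ) < N := by exact_mod_cast h.N1
  have P1 := h.P1
  have P0 : (0 : ℝ) < P := by exact_mod_cast P1
  have E1 := h.E1
  have hδ : (0 : ℝ) < 1 / (8 * N) := by positivity
  have l3 : Real.log ((3 * P : ℕ) : ℝ) = Real.log 3 + Real.log P := by
    push_cast; exact Real.log_mul (by norm_num) P0.ne'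
  have l1 : 1 ≤ Real.log 3 := by
    rw [Real.le_log_iff_exp_le (by norm_num)]; linarith only [exp_one_lt_d9]
  have l2 : Real.log 3 ≤ 2 := by linarith only [Real.log_le_sub_one_of_pos (show (0 : ℝ) < 3 by norm_num)]
  have p1 := hC N T P X E V W a h f g hf hg f0 g0 (3 * P) (by omega) (by omega)
    (-Real.log P - 3) (-Real.log P - 2) (by linarith only []) (by rw [l3]; linarith only [l2]) (by rw [l3]; linarith only [l1])
  have p2 := hC N T P X E V W a h f g hf hg f0 g0 P P1 (by omega)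
    (-Real.log P - 2) (-Real.log P + 2) (by linarith only []) (by linarith only []) (by linarith only [])
  have s1 : II N P (fun ξ z => f z * g (z - ξ)) ≤
      12 * (∑ m ∈ Ico P (2 * P), ∑ j ∈ Jst P, ∫ z in (-1 : ℝ)..1,
        ∫ η in (-Real.log P - 3)..(-Real.log P - 2),
          f z * g η * tri (6 * (1 / (8 * N))) (j * exp (-z) + exp (-η) - m)) +
      12 * (∑ m ∈ Ico P (2 * P), ∑ j ∈ Jst P, ∫ z in (-1 : ℝ)..1,
        ∫ η in (-Real.log P - 2)..(-Real.log P + 2),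
          f z * g η * tri (6 * (1 / (8 * N))) (j * exp (-z) + exp (-η) - m)) := by
    unfold II
    simp only [mul_sum, ← sum_add_distrib]
    refine sum_le_sum fun m _ => sum_le_sum fun j _ => ?_
    refine (iib_one hδ hf hg f0 g0 _ _ _).trans (le_of_eq ?_)
    rw [← mul_add, ← intervalIntegral.integral_add
      ((ii_cont (f := fun z η => f z * g η * tri (6 * (1 / (8 * N))) (j * exp (-z) + exp (-η) - m))
        (by fun_prop) _ _).intervalIntegrable _ _)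
      ((ii_cont (f := fun z η => f z * g η * tri (6 * (1 / (8 * N))) (j * exp (-z) + exp (-η) - m))
        (by fun_prop) _ _).intervalIntegrable _ _)]
    congr 1
    exact intervalIntegral.integral_congr fun z _ =>
      (intervalIntegral.integral_add_adjacent_intervals
        (Continuous.intervalIntegrable (by fun_prop) _ _)
        (Continuous.intervalIntegrable (by fun_prop) _ _)).symm
  have mono : ∀ G : ℝ → ℝ, Continuous G → (∀ x, 0 ≤ G x) → ∀ u v : ℝ, -Real.log P - 3 ≤ u → u ≤ v →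
      v ≤ -Real.log P + 2 →
      ∫ η in u..v, G η ≤ ∫ η in (-Real.log P - 3)..(-Real.log P + 2), G η :=
    fun G hG G0 u v h1 h2 h3 => intervalIntegral.integral_mono_interval h1 h2 h3
      (Filter.Eventually.of_forall G0) (hG.intervalIntegrable _ _)
  have I10 : 0 ≤ ∫ z in (-1 : ℝ)..1, f z :=
    intervalIntegral.integral_nonneg (by norm_num) fun x _ => f0 x
  have key : ∀ u v : ℝ, -Real.log P - 3 ≤ u → u ≤ v → v ≤ -Real.log P + 2 →
      C * (P * (∫ z in (-1 : ℝ)..1, f z) * (∫ η in u..v, g η) +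
          E * √(P * ∫ z in (-1 : ℝ)..1, f z ^ 2) * √(∫ η in u..v, g η ^ 2)) ≤
      C * (P * (∫ z in (-1 : ℝ)..1, f z) * (∫ η in (-Real.log P - 3)..(-Real.log P + 2), g η) +
          E * √(P * ∫ z in (-1 : ℝ)..1, f z ^ 2) *
            √(∫ η in (-Real.log P - 3)..(-Real.log P + 2), g η ^ 2)) := fun u v h1 h2 h3 => by
    have a1 := mono g hg g0 u v h1 h2 h3
    have a2 := mono (fun η => g η ^ 2) (by fun_prop) (fun x => by positivity) u v h1 h2 h3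
    gcongr
  have k1 := key (-Real.log P - 3) (-Real.log P - 2) le_rfl (by linarith only []) (by linarith only [])
  have k2 := key (-Real.log P - 2) (-Real.log P + 2) (by linarith only []) (by linarith only []) le_rfl
  linarith

end

section

/-! ### block I1 -/

lemma i1_mono {N : ℕ} (hN : 1 ≤ N) (P : ℕ) {H H1 H2 : ℝ → ℝ → ℝ} (h : Continuous H.uncurry)
    (h1 : Continuous H1.uncurry) (h2 : Continuous H2.uncurry)
    (hle : ∀ ξ z, H ξ z ≤ H1 ξ z + H2 ξ z) : II N P H ≤ II N P H1 + II N P H2 := by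
  have N0 : (0 : ℝ) < N := by exact_mod_cast hN
  unfold II
  rw [← sum_add_distrib]
  refine sum_le_sum fun m _ => ?_
  rw [← sum_add_distrib]
  refine sum_le_sum fun j _ => ?_
  have ct : Continuous fun x : ℝ × ℝ => tri (1 / (8 * N)) (m * exp x.2 - exp x.1 - j) := by
    fun_prop
  have c0 : Continuous (Function.uncurry fun ξ z =>
    H ξ z * tri (1 / (8 * N)) (m * exp z - exp ξ - j)) := h.mul ct
  have c1 : Continuous (Function.uncurry fun ξ z =>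
    H1 ξ z * tri (1 / (8 * N)) (m * exp z - exp ξ - j)) := h1.mul ct
  have c2 : Continuous (Function.uncurry fun ξ z =>
    H2 ξ z * tri (1 / (8 * N)) (m * exp z - exp ξ - j)) := h2.mul ct
  rw [← intervalIntegral.integral_add ((ii_cont c1 _ _).intervalIntegrable _ _)
    ((ii_cont c2 _ _).intervalIntegrable _ _)]
  refine intervalIntegral.integral_mono_on (by linarith only []) ((ii_cont c0 _ _).intervalIntegrable _ _)
    (((ii_cont c1 _ _).add (ii_cont c2 _ _)).intervalIntegrable _ _) fun ξ _ => ?_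
  rw [← intervalIntegral.integral_add ((c1.uncurry_left ξ).intervalIntegrable _ _)
    ((c2.uncurry_left ξ).intervalIntegrable _ _)]
  refine intervalIntegral.integral_mono_on (by norm_num)
    ((c0.uncurry_left ξ).intervalIntegrable _ _)
    (((c1.uncurry_left ξ).add (c2.uncurry_left ξ)).intervalIntegrable _ _) fun z _ => ?_
  rw [← add_mul]
  exact mul_le_mul_of_nonneg_right (hle ξ z) (tri_nonneg (by positivity) _)

lemma i1_int {F g : ℝ → ℝ} (hF : Continuous F) (hg : Continuous g) (F0 : ∀ x, 0 ≤ F x) {A c d B : ℝ}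
    (hA : 0 < A) (hcd : c ≤ d) (hd : d ≤ c + 5) (hI : ∫ x in c..d, F x ≤ 2 * π * A) (hB : 0 ≤ B)
    (h : ∀ x, g x ≤ B * om A (F x) ^ 2) : ∫ x in c..d, g x ≤ 12 * B := by
  have h1 : ∫ x in c..d, g x ≤ ∫ x in c..d, (B + B / A * F x) :=
    intervalIntegral.integral_mono_on hcd (hg.intervalIntegrable _ _)
      (Continuous.intervalIntegrable (by fun_prop) _ _) fun x _ => (h x).trans (le_of_eq (by
        rw [om_sq hA.le (F0 x)]; ring))
  rw [intervalIntegral.integral_add (by simp) (Continuous.intervalIntegrable (by fun_prop) _ _),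
    intervalIntegral.integral_const_mul, intervalIntegral.integral_const, smul_eq_mul] at h1
  have h2 : B / A * ∫ x in c..d, F x ≤ B / A * (2 * π * A) :=
    mul_le_mul_of_nonneg_left hI (by positivity)
  have h3 : B / A * (2 * π * A) = 2 * π * B := by field_simp
  have h4 : π * B ≤ 3.15 * B := mul_le_mul_of_nonneg_right Real.pi_lt_d2.le hB
  have h5 : (d - c) * B ≤ 5 * B := mul_le_mul_of_nonneg_right (by linarith only [hd]) hB
  linarith

lemma i1_num {P R E a b a2 b2 : ℝ} (hP : 0 ≤ P) (hR : 0 ≤ R) (hE : 1 ≤ E) (b0 : 0 ≤ b)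
    (ha : a ≤ 7 * R) (hb : b ≤ 12 * 1) (ha2 : a2 ≤ √P * R * (7 * R)) (hb2 : b2 ≤ 12 * (2 * √P)) :
    P * a * b + E * √(P * a2) * √b2 ≤ 97 * E * (P * R) := by
  have s0 := Real.sqrt_nonneg P
  have s2 : √P * √P = P := Real.mul_self_sqrt hP
  have h1 : P * a * b ≤ P * (7 * R) * 12 :=
    mul_le_mul (mul_le_mul_of_nonneg_left ha hP) (by linarith) b0 (by positivity)
  have h2 : √(P * a2) * √b2 ≤ 13 * (P * R) := by
    refine (mul_le_mul (Real.sqrt_le_sqrt (mul_le_mul_of_nonneg_left ha2 hP))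
      (Real.sqrt_le_sqrt hb2) (Real.sqrt_nonneg _) (Real.sqrt_nonneg _)).trans ?_
    rw [← Real.sqrt_mul (by positivity)]
    refine Real.sqrt_le_iff.2 ⟨by positivity, ?_⟩
    have : P * (√P * R * (7 * R)) * (12 * (2 * √P)) = 168 * (P * R ^ 2) * (√P * √P) := by ring
    rw [this, s2]
    linarith only [sq_nonneg (P * R)]
  have h3 : E * (√(P * a2) * √b2) ≤ E * (13 * (P * R)) :=
    mul_le_mul_of_nonneg_left h2 (by linarith)
  have h4 : 1 * (P * R) ≤ E * (P * R) := mul_le_mul_of_nonneg_right hE (by positivity)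
  linarith only [h1, h3, h4]

theorem i1_le : ∃ (C : ℝ) (k : ℕ), 0 < C ∧ ∀ (N T P X : ℕ) (E V : ℝ) (W : Finset ℤ) (a : ℕ → ℂ),
    World N T P X E 1 V W a → ∀ α : ℝ → ℂ, Adm W α → (∀ z, ‖α z‖ ^ 2 ≤ √(P : ℝ) * #W) →
      II N P (fun ξ z =>
        ‖α z‖ ^ 2 * (om (P * #W) (F2 P α ξ) * om (P * #W) (F3 P W (z - ξ)))) ≤
        C * E ^ k * (P * #W) := by
  obtain ⟨Ca, Ca0, ha⟩ := ii_a
  obtain ⟨Cb, Cb0, hb⟩ := ii_b
  refine ⟨97 * (Ca + Cb), 1, by positivity, fun N T P X E V W a hw α hα hU => ?_⟩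
  have P1 : (1 : ℝ) ≤ P := by exact_mod_cast hw.P1
  have R1 : (1 : ℝ) ≤ #W := by exact_mod_cast hw.W1
  have A0 : (0 : ℝ) < P * #W := by positivity
  have s1 : 1 ≤ √(P : ℝ) := Real.one_le_sqrt.2 P1
  have cα := hα.cont
  have c2 := cont_F2 P cα
  have c3 := cont_F3 P W
  have w2c : Continuous fun ξ => om (P * #W) (F2 P α ξ) := (cont_om _).comp c2
  have w3c : Continuous fun η => om (P * #W) (F3 P W η) := (cont_om _).comp c3
  have w21 : ∀ ξ, 1 ≤ om (P * #W) (F2 P α ξ) := fun ξ => one_le_om A0.le (F2_nonneg _ _ _)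
  have w31 : ∀ η, 1 ≤ om (P * #W) (F3 P W η) := fun η => one_le_om A0.le (F3_nonneg _ _ _)
  have w2b : ∀ ξ, om (P * #W) (F2 P α ξ) ^ 2 ≤ 2 * √(P : ℝ) := fun ξ => by
    have h1 : F2 P α ξ ≤ P * (√(P : ℝ) * #W) := by
      refine (sum_le_sum fun m _ => hU _).trans ?_
      rw [sum_const, Nat.card_Ico, nsmul_eq_mul, show 2 * P - P = P by omega]
    have h2 : F2 P α ξ / (P * #W) ≤ √(P : ℝ) := by
      rw [div_le_iff₀ A0]; linarith
    rw [om_sq A0.le (F2_nonneg _ _ _)]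
    linarith
  have Ω2 : √(2 * √(P : ℝ)) ^ 2 = 2 * √(P : ℝ) := Real.sq_sqrt (by linarith)
  have Ω0 := Real.sqrt_nonneg (2 * √(P : ℝ))
  have w2Ω : ∀ ξ, om (P * #W) (F2 P α ξ) ≤ √(2 * √(P : ℝ)) := fun ξ => Real.le_sqrt_of_sq_le (w2b ξ)
  have fc : Continuous fun z => ‖α z‖ ^ 2 := by fun_prop
  have g1c : Continuous fun ξ => om (P * #W) (F2 P α ξ) ^ 2 := w2c.pow 2
  have g2c : Continuous fun η =>
      min (om (P * #W) (F3 P W η)) √(2 * √(P : ℝ)) * om (P * #W) (F3 P W η) :=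
    (w3c.min continuous_const).mul w3c
  have g20 : ∀ η, 0 ≤ min (om (P * #W) (F3 P W η)) √(2 * √(P : ℝ)) := fun η =>
    le_min (by linarith [w31 η]) Ω0
  have l2 := blg_l2 hα
  have l4 : ∫ z in (-1 : ℝ)..1, (‖α z‖ ^ 2) ^ 2 ≤ √(P : ℝ) * #W * (7 * #W) := by
    have h1 : ∫ z in (-1 : ℝ)..1, (‖α z‖ ^ 2) ^ 2 ≤
        ∫ z in (-1 : ℝ)..1, √(P : ℝ) * #W * ‖α z‖ ^ 2 :=
      intervalIntegral.integral_mono_on (by norm_num) ((fc.pow 2).intervalIntegrable _ _)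
        ((continuous_const.mul fc).intervalIntegrable _ _) fun z _ => by
          rw [sq (‖α z‖ ^ 2)]
          exact mul_le_mul_of_nonneg_right (hU z) (sq_nonneg _)
    rw [intervalIntegral.integral_const_mul] at h1
    exact h1.trans (mul_le_mul_of_nonneg_left l2 (by positivity))
  have I2 := int_F2 hα hw.P1
  have I3 := int_F3 P W (c := -Real.log P - 3) (d := -Real.log P + 2) (by linarith)
    (by linarith [Real.pi_gt_three])
  have e1 := ha N T P X E V W a hw _ _ fc g1c (fun _ => sq_nonneg _) fun _ => sq_nonneg _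
  have e2 := hb N T P X E V W a hw _ _ fc g2c (fun _ => sq_nonneg _) fun η =>
    mul_nonneg (g20 η) (by linarith only [w31 η])
  have n1 := i1_num (by linarith only [P1] : (0 : ℝ) ≤ P) (by linarith only [R1] : (0 : ℝ) ≤ #W) hw.E1
    (intervalIntegral.integral_nonneg (by linarith only []) fun _ _ => sq_nonneg _) l2
    (i1_int c2 g1c (F2_nonneg P α) A0 (by linarith only []) (by linarith only []) I2 zero_le_one
      fun x => (one_mul _).ge) l4
    (i1_int c2 (g1c.pow 2) (F2_nonneg P α) A0 (by linarith only []) (by linarith only []) I2 (by linarith only [s1])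
      fun x => by
        rw [Pi.pow_apply, sq (_ ^ 2)]
        exact mul_le_mul_of_nonneg_right (w2b x) (sq_nonneg _))
  have n2 := i1_num (by linarith only [P1] : (0 : ℝ) ≤ P) (by linarith only [R1] : (0 : ℝ) ≤ #W) hw.E1
    (intervalIntegral.integral_nonneg (by linarith only []) fun η _ =>
      mul_nonneg (g20 η) (by linarith only [w31 η])) l2
    (i1_int c3 g2c (F3_nonneg P W) A0 (by linarith only []) (by linarith only []) I3 zero_le_one
      fun x => by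
        rw [one_mul, sq]
        exact mul_le_mul_of_nonneg_right (min_le_left _ _) (by linarith only [w31 x])) l4
    (i1_int c3 (g2c.pow 2) (F3_nonneg P W) A0 (by linarith only []) (by linarith only []) I3 (by linarith only [s1])
      fun x => by
        rw [Pi.pow_apply, mul_pow]
        exact mul_le_mul_of_nonneg_right
          ((pow_le_pow_left₀ (g20 x) (min_le_right _ _) 2).trans Ω2.le) (sq_nonneg _))
  have k1 : Continuous fun x : ℝ × ℝ => ‖α x.2‖ ^ 2 := fc.comp continuous_snd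
  have k2 : Continuous fun x : ℝ × ℝ => om (P * #W) (F2 P α x.1) := w2c.comp continuous_fst
  have k3 : Continuous fun x : ℝ × ℝ => om (P * #W) (F3 P W (x.2 - x.1)) :=
    w3c.comp (continuous_snd.sub continuous_fst)
  have m := i1_mono hw.N1 P
    (H := fun ξ z => ‖α z‖ ^ 2 * (om (P * #W) (F2 P α ξ) * om (P * #W) (F3 P W (z - ξ))))
    (H1 := fun ξ z => ‖α z‖ ^ 2 * om (P * #W) (F2 P α ξ) ^ 2)
    (H2 := fun ξ z => ‖α z‖ ^ 2 * (min (om (P * #W) (F3 P W (z - ξ))) √(2 * √(P : ℝ)) *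
      om (P * #W) (F3 P W (z - ξ))))
    (by exact k1.mul (k2.mul k3)) (by exact k1.mul (k2.pow 2))
    (by exact k1.mul ((k3.min continuous_const).mul k3)) fun ξ z => by
      rw [← mul_add]
      refine mul_le_mul_of_nonneg_left ?_ (sq_nonneg _)
      have a1 := w21 ξ
      have a2 := w31 (z - ξ)
      have a3 := g20 (z - ξ)
      rcases le_total (om (P * #W) (F3 P W (z - ξ))) (om (P * #W) (F2 P α ξ)) with h | h
      · nlinarith only [a2, a3, h]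
      · have := le_min h (w2Ω ξ)
        nlinarith only [a2, this]
  have f1 := e1.trans (mul_le_mul_of_nonneg_left n1 Ca0.le)
  have f2 := e2.trans (mul_le_mul_of_nonneg_left n2 Cb0.le)
  refine (m.trans (add_le_add f1 f2)).trans (le_of_eq ?_)
  ring

end

section

/-! ### block GHS -/

theorem gg_sup (P : ℕ) (W : Finset ℤ) {α : ℝ → ℂ} (hα : Continuous α) (s' s : ℤ) :
    ‖GG P (Psi P α W) s' s‖ ≤ HN P α W := by
  have h1 : Continuous fun x : ℝ × ℝ => Psi P α W x.1 x.2 := cont_Psi P hα W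
  have h2 : Continuous fun x : ℝ × ℝ => Phi P α W x.1 x.2 := cont_Phi P hα W
  have h3 : Continuous fun x : ℝ × ℝ =>
      ((Psi P α W x.1 x.2 : ℝ) : ℂ) * ei (s' * x.1) * ei (s * x.2) := by fun_prop
  refine (ii_norm (f := fun ξ η => ((Psi P α W ξ η : ℝ) : ℂ) * ei (s' * ξ) * ei (s * η)) h3
    (by linarith) (by linarith)).trans (ii_mono
      (f := fun ξ η => ‖((Psi P α W ξ η : ℝ) : ℂ) * ei (s' * ξ) * ei (s * η)‖)
      (g := fun ξ η => ‖Phi P α W ξ η‖ ^ 2) h3.norm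
      (show Continuous fun x : ℝ × ℝ => ‖Phi P α W x.1 x.2‖ ^ 2 by fun_prop)
      (by linarith) (by linarith) fun ξ _ η _ => ?_)
  rw [norm_mul, norm_mul, norm_ei, norm_ei, mul_one, mul_one, Complex.norm_real,
    Real.norm_of_nonneg (Psi_nonneg _ _ _ _ _)]
  exact Psi_le _ _ _ _ _

lemma ghs_bes {c d : ℝ} (hcd : c ≤ d) (hd : d ≤ c + 6) {f : ℝ → ℂ} (hf : Continuous f)
    (W : Finset ℤ) :
    ∑ t ∈ W, ‖∫ u in c..d, f u * ei (t * u)‖ ^ 2 ≤ 2 * π * ∫ u in c..d, ‖f u‖ ^ 2 := by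
  have h := bessel (L := 2 * π) (by positivity) hcd (by linarith [pi_gt_three]) hf.continuousOn
    (W.image fun t => -t)
  rw [sum_image fun x _ y _ h => neg_injective h] at h
  refine le_trans (le_of_eq (sum_congr rfl fun t _ => ?_)) h
  congr 3
  funext u
  rw [e]
  congr 2
  push_cast
  field_simp

lemma ghs_cs (P : ℕ) (α : ℝ → ℂ) (W : Finset ℤ) (ξ η : ℝ) :
    ‖Phi P α W ξ η‖ ^ 2 ≤ F2 P α ξ * F3 P W η := by
  refine le_trans (pow_le_pow_left₀ (norm_nonneg _) (norm_sum_le _ _) 2) ?_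
  simp only [norm_mul, RCLike.norm_conj]
  exact sum_mul_sq_le_sq_mul_sq _ _ _

lemma ghs_sq {P : ℕ} (hP : 1 ≤ P) {W : Finset ℤ} (hW : 1 ≤ #W) (α : ℝ → ℂ) (ξ η : ℝ) :
    Psi P α W ξ η ^ 2 ≤ (P * #W : ℝ) ^ 2 * ‖Phi P α W ξ η‖ ^ 2 := by
  have hA : (0 : ℝ) < P * #W := by positivity
  have h1 := le_om_sq hA (F2_nonneg P α ξ)
  have h2 := le_om_sq hA (F3_nonneg P W η)
  have h3 := (ghs_cs P α W ξ η).trans (mul_le_mul h1 h2 (F3_nonneg P W η) (by positivity))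
  have h4 := lt_of_lt_of_le one_pos (Psi_den P α W ξ η)
  rw [Psi, div_pow, div_le_iff₀ (pow_pos h4 2)]
  calc (‖Phi P α W ξ η‖ ^ 2) ^ 2 = ‖Phi P α W ξ η‖ ^ 2 * ‖Phi P α W ξ η‖ ^ 2 := sq _
    _ ≤ _ := (mul_le_mul_of_nonneg_right h3 (sq_nonneg _)).trans_eq (by ring)

theorem gg_hs {P : ℕ} (hP : 1 ≤ P) {W : Finset ℤ} (hW : 1 ≤ #W) {α : ℝ → ℂ} (hα : Continuous α)
    (A B : Finset ℤ) :
    ∑ r ∈ A ×ˢ B, ‖GG P (Psi P α W) r.1 r.2‖ ^ 2 ≤ 40 * (P * #W) ^ 2 * HN P α W := by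
  have h1 : Continuous fun x : ℝ × ℝ => Psi P α W x.1 x.2 := cont_Psi P hα W
  have h2 : Continuous fun x : ℝ × ℝ => Phi P α W x.1 x.2 := cont_Phi P hα W
  have hab : Real.log P - 1 ≤ Real.log P + 2 := by linarith only []
  have hcd : -Real.log P - 3 ≤ -Real.log P + 2 := by linarith only []
  set g : ℤ → ℝ → ℂ := fun s ξ => ∫ η in (-Real.log P - 3)..(-Real.log P + 2),
    ((Psi P α W ξ η : ℝ) : ℂ) * ei (s * η) with hg
  have gc : ∀ s, Continuous (g s) := fun s =>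
    ii_cont (f := fun ξ η => ((Psi P α W ξ η : ℝ) : ℂ) * ei (s * η))
      (show Continuous fun x : ℝ × ℝ => ((Psi P α W x.1 x.2 : ℝ) : ℂ) * ei (s * x.2) by fun_prop) _ _
  have e1 : ∀ s' s : ℤ, GG P (Psi P α W) s' s =
      ∫ ξ in (Real.log P - 1)..(Real.log P + 2), g s ξ * ei (s' * ξ) := fun s' s => by
    refine intervalIntegral.integral_congr fun ξ _ => ?_
    simp only [hg]
    rw [← intervalIntegral.integral_mul_const]
    exact intervalIntegral.integral_congr fun η _ => mul_right_comm _ _ _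
  have c3 : Continuous fun ξ => ∫ η in (-Real.log P - 3)..(-Real.log P + 2), ‖Phi P α W ξ η‖ ^ 2 :=
    ii_cont (f := fun ξ η => ‖Phi P α W ξ η‖ ^ 2)
      (show Continuous fun x : ℝ × ℝ => ‖Phi P α W x.1 x.2‖ ^ 2 by fun_prop) _ _
  have c4 : ∀ s, Continuous fun ξ => ‖g s ξ‖ ^ 2 := fun s => (gc s).norm.pow 2
  have e2 : ∀ ξ, ∑ s ∈ B, ‖g s ξ‖ ^ 2 ≤ 2 * π * (P * #W) ^ 2 *
      ∫ η in (-Real.log P - 3)..(-Real.log P + 2), ‖Phi P α W ξ η‖ ^ 2 := fun ξ => by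
    have c1 : Continuous fun η => Psi P α W ξ η := (cont_Psi P hα W).uncurry_left ξ
    have c2 : Continuous fun η => Phi P α W ξ η := (cont_Phi P hα W).uncurry_left ξ
    refine (ghs_bes hcd (by linarith only []) (f := fun η => ((Psi P α W ξ η : ℝ) : ℂ)) (by fun_prop)
      B).trans ?_
    rw [mul_assoc (2 * π)]
    refine mul_le_mul_of_nonneg_left ?_ (by positivity)
    rw [← intervalIntegral.integral_const_mul]
    refine intervalIntegral.integral_mono_on hcd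
      (Continuous.intervalIntegrable (by fun_prop) _ _)
      (Continuous.intervalIntegrable (by fun_prop) _ _) fun η _ => ?_
    rw [Complex.norm_real, Real.norm_of_nonneg (Psi_nonneg _ _ _ _ _)]
    exact ghs_sq hP hW α ξ η
  have e3 : ∑ r ∈ A ×ˢ B, ‖GG P (Psi P α W) r.1 r.2‖ ^ 2 ≤
      2 * π * ∫ ξ in (Real.log P - 1)..(Real.log P + 2), ∑ s ∈ B, ‖g s ξ‖ ^ 2 := by
    rw [sum_product_right, intervalIntegral.integral_finsetSum fun s _ =>
      (c4 s).intervalIntegrable _ _, mul_sum]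
    refine sum_le_sum fun s _ => ?_
    simp only [e1]
    exact ghs_bes hab (by linarith only []) (gc s) A
  have e4 : ∫ ξ in (Real.log P - 1)..(Real.log P + 2), ∑ s ∈ B, ‖g s ξ‖ ^ 2 ≤
      2 * π * (P * #W) ^ 2 * HN P α W := by
    rw [HN, ← intervalIntegral.integral_const_mul]
    exact intervalIntegral.integral_mono_on hab
      ((continuous_finsetSum _ fun s _ => c4 s).intervalIntegrable _ _)
      ((continuous_const.mul c3).intervalIntegrable _ _) fun ξ _ => e2 ξ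
  have h5 : (0 : ℝ) ≤ (P * #W) ^ 2 * HN P α W := mul_nonneg (sq_nonneg _) (HN_nonneg P α W)
  have h6 : 2 * π * (2 * π) ≤ 40 := by nlinarith only [pi_lt_d2, pi_pos]
  calc _ ≤ 2 * π * (2 * π * (P * #W) ^ 2 * HN P α W) :=
        e3.trans (mul_le_mul_of_nonneg_left e4 (by positivity))
    _ = 2 * π * (2 * π) * ((P * #W) ^ 2 * HN P α W) := by ring
    _ ≤ 40 * ((P * #W) ^ 2 * HN P α W) := mul_le_mul_of_nonneg_right h6 h5
    _ = _ := by ring

end

section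

/-! ### block GTE -/

lemma gte_bessel {c d : ℝ} (hcd : c ≤ d) (hd : d ≤ c + 2 * π) {f : ℝ → ℂ} (hf : Continuous f)
    (F : Finset ℤ) :
    ∑ s ∈ F, ‖∫ u in c..d, f u * ei (s * u)‖ ^ 2 ≤ 2 * π * ∫ u in c..d, ‖f u‖ ^ 2 := by
  have p0 := pi_pos
  have h := bessel (L := 2 * π) (by positivity) hcd hd hf.continuousOn (F.image fun s => -s)
  rw [sum_image fun _ _ _ _ h => neg_injective h] at h
  have e1 : ∀ (l : ℤ) (u : ℝ), e (-(((-l : ℤ) : ℝ) * u / (2 * π))) = ei (l * u) := fun l u => by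
    unfold e; congr 1; push_cast; field_simp
  simpa only [e1] using h

/-- one side of the tensor decomposition -/
noncomputable def gte_f (M : Finset ℕ) (A : ℝ) (a : ℕ → ℝ → ℂ) (i : ℕ × ℕ) (x : ℝ) : ℂ :=
  a i.1 x * conj (a i.2 x) / ((om A (∑ m ∈ M, ‖a m x‖ ^ 2) : ℝ) : ℂ)

lemma gte_cont (M : Finset ℕ) {A : ℝ} (hA : 0 < A) {a : ℕ → ℝ → ℂ} (ha : ∀ m, Continuous (a m))
    (i : ℕ × ℕ) : Continuous (gte_f M A a i) := by
  unfold gte_f
  refine Continuous.div (by fun_prop) (by fun_prop) fun x => ?_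
  exact Complex.ofReal_ne_zero.2
    (lt_of_lt_of_le one_pos (one_le_om hA.le (sum_nonneg fun _ _ => sq_nonneg _))).ne'

lemma gte_pt (M : Finset ℕ) {A : ℝ} (hA : 0 < A) (a : ℕ → ℝ → ℂ) (x : ℝ) :
    ∑ i ∈ M ×ˢ M, ‖gte_f M A a i x‖ ^ 2 ≤ A * ∑ m ∈ M, ‖a m x‖ ^ 2 := by
  have hF : 0 ≤ ∑ m ∈ M, ‖a m x‖ ^ 2 := sum_nonneg fun _ _ => sq_nonneg _
  have h1 := one_le_om hA.le hF
  have h2 := le_om_sq hA hF
  have e1 : ∑ i ∈ M ×ˢ M, ‖gte_f M A a i x‖ ^ 2 =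
      (∑ m ∈ M, ‖a m x‖ ^ 2) * (∑ m ∈ M, ‖a m x‖ ^ 2) / om A (∑ m ∈ M, ‖a m x‖ ^ 2) ^ 2 := by
    rw [sum_mul_sum, ← sum_product', sum_div]
    refine sum_congr rfl fun i _ => ?_
    unfold gte_f
    rw [norm_div, norm_mul, Complex.norm_conj, Complex.norm_real, div_pow, mul_pow,
      Real.norm_eq_abs, sq_abs]
  rw [e1, div_le_iff₀ (by positivity)]
  linarith only [mul_le_mul_of_nonneg_left h2 hF]

lemma gte_side (M : Finset ℕ) {A c d : ℝ} (hA : 0 < A) (hcd : c ≤ d) (hd : d ≤ c + 2 * π)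
    {a : ℕ → ℝ → ℂ} (ha : ∀ m, Continuous (a m))
    (hI : ∫ x in c..d, ∑ m ∈ M, ‖a m x‖ ^ 2 ≤ 2 * π * A) (F : Finset ℤ) :
    ∑ i ∈ M ×ˢ M, ∑ s ∈ F, ‖∫ x in c..d, gte_f M A a i x * ei (s * x)‖ ^ 2 ≤ 40 * A ^ 2 := by
  have p0 := pi_pos
  have hc := gte_cont M hA ha
  refine (sum_le_sum fun i _ => gte_bessel hcd hd (hc i) F).trans ?_
  rw [← mul_sum, ← intervalIntegral.integral_finsetSum (f := fun i x => ‖gte_f M A a i x‖ ^ 2)
    fun i _ => ((hc i).norm.pow 2).intervalIntegrable _ _]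
  have h1 : ∫ x in c..d, ∑ i ∈ M ×ˢ M, ‖gte_f M A a i x‖ ^ 2 ≤
      ∫ x in c..d, A * ∑ m ∈ M, ‖a m x‖ ^ 2 :=
    intervalIntegral.integral_mono_on hcd (Continuous.intervalIntegrable (by fun_prop) _ _)
      (Continuous.intervalIntegrable (by fun_prop) _ _) fun x _ => gte_pt M hA a x
  rw [intervalIntegral.integral_const_mul] at h1
  have h2 := h1.trans (mul_le_mul_of_nonneg_left hI hA.le)
  refine (mul_le_mul_of_nonneg_left h2 (by positivity)).trans ?_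
  have h3 : π * π ≤ 10 := by nlinarith only [pi_lt_d2, hcd, hd]
  linarith only [mul_le_mul_of_nonneg_right h3 (sq_nonneg A)]

lemma gte_psi (M : Finset ℕ) (A : ℝ) (a b : ℕ → ℝ → ℂ) (x y : ℝ) :
    ((‖∑ m ∈ M, a m x * b m y‖ ^ 2 /
      (om A (∑ m ∈ M, ‖a m x‖ ^ 2) * om A (∑ m ∈ M, ‖b m y‖ ^ 2)) : ℝ) : ℂ) =
      ∑ i ∈ M ×ˢ M, gte_f M A a i x * gte_f M A b i y := by
  rw [Complex.ofReal_div, Complex.ofReal_mul, ← Complex.normSq_eq_norm_sq, ← Complex.mul_conj,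
    map_sum, sum_mul_sum, ← sum_product', sum_div]
  refine sum_congr rfl fun i _ => ?_
  unfold gte_f
  rw [map_mul, div_mul_div_comm]
  congr 1
  ring

theorem gg_ten {P : ℕ} (hP : 1 ≤ P) {W : Finset ℤ} (hW : 1 ≤ #W) {α : ℝ → ℂ} (h : Adm W α)
    (A B : Finset ℤ) : ∃ u v : ℕ × ℕ → ℤ → ℂ,
      (∀ s' s, GG P (Psi P α W) s' s = ∑ i ∈ Ico P (2 * P) ×ˢ Ico P (2 * P), u i s' * v i s) ∧
      ∑ i ∈ Ico P (2 * P) ×ˢ Ico P (2 * P), ∑ s' ∈ A, ‖u i s'‖ ^ 2 ≤ 40 * (P * #W : ℝ) ^ 2 ∧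
      ∑ i ∈ Ico P (2 * P) ×ˢ Ico P (2 * P), ∑ s ∈ B, ‖v i s‖ ^ 2 ≤ 40 * (P * #W : ℝ) ^ 2 := by
  have p3 := pi_gt_three
  have hA : (0 : ℝ) < P * #W := by
    have h1 : (0 : ℝ) < P := by exact_mod_cast hP
    have h2 : (0 : ℝ) < #W := by exact_mod_cast hW
    positivity
  have hα := h.cont
  obtain ⟨a, ha⟩ : ∃ a : ℕ → ℝ → ℂ, a = fun (m : ℕ) ξ => conj (α (ξ - Real.log m)) := ⟨_, rfl⟩
  obtain ⟨b, hb⟩ : ∃ b : ℕ → ℝ → ℂ, b = fun (m : ℕ) η => rho W (η + Real.log m) := ⟨_, rfl⟩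
  have ca : ∀ m, Continuous (a m) := fun m => by rw [ha]; fun_prop
  have cb : ∀ m, Continuous (b m) := fun m => by rw [hb]; fun_prop
  have ea : ∀ ξ, F2 P α ξ = ∑ m ∈ Ico P (2 * P), ‖a m ξ‖ ^ 2 := fun ξ => by
    simp only [ha, F2, Complex.norm_conj]
  have eb : ∀ η, F3 P W η = ∑ m ∈ Ico P (2 * P), ‖b m η‖ ^ 2 := fun η => by
    simp only [hb, F3]
  have ep : ∀ ξ η, Phi P α W ξ η = ∑ m ∈ Ico P (2 * P), a m ξ * b m η := fun ξ η => by
    simp only [ha, hb, Phi]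
  have fa := gte_cont (Ico P (2 * P)) hA ca
  have fb := gte_cont (Ico P (2 * P)) hA cb
  refine ⟨fun i s' => ∫ ξ in (Real.log P - 1)..(Real.log P + 2),
      gte_f (Ico P (2 * P)) (P * #W) a i ξ * ei (s' * ξ),
    fun i s => ∫ η in (-Real.log P - 3)..(-Real.log P + 2),
      gte_f (Ico P (2 * P)) (P * #W) b i η * ei (s * η), fun s' s => ?_,
    gte_side _ hA (by linarith only []) (by linarith only [p3]) ca (by simpa only [ea] using int_F2 h hP) A,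
    gte_side _ hA (by linarith only []) (by linarith only [p3]) cb
      (by simpa only [eb] using int_F3 P W (by linarith only []) (by linarith only [p3])) B⟩
  have e1 : ∀ ξ η : ℝ, ((Psi P α W ξ η : ℝ) : ℂ) * ei (s' * ξ) * ei (s * η) =
      ∑ i ∈ Ico P (2 * P) ×ˢ Ico P (2 * P), (gte_f (Ico P (2 * P)) (P * #W) a i ξ * ei (s' * ξ)) *
        (gte_f (Ico P (2 * P)) (P * #W) b i η * ei (s * η)) := fun ξ η => by
    rw [Psi, ea, eb, ep, gte_psi, sum_mul, sum_mul]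
    exact sum_congr rfl fun i _ => by ring
  have e2 : ∀ ξ : ℝ, ∫ η in (-Real.log P - 3)..(-Real.log P + 2),
      ((Psi P α W ξ η : ℝ) : ℂ) * ei (s' * ξ) * ei (s * η) =
      ∑ i ∈ Ico P (2 * P) ×ˢ Ico P (2 * P), (gte_f (Ico P (2 * P)) (P * #W) a i ξ * ei (s' * ξ)) *
        ∫ η in (-Real.log P - 3)..(-Real.log P + 2),
          gte_f (Ico P (2 * P)) (P * #W) b i η * ei (s * η) := fun ξ => by
    simp only [e1]
    rw [intervalIntegral.integral_finsetSum fun i _ => Continuous.intervalIntegrable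
      (by have := fb i; fun_prop) _ _]
    exact sum_congr rfl fun i _ => intervalIntegral.integral_const_mul _ _
  simp only [GG, e2]
  rw [intervalIntegral.integral_finsetSum fun i _ => Continuous.intervalIntegrable
    (by have := fa i; fun_prop) _ _]
  exact sum_congr rfl fun i _ => intervalIntegral.integral_mul_const _ _

end

section

lemma fs_log {N P : ℕ} {E : ℝ} (hP : 1 ≤ P) (hPN : P ≤ N) (hE : 2 + 4 * Real.log N ≤ E) :
    ((Nat.log 2 P + 1 : ℕ) : ℝ) + 1 ≤ E := by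
  have h1 : 2 ^ Nat.log 2 P ≤ N := (Nat.pow_log_le_self 2 (by omega)).trans hPN
  have h2 : (2 : ℝ) ^ Nat.log 2 P ≤ N := by exact_mod_cast h1
  have h3 := Real.log_le_log (by positivity) h2
  rw [Real.log_pow] at h3
  have h4 := Real.log_two_gt_d9
  have h5 : (0 : ℝ) ≤ Nat.log 2 P := Nat.cast_nonneg _
  push_cast
  nlinarith only [hE, h3, h4]

lemma fs_log1 {N A : ℕ} {E : ℝ} (hA : 1 ≤ A) (hAN : A ≤ N) (hE : 2 + 4 * Real.log N ≤ E) :
    0 ≤ 1 + Real.log A ∧ 1 + Real.log A ≤ E := by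
  have h1 : (1 : ℝ) ≤ A := by exact_mod_cast hA
  have h2 : (A : ℝ) ≤ N := by exact_mod_cast hAN
  have h3 := Real.log_le_log (by linarith only [h1]) h2
  have h4 := Real.log_nonneg h1
  constructor <;> linarith only [h4, hE, h3]

lemma fs_amgm {S a b M u v c : ℝ} (hab : S ^ 2 ≤ a * b) (h : a * b ≤ M * (u * v)) (hu : 0 ≤ u)
    (hv : 0 ≤ v) (hc : 1 ≤ c) (hM : M ≤ c) : S ≤ c * (u + v) := by
  have h1 : u * v ≤ (u + v) ^ 2 := by nlinarith only [sq_nonneg v]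
  have h2 : M ≤ c ^ 2 := by nlinarith only [hc, hM]
  have h3 : M * (u * v) ≤ c ^ 2 * (u + v) ^ 2 :=
    mul_le_mul h2 h1 (mul_nonneg hu hv) (sq_nonneg c)
  refine (abs_le_of_sq_le_sq' ?_ (by positivity)).2
  rw [mul_pow]
  linarith

lemma fs_stair {Cb : ℝ} (hCb : 0 < Cb)
    (hb : ∀ σ ω p q : ℝ, Cv σ ω p q → ∀ (A B : Finset ℤ) (x y : ℤ → ℂ),
      ‖∑ s' ∈ A, ∑ s ∈ B, x s' * y s * Bk σ p q s' s‖ ≤
        Cb / √ω * √(∑ s' ∈ A, ‖x s'‖ ^ 2) * √(∑ s ∈ B, ‖y s‖ ^ 2))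
    {N P J : ℕ} {E Θ : ℝ} {W : Finset ℤ} {α : ℝ → ℂ} (hP : 1 ≤ P) (hPN : P ≤ N)
    (hE : 2 + 4 * Real.log N ≤ E) (hW : 1 ≤ #W) (hα : Adm W α) {σ p q : ℝ}
    (hc : Cv σ (J / P) p q) {x y : ℤ → ℂ} (hx : ∀ s : ℤ, ‖x s‖ ≤ ‖ZD J s‖)
    (hy : ∀ s : ℤ, ‖y s‖ ≤ ‖ZD P s‖) (hΘ : (J : ℝ) ≤ Θ) :
    ‖FS N P J σ p q x y (Psi P α W)‖ ≤ 40 * Cb * E * (Θ / √(J / P : ℝ) * (P * #W) ^ 2) +
      ∑ r ∈ (Sy (N * J) ×ˢ Sy (N * P)).filter (fun r => Θ / 2 < ‖x r.1‖ * ‖y r.2‖),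
        ‖x r.1‖ * ‖y r.2‖ * ‖Bk σ p q r.1 r.2‖ * ‖GG P (Psi P α W) r.1 r.2‖ := by
  obtain ⟨u, v, h1, h2, h3⟩ := gg_ten hP hW hα (Sy (N * J)) (Sy (N * P))
  have hΘ0 : 0 ≤ Θ := (Nat.cast_nonneg J).trans hΘ
  have hn : (P : ℝ) ≤ 2 ^ (Nat.log 2 P + 1) := by
    exact_mod_cast (Nat.lt_pow_succ_log_self (by norm_num : 1 < 2) P).le
  have h := stair _ (Sy (N * J)) (Sy (N * P)) x y (Bk σ p q) (GG P (Psi P α W)) u v
    (β := Cb / √(J / P : ℝ)) (Θ := Θ) (Nat.log 2 P + 1) (by positivity) hΘ0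
    (hb σ _ p q hc _ _) h1 h2 h3 (fun s => (hx s).trans ((ZD_le J s).trans hΘ))
    (fun s => (hy s).trans ((ZD_le P s).trans hn))
  refine h.trans (add_le_add ?_ le_rfl)
  have h4 := fs_log hP hPN hE
  have h5 : √(40 * (P * #W : ℝ) ^ 2) * √(40 * (P * #W : ℝ) ^ 2) = 40 * (P * #W : ℝ) ^ 2 :=
    Real.mul_self_sqrt (by positivity)
  calc _ = (((Nat.log 2 P + 1 : ℕ) : ℝ) + 1) * (Cb / √(J / P : ℝ) * Θ *
        (√(40 * (P * #W : ℝ) ^ 2) * √(40 * (P * #W : ℝ) ^ 2))) := by ring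
    _ ≤ E * (Cb / √(J / P : ℝ) * Θ * (√(40 * (P * #W : ℝ) ^ 2) * √(40 * (P * #W : ℝ) ^ 2))) :=
        mul_le_mul_of_nonneg_right h4 (by positivity)
    _ = _ := by rw [h5]; ring

lemma fs_low {Cz : ℝ} (hCz : 0 < Cz)
    (hz : ∀ A : ℕ, 1 ≤ A → ∑ s ∈ Sy A, ‖ZD A s‖ ≤ Cz * A * (1 + Real.log A))
    {N P J : ℕ} {E : ℝ} {W : Finset ℤ} {α : ℝ → ℂ} (hP : 1 ≤ P) (hJ : 1 ≤ J) (hJP : J ≤ 7 * P)
    (hPN : 7 * P ≤ N) (hE : 2 + 4 * Real.log N ≤ E) (hα : Adm W α) {σ ω p q : ℝ}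
    (hc : Cv σ ω p q) {x y : ℤ → ℂ} (hx : ∀ s : ℤ, ‖x s‖ ≤ ‖ZD J s‖)
    (hy : ∀ s : ℤ, ‖y s‖ ≤ ‖ZD P s‖) (D : Finset (ℤ × ℤ)) (hD : D ⊆ Sy J ×ˢ Sy P) :
    ∑ r ∈ D, ‖x r.1‖ * ‖y r.2‖ * ‖Bk σ p q r.1 r.2‖ * ‖GG P (Psi P α W) r.1 r.2‖ ≤
      35 * Cz ^ 2 * E ^ 2 * (P * (P * HN P α W)) := by
  have hH := HN_nonneg P α W
  obtain ⟨a1, a2⟩ := fs_log1 hJ (hJP.trans hPN) hE
  obtain ⟨b1, b2⟩ := fs_log1 hP (le_trans (by omega) hPN) hE
  have hE0 : 0 ≤ E := a1.trans a2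
  have hJP' : (J : ℝ) ≤ 7 * P := by exact_mod_cast hJP
  have c1 : ∑ s ∈ Sy J, ‖ZD J s‖ ≤ Cz * (7 * P) * E := (hz J hJ).trans (by gcongr)
  have c2 : ∑ s ∈ Sy P, ‖ZD P s‖ ≤ Cz * P * E := (hz P hP).trans (by gcongr)
  calc _ ≤ ∑ r ∈ D, ‖ZD J r.1‖ * ‖ZD P r.2‖ * 5 * HN P α W := by
        refine sum_le_sum fun r _ => ?_
        have := hx r.1
        have := hy r.2
        have := bk_triv hc r.1 r.2
        have := gg_sup P W hα.cont r.1 r.2
        gcongr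
    _ ≤ ∑ r ∈ Sy J ×ˢ Sy P, ‖ZD J r.1‖ * ‖ZD P r.2‖ * 5 * HN P α W :=
        sum_le_sum_of_subset_of_nonneg hD fun _ _ _ => by positivity
    _ = (∑ s ∈ Sy J, ‖ZD J s‖) * (∑ s ∈ Sy P, ‖ZD P s‖) * 5 * HN P α W := by
        rw [sum_mul_sum, ← sum_product', sum_mul, sum_mul]
    _ ≤ (Cz * (7 * P) * E) * (Cz * P * E) * 5 * HN P α W := by gcongr
    _ = _ := by ring

lemma fs_high {M : ℝ} (hM : 0 ≤ M) {P J : ℕ} {W : Finset ℤ} {α : ℝ → ℂ} (hP : 1 ≤ P)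
    (hJP : J ≤ 7 * P) (hW : 1 ≤ #W) (hα : Adm W α) {σ p q : ℝ} {x y : ℤ → ℂ}
    (hx : ∀ s : ℤ, ‖x s‖ ≤ ‖ZD J s‖) (hy : ∀ s : ℤ, ‖y s‖ ≤ ‖ZD P s‖) {A B : Finset ℤ}
    (D : Finset (ℤ × ℤ)) (hD : D ⊆ A ×ˢ B)
    (h : ∑ r ∈ D, ‖ZD J r.1‖ ^ 2 * ‖ZD P r.2‖ ^ 2 * ‖Bk σ p q r.1 r.2‖ ^ 2 ≤
      M * (P ^ 2 * √(P : ℝ) * J)) :
    ∑ r ∈ D, ‖x r.1‖ * ‖y r.2‖ * ‖Bk σ p q r.1 r.2‖ * ‖GG P (Psi P α W) r.1 r.2‖ ≤
      (1 + 280 * M) * (P * (P ^ 2 * √(P : ℝ) * #W ^ 2) + P * (P * HN P α W)) := by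
  have hH := HN_nonneg P α W
  have hJP' : (J : ℝ) ≤ 7 * P := by exact_mod_cast hJP
  have h1 := sum_mul_sq_le_sq_mul_sq D (fun r => ‖x r.1‖ * ‖y r.2‖ * ‖Bk σ p q r.1 r.2‖)
    (fun r => ‖GG P (Psi P α W) r.1 r.2‖)
  have h2 : ∑ r ∈ D, (‖x r.1‖ * ‖y r.2‖ * ‖Bk σ p q r.1 r.2‖) ^ 2 ≤
      M * (P ^ 2 * √(P : ℝ) * (7 * P)) := by
    refine le_trans (sum_le_sum fun r _ => ?_) (h.trans (by gcongr))
    have := hx r.1
    have := hy r.2
    rw [mul_pow, mul_pow]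
    gcongr
  have h3 : ∑ r ∈ D, ‖GG P (Psi P α W) r.1 r.2‖ ^ 2 ≤ 40 * (P * #W) ^ 2 * HN P α W :=
    (sum_le_sum_of_subset_of_nonneg hD fun _ _ _ => sq_nonneg _).trans (gg_hs hP hW hα.cont A B)
  refine fs_amgm (M := 280 * M) h1 ?_ (by positivity) (by positivity) (by linarith only [hM]) (by linarith only [])
  calc _ ≤ (M * (P ^ 2 * √(P : ℝ) * (7 * P))) * (40 * (P * #W) ^ 2 * HN P α W) :=
        mul_le_mul h2 h3 (sum_nonneg fun _ _ => sq_nonneg _) (by positivity)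
    _ = _ := by ring

theorem fs_le : ∃ (C : ℝ) (k : ℕ), 0 < C ∧ ∀ (N T P X : ℕ) (E V : ℝ) (W : Finset ℤ) (a : ℕ → ℂ),
    World N T P X E 1 V W a → X ^ 2 ≤ N → ∀ α : ℝ → ℂ, Adm W α →
    ∀ J : ℕ, 1 ≤ J → J ≤ 7 * P → ∀ σ p q : ℝ, Cv σ (J / P) p q → ∀ x y : ℤ → ℂ,
      (∀ s : ℤ, ‖x s‖ ≤ ‖ZD J s‖) → (∀ s : ℤ, ‖y s‖ ≤ ‖ZD P s‖) →
      ‖FS N P J σ p q x y (Psi P α W)‖ ≤ C * E ^ k *
        (P * ((P ^ 2 * √(P : ℝ) + √(N : ℝ) * √(P : ℝ)) * #W ^ 2 + P * HN P α W)) := by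
  obtain ⟨Cb, hCb, hb⟩ := bk_op
  obtain ⟨Cz, hCz, hz⟩ := zd_l1
  obtain ⟨Ch, k, hCh, hh⟩ := high2
  refine ⟨240 * Cb + 35 * Cz ^ 2 + (1 + 280 * Ch), k + 2, by positivity, ?_⟩
  intro N T P X E V W a w hX α hα J hJ hJP σ p q hc x y hx hy
  have hP := w.P1
  have hPN : 7 * P ≤ N := le_trans (by have := w.PX; omega) w.XN
  have hE := w.E1
  have hH := HN_nonneg P α W
  have P1 : (1 : ℝ) ≤ P := by exact_mod_cast hP
  have J1 : (1 : ℝ) ≤ J := by exact_mod_cast hJ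
  have hJP' : (J : ℝ) ≤ 7 * P := by exact_mod_cast hJP
  have sP : √(P : ℝ) * √(P : ℝ) = P := Real.mul_self_sqrt (by positivity)
  have sJ : √(J : ℝ) * √(J : ℝ) = J := Real.mul_self_sqrt (by positivity)
  have sP0 : 0 < √(P : ℝ) := Real.sqrt_pos.2 (by linarith only [P1])
  have sJ0 : 0 < √(J : ℝ) := Real.sqrt_pos.2 (by linarith only [J1])
  have hd : √(J / P : ℝ) = √(J : ℝ) / √(P : ℝ) := Real.sqrt_div (by positivity) _
  have e1 : E ≤ E ^ (k + 2) := le_self_pow₀ hE (by omega)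
  have e2 : E ^ 2 ≤ E ^ (k + 2) := pow_le_pow_right₀ hE (by omega)
  have e3 : E ^ k ≤ E ^ (k + 2) := pow_le_pow_right₀ hE (by omega)
  have e4 : 1 ≤ E ^ (k + 2) := one_le_pow₀ hE
  set u1 : ℝ := P * (P ^ 2 * √(P : ℝ) * #W ^ 2) with hu1
  set u2 : ℝ := P * (√(N : ℝ) * √(P : ℝ) * #W ^ 2) with hu2
  set u3 : ℝ := P * (P * HN P α W) with hu3
  have p1 : 0 ≤ u1 := by positivity
  have p2 : 0 ≤ u2 := by positivity
  have p3 : 0 ≤ u3 := by positivity
  have hs : (P * ((P ^ 2 * √(P : ℝ) + √(N : ℝ) * √(P : ℝ)) * #W ^ 2 + P * HN P α W) : ℝ) =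
      u1 + u2 + u3 := by rw [hu1, hu2, hu3]; ring
  rw [hs]
  set G : ℝ := E ^ (k + 2)
  have q1 : 0 ≤ G * u1 := by positivity
  have q2 : 0 ≤ G * u2 := by positivity
  have q3 : 0 ≤ G * u3 := by positivity
  have hz2 : 0 < Cz ^ 2 := by positivity
  rcases lt_or_ge (P ^ 5) N with h5 | h5
  · have h := fs_stair hCb hb (Θ := 2 * P * J) hP (le_trans (by omega) hPN) w.lg w.W1 hα hc hx hy
      (by nlinarith only [P1])
    rw [filter_false_of_mem, sum_empty, add_zero] at h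
    · have a1 : √(J : ℝ) ≤ 3 * √(P : ℝ) :=
        Real.sqrt_le_iff.2 ⟨by positivity, by linarith only [P1, hJP', sP]⟩
      have a2 : (P : ℝ) ^ 3 ≤ √(N : ℝ) * √(P : ℝ) := by
        rw [← Real.sqrt_mul (by positivity)]
        refine Real.le_sqrt_of_sq_le ?_
        have : (P : ℝ) ^ 5 ≤ N := by exact_mod_cast h5.le
        calc ((P : ℝ) ^ 3) ^ 2 = P ^ 5 * P := by ring
          _ ≤ _ := by gcongr
      have a3 : 2 * P * J / √(J / P : ℝ) * (P * #W) ^ 2 ≤ 6 * u2 := by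
        have : 2 * P * J / √(J / P : ℝ) = 2 * P * (√(J : ℝ) * √(P : ℝ)) := by
          rw [hd, div_div_eq_mul_div, div_eq_iff sJ0.ne']
          linear_combination (-2 * P * √(P : ℝ)) * sJ
        rw [this]
        calc _ ≤ 2 * P * (3 * √(P : ℝ) * √(P : ℝ)) * (P * #W) ^ 2 := by gcongr
          _ = 6 * (P * ((P : ℝ) ^ 3 * #W ^ 2)) := by rw [mul_assoc 3, sP]; ring
          _ ≤ _ := by rw [hu2]; gcongr
      have a4 : 40 * Cb * E * (2 * P * J / √(J / P : ℝ) * (P * #W) ^ 2) ≤ 40 * Cb * G * (6 * u2) := by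
        gcongr
      refine (h.trans a4).trans ?_
      clear h hh hz hb a3 a4 hs
      clear_value u1 u2 u3 G
      linarith only [mul_nonneg hCb.le q1, mul_nonneg hCb.le q3, mul_nonneg hz2.le q1, mul_nonneg hz2.le q2, mul_nonneg hz2.le q3, mul_nonneg hCh.le q1, mul_nonneg hCh.le q2, mul_nonneg hCh.le q3, q1, q2, q3]
    · intro r _
      have b1 := (hx r.1).trans (ZD_le J r.1)
      have b2 := (hy r.2).trans (ZD_le P r.2)
      have := mul_le_mul b1 b2 (norm_nonneg _) (by positivity)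
      linarith only [this]
  · have a1 : √(J : ℝ) ≤ 3 * P := Real.sqrt_le_iff.2 ⟨by positivity, by nlinarith only [P1, hJP']⟩
    have h := fs_stair hCb hb (Θ := 3 * P * √(J : ℝ)) hP (le_trans (by omega) hPN) w.lg w.W1 hα hc
      hx hy (by nlinarith only [sJ, sJ0, a1])
    rw [← sum_filter_add_sum_filter_not _ (fun r : ℤ × ℤ => |r.1| ≤ J ∧ |r.2| ≤ P)] at h
    have hl := fs_low hCz hz hP hJ hJP hPN w.lg hα hc hx hy
      (((Sy (N * J) ×ˢ Sy (N * P)).filter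
        (fun r => 3 * P * √(J : ℝ) / 2 < ‖x r.1‖ * ‖y r.2‖)).filter
          (fun r : ℤ × ℤ => |r.1| ≤ J ∧ |r.2| ≤ P)) (fun r hr => by
        have := (mem_filter.1 hr).2
        exact mem_product.2 ⟨mem_Sy.2 this.1, mem_Sy.2 this.2⟩)
    have hsub : ((Sy (N * J) ×ˢ Sy (N * P)).filter
        (fun r => 3 * P * √(J : ℝ) / 2 < ‖x r.1‖ * ‖y r.2‖)).filter
          (fun r : ℤ × ℤ => ¬(|r.1| ≤ J ∧ |r.2| ≤ P)) ⊆ Sy (N * J) ×ˢ Sy (N * P) :=
      (filter_subset _ _).trans (filter_subset _ _)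
    have hg := fs_high (M := Ch * E ^ k) (by positivity) hP hJP w.W1 hα hx hy _ hsub
      (hh N T P X E V W a w hX h5 J hJ hJP σ p q hc _ hsub fun r hr => by
        obtain ⟨c1, c2⟩ := mem_filter.1 hr
        refine ⟨by omega, (mem_filter.1 c1).2.trans_le ?_⟩
        exact mul_le_mul (hx _) (hy _) (norm_nonneg _) (norm_nonneg _))
    have a3 : 3 * P * √(J : ℝ) / √(J / P : ℝ) * (P * #W) ^ 2 = 3 * u1 := by
      rw [hd, hu1]
      field_simp
    rw [a3] at h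
    have a4 : 40 * Cb * E * (3 * u1) ≤ 40 * Cb * G * (3 * u1) := by gcongr
    have a5 : 35 * Cz ^ 2 * E ^ 2 * u3 ≤ 35 * Cz ^ 2 * G * u3 := by gcongr
    have a6 : (1 + 280 * (Ch * E ^ k)) * (u1 + u3) ≤ (G + 280 * (Ch * G)) * (u1 + u3) := by gcongr
    refine (h.trans (add_le_add a4 (add_le_add (hl.trans a5) (hg.trans a6)))).trans ?_
    clear h hl hg hsub hh hz hb a3 a4 a5 a6 hs
    clear_value u1 u2 u3 G
    linarith only [mul_nonneg hCb.le q1, mul_nonneg hCb.le q2, mul_nonneg hCb.le q3, mul_nonneg hz2.le q1, mul_nonneg hz2.le q2, mul_nonneg hCh.le q2, q2]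

end

section

/-! ### block TTM -/

lemma ttm_log {N T P X : ℕ} {E V : ℝ} {W : Finset ℤ} {a : ℕ → ℂ} (h : World N T P X E 1 V W a) :
    (Nat.log 2 (7 * P) : ℝ) + 1 ≤ E := by
  have h1 := h.PX
  have h2 := h.XN
  have h3 := h.P1
  have h4 : 2 ^ Nat.log 2 (7 * P) ≤ N := (Nat.pow_log_le_self 2 (by omega)).trans (by omega)
  have h5 : (2 : ℝ) ^ Nat.log 2 (7 * P) ≤ N := by exact_mod_cast h4
  have h6 := Real.log_le_log (by positivity) h5
  rw [Real.log_pow] at h6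
  have h7 := Real.log_two_gt_d9
  have h8 : (0 : ℝ) ≤ Nat.log 2 (7 * P) := Nat.cast_nonneg _
  nlinarith only [h.lg, h6, h7]

theorem i2_le : ∃ (C : ℝ) (k : ℕ), 0 < C ∧ ∀ (N T P X : ℕ) (E V : ℝ) (W : Finset ℤ) (a : ℕ → ℂ),
    World N T P X E 1 V W a → X ^ 2 ≤ N → ∀ α : ℝ → ℂ, Adm W α →
      II N P (fun ξ z => Psi P α W ξ (z - ξ)) ≤ C * E ^ k *
        ((P ^ 2 * √(P : ℝ) + √(N : ℝ) * √(P : ℝ)) * #W ^ 2 + T * N / V ^ 2 * (P ^ 2 * #W)) := by
  obtain ⟨C1, hC1, h1⟩ := ii_exp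
  obtain ⟨C2, k2, hC2, h2⟩ := fs_le
  obtain ⟨C3, k3, hC3, h3⟩ := hn_le
  refine ⟨C1 * C2 * (1 + C3), 1 + k2 + k3, by positivity, fun N T P X E V W a h hX α hα => ?_⟩
  have a1 := h1 N P h.N1 h.P1 (Psi P α W) (cont_Psi P hα.cont W) (Psi_nonneg P α W) _
    (h2 N T P X E V W a h hX α hα)
  have a3 := h3 N T P X E V W a h α hα
  have a4 := ttm_log h
  have hE := h.E1
  have hP : (0 : ℝ) < P := by exact_mod_cast h.P1
  have hH := HN_nonneg P α W
  have hV := h.V0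
  have e3 : (1 : ℝ) ≤ E ^ k3 := one_le_pow₀ hE
  generalize HN P α W = H at *
  generalize (Nat.log 2 (7 * P) : ℝ) + 1 = L at *
  have hA : (0 : ℝ) ≤ (P ^ 2 * √(P : ℝ) + √(N : ℝ) * √(P : ℝ)) * #W ^ 2 := by positivity
  generalize (P ^ 2 * √(P : ℝ) + √(N : ℝ) * √(P : ℝ)) * (#W : ℝ) ^ 2 = A at *
  have hB : (0 : ℝ) ≤ T * N / V ^ 2 * (P ^ 2 * #W) := by positivity
  have a5 : P * H ≤ C3 * E ^ k3 * (T * N / V ^ 2 * (P ^ 2 * #W)) := by
    calc P * H ≤ P * (C3 * E ^ k3 * (T * N / V ^ 2 * (P * #W))) := by gcongr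
      _ = _ := by ring
  generalize (T * N / V ^ 2 * (P ^ 2 * #W) : ℝ) = B at *
  have a6 : A + P * H ≤ (1 + C3) * E ^ k3 * (A + B) := by
    have b1 : A ≤ E ^ k3 * A := le_mul_of_one_le_left hA e3
    have b2 : 0 ≤ C3 * E ^ k3 * A := by positivity
    have b3 : 0 ≤ E ^ k3 * B := by positivity
    linarith only [a5, b1, b2, b3]
  calc _ ≤ C1 * L / P * (C2 * E ^ k2 * (P * (A + P * H))) := a1
    _ = C1 * C2 * E ^ k2 * L * (A + P * H) := by field_simp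
    _ ≤ C1 * C2 * E ^ k2 * E * ((1 + C3) * E ^ k3 * (A + B)) := by gcongr
    _ = _ := by ring

lemma ttm_num {P X N R H : ℝ} (hP : 0 ≤ P) (hX : P ≤ X) (hR : 0 ≤ R) (hH : 0 ≤ H) :
    P * R * ((P ^ 2 * √P + √N * √P) * R ^ 2 + H ^ 2 * (P ^ 2 * R)) ≤
      ((√(√X) ^ 7 + √(√N) * √(√X) ^ 3) * (R * √R) + X * √X * R * H) ^ 2 := by
  have X0 : 0 ≤ X := hP.trans hX
  have s1 : √P ≤ √X := Real.sqrt_le_sqrt hX
  have a1 : P * R * ((P ^ 2 * √P + √N * √P) * R ^ 2 + H ^ 2 * (P ^ 2 * R)) ≤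
      X * R * ((X ^ 2 * √X + √N * √X) * R ^ 2 + H ^ 2 * (X ^ 2 * R)) := by gcongr
  refine a1.trans ?_
  have x0 : 0 ≤ √(√X) := Real.sqrt_nonneg _
  have n0 : 0 ≤ √(√N) := Real.sqrt_nonneg _
  have r0 : 0 ≤ √R := Real.sqrt_nonneg _
  have x2 : √X = √(√X) ^ 2 := (Real.sq_sqrt (Real.sqrt_nonneg _)).symm
  have n2 : √N = √(√N) ^ 2 := (Real.sq_sqrt (Real.sqrt_nonneg _)).symm
  have r2 : R = √R ^ 2 := (Real.sq_sqrt hR).symm
  have x4 : X = √X ^ 2 := (Real.sq_sqrt X0).symm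
  generalize √(√X) = x at *
  generalize √(√N) = n at *
  generalize √R = r at *
  generalize √X = y at *
  generalize √N = m at *
  subst x2 n2 r2 x4
  have : 0 ≤ 2 * (x ^ 10 * n * r ^ 6) + 2 * (x ^ 13 * r ^ 5 * H) + 2 * (x ^ 9 * n * r ^ 5 * H) := by
    positivity
  refine le_of_sub_nonneg (this.trans_eq ?_)
  ring

theorem tt_main : ∃ (C : ℝ) (k : ℕ), 0 < C ∧ ∀ (N T P X : ℕ) (E V : ℝ) (W : Finset ℤ) (a : ℕ → ℂ),
    World N T P X E 1 V W a → X ^ 2 ≤ N → ∀ α : ℝ → ℂ, Adm W α →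
      (∀ z, ‖α z‖ ^ 2 ≤ √(P : ℝ) * #W) →
      ‖TT N P α (rho W)‖ ≤ C * E ^ k *
        ((√(√(X : ℝ)) ^ 7 + √(√(N : ℝ)) * √(√(X : ℝ)) ^ 3) * (#W * √(#W : ℝ)) +
          X * √(X : ℝ) * #W * (√(T * N : ℝ) / V)) := by
  obtain ⟨C1, k1, hC1, h1⟩ := i1_le
  obtain ⟨C2, k2, hC2, h2⟩ := i2_le
  refine ⟨4 * (C1 + C2), k1 + k2, by positivity, fun N T P X E V W a h hX α hα hU => ?_⟩
  have a1 := h1 N T P X E V W a h α hα hU
  have a2 := h2 N T P X E V W a h hX α hα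
  have hE := h.E1
  have hP : (0 : ℝ) < P := by exact_mod_cast h.P1
  have hR : (0 : ℝ) < #W := by exact_mod_cast h.W1
  have hPX : (P : ℝ) ≤ X := by have := h.PX; exact_mod_cast (by omega : P ≤ X)
  have hX0 : (0 : ℝ) < X := hP.trans_le hPX
  have hV := h.V0
  have a3 := ttm_num (N := N) (H := √(T * N : ℝ) / V) hP.le hPX hR.le (by positivity)
  rw [div_pow, Real.sq_sqrt (by positivity)] at a3
  have hM : (0 : ℝ) < (√(√(X : ℝ)) ^ 7 + √(√(N : ℝ)) * √(√(X : ℝ)) ^ 3) * (#W * √(#W : ℝ)) +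
      X * √(X : ℝ) * #W * (√(T * N : ℝ) / V) := by positivity
  generalize (√(√(X : ℝ)) ^ 7 + √(√(N : ℝ)) * √(√(X : ℝ)) ^ 3) * (#W * √(#W : ℝ)) +
      X * √(X : ℝ) * #W * (√(T * N : ℝ) / V) = M at *
  have hB1 : (0 : ℝ) < P * #W := by positivity
  have a4 := cs1 N P h.N1 h.P1 W hα.cont hα.zero (τ := M / (P * #W)) (by positivity)
  generalize II N P (fun ξ z => Psi P α W ξ (z - ξ)) = I2 at *
  generalize II N P (fun ξ z =>
    ‖α z‖ ^ 2 * (om (P * #W) (F2 P α ξ) * om (P * #W) (F3 P W (z - ξ)))) = I1 at *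
  generalize (P ^ 2 * √(P : ℝ) + √(N : ℝ) * √(P : ℝ)) * (#W : ℝ) ^ 2 +
    T * N / V ^ 2 * (P ^ 2 * #W) = B2 at *
  generalize (P * #W : ℝ) = B1 at *
  have e1 : E ^ k1 ≤ E ^ (k1 + k2) := pow_le_pow_right₀ hE (by omega)
  have e2 : E ^ k2 ≤ E ^ (k1 + k2) := pow_le_pow_right₀ hE (by omega)
  have b1 : M / B1 * I1 ≤ C1 * E ^ (k1 + k2) * M := by
    calc M / B1 * I1 ≤ M / B1 * (C1 * E ^ k1 * B1) := by gcongr
      _ = C1 * E ^ k1 * M := by field_simp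
      _ ≤ _ := by gcongr
  have b2 : I2 / (M / B1) ≤ C2 * E ^ (k1 + k2) * M := by
    calc I2 / (M / B1) ≤ C2 * E ^ k2 * B2 / (M / B1) := by gcongr
      _ = C2 * E ^ k2 * (B1 * B2) / M := by field_simp
      _ ≤ C2 * E ^ k2 * M ^ 2 / M := by gcongr
      _ = C2 * E ^ k2 * M := by field_simp
      _ ≤ _ := by gcongr
  calc _ ≤ _ := a4
    _ ≤ 4 * (C1 * E ^ (k1 + k2) * M + C2 * E ^ (k1 + k2) * M) := by gcongr
    _ = _ := by ring

end

section

/-! ### block MID -/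

lemma mid_int {f g : ℝ → ℝ} (hf : Continuous f) (hg : Continuous g) {a b c B : ℝ} (hab : a ≤ b)
    (hc : 0 ≤ c) (h : ∀ z, f z ≤ c * g z) (hB : ∫ z in a..b, g z ≤ B) :
    ∫ z in a..b, f z ≤ c * B := by
  have h1 : ∫ z in a..b, f z ≤ ∫ z in a..b, c * g z :=
    intervalIntegral.integral_mono_on hab (hf.intervalIntegrable _ _)
      (Continuous.intervalIntegrable (by fun_prop) _ _) fun z _ => h z
  rw [intervalIntegral.integral_const_mul] at h1
  exact h1.trans (mul_le_mul_of_nonneg_left hB hc)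

lemma mid_num1 {p x r I1 I2 : ℝ} (p1 : 1 ≤ p) (px : p ≤ x) (r0 : 0 < r) (h0 : 0 ≤ I1)
    (h1 : I1 ≤ 1 / (p * r) * (7 * r ^ 2)) (h2 : I2 ≤ 1 * (7 * r ^ 2)) :
    p * r * ((p ^ 4) ^ 2 * I1 ^ 2 + p ^ 4 * I2) ≤ 56 * (x ^ 7 * (r ^ 2 * r)) := by
  have p0 : 0 < p := by linarith only [p1]
  have a1 : I1 ^ 2 ≤ (1 / (p * r) * (7 * r ^ 2)) ^ 2 := pow_le_pow_left₀ h0 h1 2
  have a2 : p * r * ((p ^ 4) ^ 2 * I1 ^ 2 + p ^ 4 * I2) ≤
      p * r * ((p ^ 4) ^ 2 * (1 / (p * r) * (7 * r ^ 2)) ^ 2 + p ^ 4 * (1 * (7 * r ^ 2))) := by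
    gcongr
  have a3 : p * r * ((p ^ 4) ^ 2 * (1 / (p * r) * (7 * r ^ 2)) ^ 2 + p ^ 4 * (1 * (7 * r ^ 2))) =
      (49 * p ^ 7 + 7 * p ^ 5) * (r ^ 2 * r) := by field_simp; ring
  have a4 : p ^ 7 ≤ x ^ 7 := pow_le_pow_left₀ p0.le px 7
  have a5 : p ^ 5 ≤ p ^ 7 := pow_le_pow_right₀ p1 (by norm_num)
  have a6 : (49 * p ^ 7 + 7 * p ^ 5) * (r ^ 2 * r) ≤ (56 * x ^ 7) * (r ^ 2 * r) :=
    mul_le_mul_of_nonneg_right (by linarith only [a4, a5]) (by positivity)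
  rw [a3] at a2
  linarith only [a2, a6]

lemma mid_num2 {p x r I2 J1 S4 S2 : ℝ} (p1 : 1 ≤ p) (px : p ≤ x) (r0 : 0 < r) (h0 : 0 ≤ J1)
    (h0' : 0 ≤ S2) (h2 : I2 ≤ 1 * (7 * r ^ 2)) (h1 : J1 ≤ 1 / (p * r) * (7 * r ^ 2))
    (h4 : S4 ≤ 3 * x ^ 2 * r ^ 2) (h5 : S2 ≤ 3 * r) :
    (p ^ 4) ^ 2 * I2 * J1 + p ^ 4 * S4 * S2 ≤ 58 * (x ^ 7 * (r ^ 2 * r)) := by
  have p0 : 0 < p := by linarith only [p1]
  have x1 : 1 ≤ x := p1.trans px
  have a2 : (p ^ 4) ^ 2 * I2 * J1 + p ^ 4 * S4 * S2 ≤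
      (p ^ 4) ^ 2 * (1 * (7 * r ^ 2)) * (1 / (p * r) * (7 * r ^ 2)) +
        p ^ 4 * (3 * x ^ 2 * r ^ 2) * (3 * r) := by
    gcongr
  have a3 : (p ^ 4) ^ 2 * (1 * (7 * r ^ 2)) * (1 / (p * r) * (7 * r ^ 2)) +
        p ^ 4 * (3 * x ^ 2 * r ^ 2) * (3 * r) =
      (49 * p ^ 7 + 9 * (p ^ 4 * x ^ 2)) * (r ^ 2 * r) := by field_simp; ring
  have a4 : p ^ 7 ≤ x ^ 7 := pow_le_pow_left₀ p0.le px 7
  have a5 : p ^ 4 * x ^ 2 ≤ x ^ 7 :=
    calc p ^ 4 * x ^ 2 ≤ x ^ 4 * x ^ 2 := by gcongr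
      _ = x ^ 6 := by ring
      _ ≤ x ^ 7 := pow_le_pow_right₀ x1 (by norm_num)
  have a6 : (49 * p ^ 7 + 9 * (p ^ 4 * x ^ 2)) * (r ^ 2 * r) ≤ (58 * x ^ 7) * (r ^ 2 * r) :=
    mul_le_mul_of_nonneg_right (by linarith only [a4, a5]) (by positivity)
  rw [a3] at a2
  linarith only [a2, a6]

lemma mid_fin {C1 C2 E U M A B Q Q' Y Z : ℝ} {k1 k2 : ℕ} (c1 : 0 < C1) (c2 : 0 < C2) (E1 : 1 ≤ E)
    (U0 : 0 < U) (M0 : 0 ≤ M) (t1 : A ≤ 8 * Q') (t2 : Q' ≤ 2 * U * Q) (t3 : Q ≤ C1 * E ^ k1 * Y)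
    (n1 : U * Y ≤ 56 * M) (t4 : B ≤ C2 * E ^ k2 * Z) (n2 : Z ≤ 58 * M) :
    A + B ≤ (896 * C1 + 58 * C2) * E ^ (k1 + k2) * M := by
  have e1 : E ^ k1 ≤ E ^ (k1 + k2) := pow_le_pow_right₀ E1 (by omega)
  have e2 : E ^ k2 ≤ E ^ (k1 + k2) := pow_le_pow_right₀ E1 (by omega)
  have u1 := mul_le_mul_of_nonneg_left t3 (by positivity : 0 ≤ 16 * U)
  have u2 := mul_le_mul_of_nonneg_left n1 (by positivity : 0 ≤ 16 * (C1 * E ^ k1))
  have u3 := mul_le_mul_of_nonneg_left n2 (by positivity : 0 ≤ C2 * E ^ k2)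
  have u4 := mul_le_mul_of_nonneg_left (mul_le_mul_of_nonneg_right e1 M0)
    (by positivity : 0 ≤ 896 * C1)
  have u5 := mul_le_mul_of_nonneg_left (mul_le_mul_of_nonneg_right e2 M0)
    (by positivity : 0 ≤ 58 * C2)
  linarith

theorem tt_mid : ∃ (C : ℝ) (k : ℕ), 0 < C ∧ ∀ (N T P X : ℕ) (E V : ℝ) (W : Finset ℤ) (a : ℕ → ℂ),
    World N T P X E 1 V W a → ∀ β : ℝ → ℂ, Continuous β → (∀ z, ‖β z‖ ≤ ‖rho W (-z)‖) →
      (∀ z, ‖β z‖ ≤ √(X * #W)) → (∀ z, ‖β z‖ ≤ ‖rho W (-z)‖ ^ 2 / √(√(P : ℝ) * #W)) →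
      ‖TT N P β (rho W)‖ ≤ C * E ^ k * (√(√(X : ℝ)) ^ 7 * (#W * √(#W : ℝ))) := by
  obtain ⟨C1, k1, c1, h1⟩ := qq_one
  obtain ⟨C2, k2, c2, h2⟩ := th
  refine ⟨896 * C1 + 58 * C2, k1 + k2, by positivity, fun N T P X E V W a hw β hβ b1 b2 b3 => ?_⟩
  have P1 : (1 : ℝ) ≤ P := by exact_mod_cast hw.P1
  have R1 : (1 : ℝ) ≤ #W := by exact_mod_cast hw.W1
  have PX : (P : ℝ) ≤ X := by
    have := hw.PX
    exact_mod_cast (by omega : P ≤ X)
  have E1 := hw.E1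
  have XR : (0 : ℝ) ≤ X * #W := mul_nonneg (Nat.cast_nonneg _) (Nat.cast_nonneg _)
  obtain ⟨p, hp⟩ : ∃ p, p = √(√(P : ℝ)) := ⟨_, rfl⟩
  obtain ⟨x, hx⟩ : ∃ x, x = √(√(X : ℝ)) := ⟨_, rfl⟩
  obtain ⟨r, hr⟩ : ∃ r, r = √(#W : ℝ) := ⟨_, rfl⟩
  have p1 : 1 ≤ p := hp ▸ Real.one_le_sqrt.2 (Real.one_le_sqrt.2 P1)
  have px : p ≤ x := by rw [hp, hx]; exact Real.sqrt_le_sqrt (Real.sqrt_le_sqrt PX)
  have r0 : 0 < r := hr ▸ Real.sqrt_pos.2 (by linarith)
  have p4 : (P : ℝ) = p ^ 4 := by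
    rw [hp, show 4 = 2 * 2 from rfl, pow_mul, Real.sq_sqrt (Real.sqrt_nonneg _),
      Real.sq_sqrt (by linarith only [P1])]
  have x2 : √(X : ℝ) = x ^ 2 := by rw [hx, Real.sq_sqrt (Real.sqrt_nonneg _)]
  have r2 : (#W : ℝ) = r ^ 2 := by rw [hr, Real.sq_sqrt (by linarith only [R1])]
  have hU : √(√(P : ℝ) * #W) = p * r := by rw [Real.sqrt_mul (Real.sqrt_nonneg _), hp, hr]
  have U0 : 0 < p * r := by positivity
  rw [hU] at b3
  have cg : Continuous fun y => clamp (p * r) (rho W y) := (cont_clamp U0).comp (cont_rho W)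
  have ch : Continuous fun y => rho W y - clamp (p * r) (rho W y) := (cont_rho W).sub cg
  have pi7 : 2 * π * #W ≤ 7 * r ^ 2 := by
    rw [r2]; nlinarith only [Real.pi_lt_d2]
  have L1 : ∫ z in (-1 : ℝ)..1, ‖rho W (-z)‖ ^ 2 ≤ 7 * r ^ 2 :=
    (rho_l2 W (by norm_num) (by linarith only [Real.pi_gt_three])).trans pi7
  have L2 : ∫ y in (-π)..π, ‖rho W y‖ ^ 2 ≤ 7 * r ^ 2 := (spl_rho_sq W).trans_le pi7
  have pp : -π ≤ π := by linarith only [Real.pi_pos]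
  have I1 : ∫ z in (-1 : ℝ)..1, ‖β z‖ ≤ 1 / (p * r) * (7 * r ^ 2) :=
    mid_int (by fun_prop) (by fun_prop) (by norm_num) (by positivity)
      (fun z => (b3 z).trans_eq (by ring)) L1
  have I2 : ∫ z in (-1 : ℝ)..1, ‖β z‖ ^ 2 ≤ 1 * (7 * r ^ 2) :=
    mid_int (by fun_prop) (by fun_prop) (by norm_num) zero_le_one
      (fun z => by rw [one_mul]; exact pow_le_pow_left₀ (norm_nonneg _) (b1 z) 2) L1
  have I4 : ∫ z in (-1 : ℝ)..1, ‖β z‖ ^ 4 ≤ X * #W * (1 * (7 * r ^ 2)) :=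
    mid_int (by fun_prop) (by fun_prop) (by norm_num) XR (fun z => by
      have h3 := pow_le_pow_left₀ (norm_nonneg _) (b2 z) 2
      rw [Real.sq_sqrt XR] at h3
      exact (show ‖β z‖ ^ 4 = ‖β z‖ ^ 2 * ‖β z‖ ^ 2 by ring).trans_le
        (mul_le_mul_of_nonneg_right h3 (sq_nonneg _))) I2
  have S4 : √(∫ z in (-1 : ℝ)..1, ‖β z‖ ^ 4) ≤ 3 * x ^ 2 * r ^ 2 := by
    rw [← x2, ← r2]
    exact blg_r4 (by linarith only [P1, PX]) (by linarith only [R1]) (by rwa [one_mul, ← r2] at I4)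
  have J1 : ∫ y in (-π)..π, ‖rho W y - clamp (p * r) (rho W y)‖ ≤ 1 / (p * r) * (7 * r ^ 2) :=
    mid_int ch.norm (by fun_prop) pp (by positivity)
      (fun z => (norm_sub_clamp_le_sq U0 _).trans_eq (by ring)) L2
  have J2 : ∫ y in (-π)..π, ‖rho W y - clamp (p * r) (rho W y)‖ ^ 2 ≤ 1 * (7 * r ^ 2) :=
    mid_int (ch.norm.pow 2) (by fun_prop) pp zero_le_one (fun z => by
      rw [one_mul]; exact pow_le_pow_left₀ (norm_nonneg _) (norm_sub_clamp_le U0 _) 2) L2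
  have S2 : √(∫ y in (-π)..π, ‖rho W y - clamp (p * r) (rho W y)‖ ^ 2) ≤ 3 * r :=
    Real.sqrt_le_iff.2 ⟨by positivity, J2.trans (by linarith only [R1, r2])⟩
  have e0 : TT N P β (rho W) = TT N P β (fun y => clamp (p * r) (rho W y)) +
      TT N P β (fun y => rho W y - clamp (p * r) (rho W y)) := by
    rw [← blg_tt_add N P hβ cg ch]
    congr 1
    funext y
    ring
  have t1 := th_norm N P hw.N1 hβ cg
  have t2 := blh_mono N P hw.N1 (f := fun z => ‖β z‖) (f' := fun z => ‖β z‖)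
    (H := fun y => ‖clamp (p * r) (rho W y)‖ + ‖clamp (p * r) (rho W (-y))‖)
    (g := fun z => ‖β z‖) (g' := fun z => ‖β z‖) (H' := fun _ => 1) (2 * (p * r)) hβ.norm hβ.norm
    (cg.norm.add (cg.comp continuous_neg).norm) hβ.norm hβ.norm continuous_const (Jst P)
    fun z _ z' _ => by
      have g1 : ∀ w : ℂ, ‖clamp (p * r) w‖ ≤ p * r := fun w => by
        rw [norm_clamp U0]; exact min_le_left _ _
      have g2 := mul_le_mul_of_nonneg_left (add_le_add (g1 (rho W (z - z'))) (g1 (rho W (-(z - z')))))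
        (mul_nonneg (norm_nonneg (β z)) (norm_nonneg (β z')))
      linarith only [g2]
  have t3 := h1 N T P X E 1 V W a hw (fun z => ‖β z‖) hβ.norm (fun z => norm_nonneg _) (Jst P)
  have t4 := h2 N T P X E 1 V W a hw β _ hβ ch
  have n1 := mid_num1 p1 px r0
    (intervalIntegral.integral_nonneg (by norm_num) fun z _ => norm_nonneg (β z)) I1 I2
  have n2 := mid_num2 p1 px r0
    (intervalIntegral.integral_nonneg pp fun z _ => norm_nonneg _) (Real.sqrt_nonneg _) I2 J1 S4 S2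
  rw [← p4] at n1 n2
  rw [← hx, ← hr, r2, e0]
  have M0 : 0 ≤ x ^ 7 * (r ^ 2 * r) := by
    have : 0 ≤ x := by linarith only [p1, px]
    positivity
  exact (norm_add_le _ _).trans (mid_fin c1 c2 E1 U0 M0 t1 t2 t3 n1 t4 n2)

end

section

/-! ### block BL2 -/

lemma bl2_ss : ∃ (C : ℝ) (k : ℕ), 0 < C ∧ ∀ (N T P X : ℕ) (E V : ℝ) (W : Finset ℤ) (a : ℕ → ℂ),
    World N T P X E 1 V W a → ∀ f : ℝ → ℂ, Adm W f →
      SS N P W f ≤ C * E ^ k * (N ^ 2 * X * #W / V ^ 2) + 4 * ‖TT N P f (rho W)‖ := by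
  obtain ⟨C1, hC1, H1⟩ := g12
  obtain ⟨C2, k2, hC2, H2⟩ := zero
  refine ⟨7 * C1 * C2, k2, by positivity, fun N T P X E V W a hw g hg => ?_⟩
  have E1 := hw.E1
  have V0 := hw.V0
  have hPX : (P : ℝ) ≤ X := by
    have := hw.PX
    exact_mod_cast (by omega : P ≤ X)
  have hc := hg.cont
  have l2 := blg_l2 hg
  have l20 : 0 ≤ ∫ z in (-1 : ℝ)..1, ‖g z‖ ^ 2 :=
    intervalIntegral.integral_nonneg (by norm_num) fun z _ => by positivity
  have A1 := H1 N T P X E 1 V W a hw g hc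
  have A2 := sym N P hw.N1 (f := fun z => ‖g z‖) (H := nu T (allp N)) hc.norm (cont_nu _ _)
    (nu_nonneg hw.T1 _) (nu_even (allp_swap N)) {0} (by simp)
  have A3 := H2 N T P X E 1 V W a hw (fun z => ‖g z‖ ^ 2) (by fun_prop) fun z => by positivity
  have h1 : C2 * E ^ k2 * (N ^ 2 * P * ∫ z in (-1 : ℝ)..1, ‖g z‖ ^ 2) ≤
      C2 * E ^ k2 * (N ^ 2 * X * (7 * #W)) := by gcongr
  have B1 : C1 / V ^ 2 * QQ N P (fun z => ‖g z‖) (fun z => ‖g z‖) (nu T (allp N)) {0} ≤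
      7 * C1 * C2 * E ^ k2 * (N ^ 2 * X * #W / V ^ 2) := by
    refine (mul_le_mul_of_nonneg_left ((A2.trans A3).trans h1) (by positivity)).trans
      (le_of_eq ?_)
    ring
  linarith

lemma bl2_clamp {W : Finset ℤ} {ψ : ℝ → ℂ} (hψ : Adm W ψ) {U : ℝ} (U0 : 0 < U) :
    Adm W (fun z => clamp U (ψ z)) :=
  ⟨(cont_clamp U0).comp hψ.cont,
    fun z => by rw [norm_clamp U0]; exact (min_le_right _ _).trans (hψ.le z),
    fun z hz => by rw [hψ.zero z hz, clamp_zero]⟩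

lemma bl2_rest {W : Finset ℤ} {ψ : ℝ → ℂ} (hψ : Adm W ψ) {U : ℝ} (U0 : 0 < U) :
    Adm W (fun z => ψ z - clamp U (ψ z)) :=
  ⟨hψ.cont.sub ((cont_clamp U0).comp hψ.cont),
    fun z => (norm_sub_clamp_le U0 _).trans (hψ.le z),
    fun z hz => by rw [hψ.zero z hz, clamp_zero, sub_zero]⟩

lemma bl2_rest_sq {W : Finset ℤ} {ψ : ℝ → ℂ} (hψ : Adm W ψ) {U : ℝ} (U0 : 0 < U) (z : ℝ) :
    ‖ψ z - clamp U (ψ z)‖ ≤ ‖rho W (-z)‖ ^ 2 / U :=
  (norm_sub_clamp_le_sq U0 _).trans (div_le_div_of_nonneg_right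
    (pow_le_pow_left₀ (norm_nonneg _) (hψ.le z) 2) U0.le)

lemma bl2_split (N P : ℕ) {W : Finset ℤ} {ψ : ℝ → ℂ} (hψ : Adm W ψ) {U : ℝ} (U0 : 0 < U) :
    SS N P W ψ ≤ 2 * SS N P W (fun z => clamp U (ψ z)) +
      2 * SS N P W (fun z => ψ z - clamp U (ψ z)) := by
  have A3 := blg_ss_add N P W (bl2_clamp hψ U0).cont (bl2_rest hψ U0).cont
  have e1 : (fun z => clamp U (ψ z) + (ψ z - clamp U (ψ z))) = ψ := by
    funext z
    ring
  rwa [e1] at A3

theorem block2 : ∃ (C : ℝ) (k : ℕ), 0 < C ∧ ∀ (N T P X : ℕ) (E V : ℝ) (W : Finset ℤ) (a : ℕ → ℂ),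
    World N T P X E 1 V W a → X ^ 2 ≤ N → ∀ ψ : ℝ → ℂ, Adm W ψ →
      SS N P W ψ ≤ C * E ^ k * (N ^ 2 * X * #W / V ^ 2 * (1 + T / V ^ 2) +
        (√(√(X : ℝ)) ^ 7 + √(√(N : ℝ)) * √(√(X : ℝ)) ^ 3) * (#W * √(#W : ℝ)) +
          X * √(X : ℝ) * #W * (√(T * N : ℝ) / V)) := by
  obtain ⟨C1, k1, hC1, H1⟩ := bl2_ss
  obtain ⟨C2, k2, hC2, H2⟩ := blockH2
  obtain ⟨C3, k3, hC3, H3⟩ := tt_main
  obtain ⟨C4, k4, hC4, H4⟩ := tt_mid
  refine ⟨8 * C1 + 2 * C2 + 16 * C3 + 16 * C4, k1 + k2 + k3 + k4, by positivity,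
    fun N T P X E V W a hw hX ψ hψ => ?_⟩
  have E1 := hw.E1
  have V0 := hw.V0
  have hR : (0 : ℝ) < #W := by exact_mod_cast hw.W1
  have P0 : (0 : ℝ) < P := by exact_mod_cast hw.P1
  have X0 : (0 : ℝ) < X := by
    have := hw.PX
    have := hw.P1
    exact_mod_cast (by omega : 0 < X)
  have U0 : 0 < √((X : ℝ) * #W) := Real.sqrt_pos.2 (by positivity)
  have Q0 : 0 < √(P : ℝ) * #W := mul_pos (Real.sqrt_pos.2 P0) hR
  have U1 : 0 < √(√(P : ℝ) * #W) := Real.sqrt_pos.2 Q0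
  have hg := bl2_clamp hψ U0
  have hh := bl2_rest hψ U0
  have hα := bl2_clamp hg U1
  have hβ := bl2_rest hg U1
  have S1 := bl2_split N P hψ U0
  have S2 := bl2_split N P hg U1
  have A1 := H1 N T P X E V W a hw _ hα
  have A2 := H1 N T P X E V W a hw _ hβ
  have A3 := H2 N T P X E V W a hw _ hh.cont hh.le (bl2_rest_sq hψ U0)
  have A4 := H3 N T P X E V W a hw hX _ hα fun z => by
    have h1 : ‖clamp (√(√(P : ℝ) * #W)) (clamp (√((X : ℝ) * #W)) (ψ z))‖ ≤ √(√(P : ℝ) * #W) := by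
      rw [norm_clamp U1]; exact min_le_left _ _
    have h2 := pow_le_pow_left₀ (norm_nonneg _) h1 2
    rwa [Real.sq_sqrt Q0.le] at h2
  have A5 := H4 N T P X E V W a hw _ hβ.cont hβ.le
    (fun z => (norm_sub_clamp_le U1 _).trans (by rw [norm_clamp U0]; exact min_le_left _ _))
    (bl2_rest_sq hg U1)
  have F1 : E ^ k1 ≤ E ^ (k1 + k2 + k3 + k4) := pow_le_pow_right₀ E1 (by omega)
  have F2 : E ^ k2 ≤ E ^ (k1 + k2 + k3 + k4) := pow_le_pow_right₀ E1 (by omega)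
  have F3 : E ^ k3 ≤ E ^ (k1 + k2 + k3 + k4) := pow_le_pow_right₀ E1 (by omega)
  have F4 : E ^ k4 ≤ E ^ (k1 + k2 + k3 + k4) := pow_le_pow_right₀ E1 (by omega)
  have F0 : 0 ≤ E ^ (k1 + k2 + k3 + k4) := by positivity
  have x0 : 0 ≤ (N : ℝ) ^ 2 * X * #W / V ^ 2 := by positivity
  have t0 : 0 ≤ (T : ℝ) / V ^ 2 := by positivity
  have y0 : 0 ≤ √(√(X : ℝ)) ^ 7 := by positivity
  have y1 : 0 ≤ √(√(N : ℝ)) * √(√(X : ℝ)) ^ 3 := by positivity
  have r0 : 0 ≤ (#W : ℝ) * √(#W : ℝ) := by positivity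
  have z0 : 0 ≤ (X : ℝ) * √(X : ℝ) * #W * (√(T * N : ℝ) / V) := by positivity
  generalize (N : ℝ) ^ 2 * X * #W / V ^ 2 = x at *
  generalize (T : ℝ) / V ^ 2 = t at *
  generalize √(√(N : ℝ)) * √(√(X : ℝ)) ^ 3 = y' at *
  generalize √(√(X : ℝ)) ^ 7 = y at *
  generalize (#W : ℝ) * √(#W : ℝ) = r at *
  generalize (X : ℝ) * √(X : ℝ) * #W * (√(T * N : ℝ) / V) = z at *
  have p1 : 0 ≤ x * t := mul_nonneg x0 t0
  have p2 : 0 ≤ y * r := mul_nonneg y0 r0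
  have p3 : 0 ≤ y' * r := mul_nonneg y1 r0
  generalize E ^ (k1 + k2 + k3 + k4) = F at *
  have B1 : C1 * E ^ k1 * x ≤ C1 * F * (x * (1 + t) + (y + y') * r + z) :=
    mul_le_mul (mul_le_mul_of_nonneg_left F1 hC1.le) (by linarith only [z0, p1, p2, p3]) x0 (by positivity)
  have B2 : C2 * E ^ k2 * (x * (1 + t)) ≤ C2 * F * (x * (1 + t) + (y + y') * r + z) :=
    mul_le_mul (mul_le_mul_of_nonneg_left F2 hC2.le) (by linarith only [z0, p2, p3]) (by linarith only [x0, p1]) (by positivity)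
  have B3 : C3 * E ^ k3 * ((y + y') * r + z) ≤ C3 * F * (x * (1 + t) + (y + y') * r + z) :=
    mul_le_mul (mul_le_mul_of_nonneg_left F3 hC3.le) (by linarith only [x0, p1]) (by linarith only [z0, p2, p3]) (by positivity)
  have B4 : C4 * E ^ k4 * (y * r) ≤ C4 * F * (x * (1 + t) + (y + y') * r + z) :=
    mul_le_mul (mul_le_mul_of_nonneg_left F4 hC4.le) (by linarith only [x0, z0, p1, p3]) p2 (by positivity)
  linarith only [S1, S2, A1, A2, A3, A5, A4, B1, B2, B3, B4]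

end

end Pool.Agent.MP_71ac24_nt.H54
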