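import Pool.Agent.MP_71ac24_nt.H54.Defs

attribute [-instance] AddQuantale.instAddLeftMono IdemSemiring.toCanonicallyOrderedAdd
  NumberField.to_charZero IdemSemiring.toMulLeftMono RKHS.instFunLike IsOrderedMonoid.toMulLeftMono
  LinearOrderedCommMonoidWithZero.toPosMulStrictMono bot_nonempty Quantale.instMulLeftMono
  instCoeTOfCoeDep AddQuantale.instAddRightMono Fintype.decidableForallFintype
  NonarchimedeanRing.toIsTopologicalRing GrpTypeEquivalenceGrp.grpGroup Nontrivial.to_nonempty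
  Quantale.instMulRightMono instCoeOTCOfCoeOut Zero.instNonempty instCoeHTCOfCoeHeadOfCoeOTC
  IdemSemiring.toMulRightMono CanonicallyOrderedAdd.toMulLeftMono continuousSub_of_discreteTopology
  One.instNonempty IsTopologicalTorsor.toContinuousSMul instCoeHTCTOfCoeTailOfCoeHTC NeZero.of_gt'
  NonUnitalAlgSemiHomClass.toDistribMulActionSemiHomClass
  IsRightCancelMul.mulRightReflectLE_of_mulRightReflectLT Valued.toUniformSpace instCoeTCOfCoe
  Valued.isTopologicalDivisionRing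

set_option autoImplicit false

namespace Pool.Agent.MP_71ac24_nt.H54

open Finset Real
open scoped ComplexConjugate
open Pool.Agent.MP_71ac24_nt.H14 (ei Sep ei_add norm_ei ei_zero conj_ei norm_ei_sub continuous_ei)
open Pool.Agent.MP_71ac24_nt.H17

section

/-! ### block FEJ -/

theorem fej_exp {L : ℕ} (hL : 1 ≤ L) : ∃ c : ℤ → ℝ, (∀ s, |c s| ≤ 1) ∧
    ∀ x : ℝ, ((Fej L x : ℝ) : ℂ) = ∑ s ∈ Sy L, (c s : ℂ) * ei (s * x) := by
  have L1 : (0 : ℝ) < L := by exact_mod_cast hL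
  refine ⟨fun s => (#{p ∈ range L ×ˢ range L | (p.1 : ℤ) - p.2 = s} : ℝ) / L, fun s => ?_,
    fun x => ?_⟩
  · rw [abs_of_nonneg (by positivity), div_le_one L1, Nat.cast_le]
    refine (card_le_card_of_injOn (t := range L) Prod.fst
      (fun p hp => (mem_product.1 (mem_filter.1 hp).1).1) fun p hp q hq e => ?_).trans_eq
      (card_range L)
    have h1 := (mem_filter.1 hp).2
    have h2 := (mem_filter.1 hq).2
    exact Prod.ext e (by omega)
  · have e1 : ((‖∑ k ∈ range L, ei (k * x)‖ ^ 2 : ℝ) : ℂ) =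
        ∑ p ∈ range L ×ˢ range L, ei ((((p.1 : ℤ) - p.2 : ℤ) : ℝ) * x) := by
      rw [Complex.ofReal_pow, ← Complex.mul_conj', map_sum, sum_mul_sum, ← sum_product']
      refine sum_congr rfl fun p _ => ?_
      rw [conj_ei, ← ei_add]
      congr 1
      push_cast
      ring
    rw [Fej, Complex.ofReal_div, e1, ← sum_fiberwise_of_maps_to (t := Sy L)
      (g := fun p : ℕ × ℕ => (p.1 : ℤ) - p.2) fun p hp => ?_, sum_div]
    · refine sum_congr rfl fun s _ => ?_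
      rw [sum_congr rfl (g := fun _ => ei (s * x)) fun p hp => by rw [(mem_filter.1 hp).2],
        sum_const, nsmul_eq_mul]
      push_cast
      ring
    · have h1 := mem_range.1 (mem_product.1 hp).1
      have h2 := mem_range.1 (mem_product.1 hp).2
      exact mem_Icc.2 ⟨by omega, by omega⟩

theorem fej_ge {L : ℕ} (hL : 1 ≤ L) {x : ℝ} (hx : |x| * L ≤ 1 / 2) :
    (L : ℝ) / 4 ≤ Fej L x := by
  have L1 : (0 : ℝ) < L := by exact_mod_cast hL
  have a2 : ‖∑ k ∈ range L, ((1 : ℂ) - ei (k * x))‖ ≤ L / 2 := by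
    refine (norm_sum_le_of_le (n := fun _ => 1 / 2) _ fun k hk => ?_).trans_eq (by
      rw [sum_const, card_range, nsmul_eq_mul, mul_one_div])
    rw [← ei_zero]
    refine (norm_ei_sub _ _).trans ?_
    have hk' : (k : ℝ) ≤ L := by exact_mod_cast (mem_range.1 hk).le
    rw [zero_sub, abs_neg, abs_mul, Nat.abs_cast]
    nlinarith only [hx, L1, hk']
  have a3 := norm_sub_norm_le (L : ℂ) (∑ k ∈ range L, ei (k * x))
  rw [sum_sub_distrib, sum_const, card_range, nsmul_eq_mul, mul_one] at a2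
  rw [Complex.norm_natCast] at a3
  have a4 := pow_le_pow_left₀ (by positivity)
    (show (L : ℝ) / 2 ≤ ‖∑ k ∈ range L, ei (k * x)‖ by linarith only [a2, a3]) 2
  rw [Fej, le_div_iff₀ L1]
  linarith only [a4]

end

section

lemma mjp_lip {a b c : ℝ} (hc : 0 < c) (ha : c ≤ a) (hb : c ≤ b) :
    |Real.log a - Real.log b| ≤ |a - b| / c := by
  have key : ∀ {a b : ℝ}, c ≤ a → c ≤ b → Real.log a - Real.log b ≤ |a - b| / c := fun {a b} ha hb => by
    have a0 : 0 < a := hc.trans_le ha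
    have b0 : 0 < b := hc.trans_le hb
    have h3 := Real.log_le_sub_one_of_pos (div_pos a0 b0)
    rw [Real.log_div a0.ne' b0.ne', div_sub_one b0.ne'] at h3
    exact h3.trans ((div_le_div_of_nonneg_right (le_abs_self _) b0.le).trans
      (div_le_div_of_nonneg_left (abs_nonneg _) hc hb))
  refine abs_le.2 ⟨?_, key ha hb⟩
  have := key hb ha
  rw [abs_sub_comm] at this
  linarith

lemma mjp_e : 0 < exp 1 ∧ exp 1 ≤ 2.72 ∧ exp 1 * exp 1 ≤ 7.4 ∧ exp 1 * exp 1 * exp 1 ≤ 21 := by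
  have e1 : exp 1 ≤ 2.72 := exp_one_lt_d9.le.trans (by norm_num)
  have e0 := exp_pos 1
  have e2 : exp 1 * exp 1 ≤ 7.4 := (mul_le_mul e1 e1 e0.le (by norm_num)).trans (by norm_num)
  exact ⟨e0, e1, e2, (mul_le_mul e2 e1 e0.le (by norm_num)).trans (by norm_num)⟩

lemma mjp_xi {P ξ : ℝ} (P1 : 1 ≤ P) (hξ : ξ ∈ Set.Icc (Real.log P - 1) (Real.log P + 2)) :
    P ≤ 2.72 * exp ξ ∧ exp ξ ≤ 7.4 * P := by
  obtain ⟨_, e1, e2, _⟩ := mjp_e
  have a := exp_le_exp.2 (show Real.log P ≤ ξ + 1 by linarith only [hξ.1])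
  rw [exp_log (by linarith only [P1]), exp_add] at a
  have b := exp_le_exp.2 (show ξ ≤ Real.log P + (1 + 1) by linarith only [hξ.2])
  rw [exp_add, exp_add, exp_log (by linarith only [P1])] at b
  exact ⟨by linarith only [mul_le_mul_of_nonneg_left e1 (exp_pos ξ).le, a],
    by linarith only [mul_le_mul_of_nonneg_left e2 (by linarith only [P1] : 0 ≤ P), b]⟩

/-- the pointwise majorant along the curve -/
theorem mjp_pt {N P J m n : ℕ} {sg p q ξ z : ℝ} (hN : 1 ≤ N) (hP : 1 ≤ P) (hJ : 1 ≤ J)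
    (hm : m ∈ Ico P (2 * P)) (hn : n ∈ Ico J (2 * J)) (hsg : sg = 1 ∨ sg = -1) (hpq : p ≤ q)
    (hp : exp p ≤ (J : ℝ) / P / 13) (hq1 : sg = 1 → 8 * ((J : ℝ) / P) ≤ exp q)
    (hq2 : sg = -1 → min (8 * ((J : ℝ) / P)) (20 / 21) ≤ exp q) (hq' : sg = -1 → exp q ≤ 20 / 21)
    (hξ : ξ ∈ Set.Icc (Real.log P - 1) (Real.log P + 2)) (hz : |z| ≤ 1) :
    tri (1 / (8 * N)) (m * exp z - exp ξ - sg * n) ≤ 2 ^ 15 / P * ∫ v in p..q,
      Fej (N * J) (ξ - Real.log n + v) *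
        Fej (N * P) (z - ξ + Real.log m - Real.log (1 + sg * exp v)) := by
  have N1 : (1 : ℝ) ≤ N := by exact_mod_cast hN
  have P1 : (1 : ℝ) ≤ P := by exact_mod_cast hP
  have J1 : (1 : ℝ) ≤ J := by exact_mod_cast hJ
  have δ0 : (0 : ℝ) < 1 / (8 * N) := by positivity
  have f0 : ∀ v, 0 ≤ Fej (N * J) (ξ - Real.log n + v) *
      Fej (N * P) (z - ξ + Real.log m - Real.log (1 + sg * exp v)) := fun v =>
    mul_nonneg (Fej_nonneg _ _) (Fej_nonneg _ _)
  by_cases h0 : tri (1 / (8 * N)) (m * exp z - exp ξ - sg * n) = 0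
  · rw [h0]
    exact mul_nonneg (by positivity) (intervalIntegral.integral_nonneg hpq fun v _ => f0 v)
  have h1 := lt_of_tri_ne δ0 h0
  have δ8 : (1 : ℝ) / (8 * N) ≤ 1 / 8 := one_div_le_one_div_of_le (by norm_num) (by linarith only [N1])
  have m1 : (P : ℝ) ≤ m := by exact_mod_cast (mem_Ico.1 hm).1
  have n1 : (J : ℝ) ≤ n := by exact_mod_cast (mem_Ico.1 hn).1
  have n2 : (n : ℝ) + 1 ≤ 2 * J := by exact_mod_cast (mem_Ico.1 hn).2
  have sg2 : sg * sg = 1 := by rcases hsg with h | h <;> simp [h]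
  have sg1 : |sg| = 1 := by rcases hsg with h | h <;> simp [h]
  obtain ⟨y, hy⟩ : ∃ y, y = sg * (m * exp z - exp ξ) := ⟨_, rfl⟩
  have y1 : |y - n| ≤ 1 / (8 * N) := by
    rw [show y - n = sg * (m * exp z - exp ξ - sg * n) by rw [hy]; linear_combination n * sg2,
      abs_mul, sg1, one_mul]
    exact h1.le
  have y2 := abs_le.1 (y1.trans δ8)
  have y0 : 0 < y := by linarith only [y2.1, J1, n1]
  have x0 := exp_pos ξ
  obtain ⟨x1, x2⟩ := mjp_xi P1 hξ
  obtain ⟨r, hr⟩ : ∃ r, r = y / exp ξ := ⟨_, rfl⟩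
  have r0 : 0 < r := by rw [hr]; positivity
  obtain ⟨om, hom⟩ : ∃ om, om = (J : ℝ) / P := ⟨_, rfl⟩
  rw [← hom] at hp hq1 hq2
  have om0 : 0 < om := by rw [hom]; positivity
  have omP : om * P = J := by rw [hom]; field_simp
  have r1 : r ≤ 5.44 * om := by
    rw [hr, div_le_iff₀ x0]
    linarith only [mul_le_mul_of_nonneg_left x1 om0.le, y2.2, n2, omP]
  have r2 : om / 9 ≤ r := by
    rw [hr, le_div_iff₀ x0]
    linarith only [mul_le_mul_of_nonneg_left x2 om0.le, y2.1, J1, n1, omP]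
  have u0 : exp (z - ξ + Real.log m) = 1 + sg * r := by
    rw [exp_add, exp_sub, exp_log (by linarith only [P1, m1]), hr, hy]
    field_simp
    linear_combination (exp ξ - m * exp z) * sg2
  have u1 : 1 / 21 ≤ 1 + sg * r := by
    rw [← u0]
    have a := Real.log_le_log (by linarith only [P1, δ0, δ8]) m1
    have b := exp_le_exp.2 (show -(1 + 1 + 1) ≤ z - ξ + Real.log m by
      linarith only [(abs_le.1 hz).1, hξ.2, a])
    refine le_trans ?_ b
    rw [exp_neg, exp_add, exp_add, one_div]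
    exact inv_anti₀ (by positivity) mjp_e.2.2.2
  have u2 : z - ξ + Real.log m = Real.log (1 + sg * r) := by rw [← u0, log_exp]
  obtain ⟨w, hw⟩ : ∃ w : ℝ, w = 1 / (256 * (N * J)) := ⟨_, rfl⟩
  have NJ : (1 : ℝ) ≤ N * J := one_le_mul_of_one_le_of_one_le N1 J1
  have w0 : 0 < w := by rw [hw]; positivity
  have w1 : w * (N * J) = 1 / 256 := by rw [hw]; field_simp
  have w2 : w ≤ 1 / 256 := by linarith only [mul_le_mul_of_nonneg_left NJ w0.le, w1]
  have win : ∀ v ∈ Set.Icc (Real.log r - w) (Real.log r), r * (1 - w) ≤ exp v ∧ exp v ≤ r :=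
    fun v hv => by
      have a := exp_le_exp.2 hv.1
      have b := exp_le_exp.2 hv.2
      rw [sub_eq_add_neg, exp_add, exp_log r0] at a
      rw [exp_log r0] at b
      exact ⟨le_trans (mul_le_mul_of_nonneg_left (by linarith only [add_one_le_exp (-w)]) r0.le) a, b⟩
  have i1 : p ≤ Real.log r - w := by
    have := (win _ ⟨le_rfl, by linarith only [w0]⟩).1
    refine exp_le_exp.1 (hp.trans (le_trans ?_ this))
    linarith only [mul_le_mul_of_nonneg_left w2 r0.le, r0, r2]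
  have i2 : Real.log r ≤ q := by
    refine exp_le_exp.1 ?_
    rw [exp_log r0]
    rcases hsg with h | h
    · linarith only [hq1 h, om0, r1]
    · refine le_trans (le_min (by linarith only [om0, r1]) ?_) (hq2 h)
      rw [h] at u1; linarith only [u1]
  have cf : ContinuousOn (fun v => Fej (N * J) (ξ - Real.log n + v) *
      Fej (N * P) (z - ξ + Real.log m - Real.log (1 + sg * exp v))) (Set.Icc p q) := by
    refine ContinuousOn.mul (by fun_prop) ((cont_Fej _).comp_continuousOn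
      (continuousOn_const.sub (ContinuousOn.log (by fun_prop) fun v hv => ne_of_gt ?_)))
    have b := exp_pos v
    rcases hsg with h | h
    · rw [h]; linarith only [w0, w2, b]
    · have c := (exp_le_exp.2 hv.2).trans (hq' h)
      rw [h]; linarith only [w0, w2, c]
  have lo : ∀ v ∈ Set.Icc (Real.log r - w) (Real.log r), (N * J : ℝ) / 4 * ((N * P : ℝ) / 4) ≤
      Fej (N * J) (ξ - Real.log n + v) *
        Fej (N * P) (z - ξ + Real.log m - Real.log (1 + sg * exp v)) := fun v hv => by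
    have a := win v hv
    have b1 := fej_ge (L := N * J) (Nat.mul_pos hN hJ) (x := ξ - Real.log n + v) (by
      have c1 := mjp_lip (a := y) (b := n) (c := 7 / 8 * J) (by positivity) (by linarith only [y2.1, J1, n1])
        (by linarith only [n1])
      have c2 : Real.log r = Real.log y - ξ := by rw [hr, Real.log_div y0.ne' x0.ne', log_exp]
      have c3 : |y - n| / (7 / 8 * J) * (N * J) ≤ 1 / 7 := by
        refine (mul_le_mul_of_nonneg_right (div_le_div_of_nonneg_right y1 (by positivity))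
          (by positivity)).trans (le_of_eq ?_)
        field_simp
      have c4 : |ξ - Real.log n + v| ≤ |y - n| / (7 / 8 * J) + w := by
        have := abs_le.1 c1
        rw [abs_le]; constructor <;> linarith only [hv.1, hv.2, this.1, this.2, c2, w0]
      push_cast
      linarith only [mul_le_mul_of_nonneg_right c4 (by positivity : (0 : ℝ) ≤ N * J), w1, c3])
    have b2 := fej_ge (L := N * P) (Nat.mul_pos hN hP)
      (x := z - ξ + Real.log m - Real.log (1 + sg * exp v)) (by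
      have c0 : 1 / 21 ≤ 1 + sg * exp v := by
        have := exp_pos v
        rcases hsg with h | h
        · rw [h]; linarith only [this]
        · rw [h] at u1 ⊢; linarith only [a.2, u1]
      have c1 := mjp_lip (c := 1 / 21) (by norm_num) u1 c0
      rw [show 1 + sg * r - (1 + sg * exp v) = sg * (r - exp v) by ring, abs_mul, sg1, one_mul,
        abs_of_nonneg (by linarith only [a.2] : 0 ≤ r - exp v)] at c1
      rw [u2]
      have c2 : (r - exp v) / (1 / 21) ≤ 21 * (5.44 * om * w) := by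
        have := mul_le_mul_of_nonneg_right r1 w0.le
        rw [div_le_iff₀ (by norm_num)]
        linarith only [a.1, this]
      have c3 : om * w * (N * P) = 1 / 256 := by rw [← w1, ← omP]; ring
      have c4 := mul_le_mul_of_nonneg_right (c1.trans c2) (by positivity : (0 : ℝ) ≤ N * P)
      push_cast
      linarith only [c3, c4])
    push_cast at b1 b2
    exact mul_le_mul b1 b2 (by positivity) (Fej_nonneg _ _)
  have wle : Real.log r - w ≤ Real.log r := by linarith only [w0]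
  have k1 := intervalIntegral.integral_mono_on wle intervalIntegrable_const
    ((cf.mono ((Set.uIcc_of_le wle).symm ▸ Set.Icc_subset_Icc i1 i2)).intervalIntegrable
      (μ := MeasureTheory.volume)) lo
  have k2 := intervalIntegral.integral_mono_interval i1 wle i2
    (Filter.Eventually.of_forall f0) ((Set.uIcc_of_le hpq ▸ cf).intervalIntegrable
      (μ := MeasureTheory.volume))
  rw [intervalIntegral.integral_const, smul_eq_mul, sub_sub_cancel] at k1
  refine (tri_le δ0 _).trans (le_trans (le_of_eq ?_)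
    (mul_le_mul_of_nonneg_left (k1.trans k2) (by positivity)))
  rw [hw]
  field_simp
  norm_num

lemma mjp_cv {σ ω κ : ℝ} (hσ : σ = 1 ∨ σ = -1) (ω0 : 0 < ω) (ω7 : ω ≤ 7) (k1 : 20 / 21 ≤ κ)
    (k2 : κ ≤ 56) (k3 : σ = -1 → κ ≤ 20 / 21) :
    Cv σ ω (Real.log (ω / 13)) (Real.log (min (8 * ω) κ)) := by
  have m0 : ω / 13 ≤ min (8 * ω) κ := le_min (by linarith only [ω0]) (by linarith only [ω7, k1])
  have p0 : 0 < ω / 13 := by positivity
  have eq : exp (Real.log (min (8 * ω) κ)) = min (8 * ω) κ := exp_log (p0.trans_le m0)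
  have ep : exp (Real.log (ω / 13)) = ω / 13 := exp_log p0
  have l1 := min_le_left (8 * ω) κ
  have l2 := min_le_right (8 * ω) κ
  refine ⟨hσ, ω0, ω7, Real.log_le_log p0 m0, exp_le_exp.1 ?_, ep.ge, eq.le.trans l1, ?_,
    eq.le.trans (l2.trans k2)⟩
  · have e1 : (2.7 : ℝ) ≤ exp 1 := le_trans (by norm_num) exp_one_gt_d9.le
    have e5 : (104 : ℝ) ≤ exp 5 := by
      rw [show (5 : ℝ) = (5 : ℕ) * 1 by norm_num, exp_nat_mul]
      exact le_trans (by norm_num) (pow_le_pow_left₀ (by norm_num) e1 5)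
    rw [exp_add, eq, ep]
    linarith only [mul_le_mul_of_nonneg_left e5 p0.le, l1]
  · rw [eq]
    rcases hσ with h | h
    · rw [h]; linarith only [ω0, m0]
    · rw [h]; linarith only [k3 h, l2]

theorem mj_pt : ∃ C : ℝ, 0 < C ∧ ∀ N P J : ℕ, 1 ≤ N → 1 ≤ P → 1 ≤ J → J ≤ 7 * P →
    ∀ σ : ℝ, (σ = 1 ∨ σ = -1) → ∃ p q : ℝ, Cv σ (J / P) p q ∧
      ∀ m ∈ Ico P (2 * P), ∀ n ∈ Ico J (2 * J),
        ∀ ξ ∈ Set.Icc (Real.log P - 1) (Real.log P + 2), ∀ z ∈ Set.Icc (-1 : ℝ) 1,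
          tri (1 / (8 * N)) (m * exp z - exp ξ - σ * n) ≤
            C / P * Mj σ p q (N * J) (N * P) (ξ - Real.log n) (z - ξ + Real.log m) := by
  refine ⟨2 ^ 15, by positivity, fun N P J hN hP hJ hJP σ hσ => ?_⟩
  have P0 : (0 : ℝ) < P := by exact_mod_cast hP
  have J0 : (0 : ℝ) < J := by exact_mod_cast hJ
  have ω0 : (0 : ℝ) < J / P := by positivity
  have ω7 : (J : ℝ) / P ≤ 7 := by
    rw [div_le_iff₀ P0]; exact_mod_cast hJP
  obtain ⟨κ, k1, k2, k3, k4⟩ : ∃ κ : ℝ, 20 / 21 ≤ κ ∧ κ ≤ 56 ∧ (σ = -1 → κ = 20 / 21) ∧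
      (σ = 1 → κ = 56) := by
    rcases hσ with h | h
    · exact ⟨56, by norm_num, le_rfl, fun a => by rw [h] at a; norm_num at a, fun _ => rfl⟩
    · exact ⟨20 / 21, le_rfl, by norm_num, fun _ => rfl, fun a => by rw [h] at a; norm_num at a⟩
  have cv := mjp_cv hσ ω0 ω7 k1 k2 fun a => (k3 a).le
  have eq : exp (Real.log (min (8 * ((J : ℝ) / P)) κ)) = min (8 * ((J : ℝ) / P)) κ :=
    exp_log (lt_min (by positivity) (by linarith only [k1]))
  refine ⟨_, _, cv, fun m hm n hn ξ hξ z hz => ?_⟩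
  refine (mjp_pt hN hP hJ hm hn hσ cv.pq (exp_log (by positivity)).le (fun a => ?_) (fun a => ?_)
    (fun a => ?_) hξ (abs_le.2 hz)).trans (le_of_eq ?_)
  · rw [eq, k4 a]; exact le_min le_rfl (by linarith only [ω7])
  · rw [eq, k3 a]
  · rw [eq, k3 a]; exact min_le_right _ _
  · congr 1
    refine intervalIntegral.integral_congr fun v hv => ?_
    rw [Set.uIcc_of_le cv.pq] at hv
    have := (cv.rng hv.1 hv.2).2.2.1
    rw [Uc_eq (by linarith only [this])]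

end

section

/-! ### block MJE -/

lemma mje_Mj (σ p q : ℝ) {L L' : ℕ} {c d : ℤ → ℝ}
    (hc : ∀ x : ℝ, ((Fej L x : ℝ) : ℂ) = ∑ s ∈ Sy L, (c s : ℂ) * ei (s * x))
    (hd : ∀ x : ℝ, ((Fej L' x : ℝ) : ℂ) = ∑ s ∈ Sy L', (d s : ℂ) * ei (s * x)) (a u : ℝ) :
    ((Mj σ p q L L' a u : ℝ) : ℂ) = ∑ r ∈ Sy L ×ˢ Sy L',
      ((c r.1 : ℂ) * d r.2 * ei (r.1 * a) * ei (r.2 * u)) * Bk σ p q r.1 r.2 := by
  unfold Mj Bk
  rw [← intervalIntegral.integral_ofReal]
  simp only [← intervalIntegral.integral_const_mul]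
  rw [← intervalIntegral.integral_finsetSum fun r _ =>
    Continuous.intervalIntegrable (by fun_prop) _ _]
  refine intervalIntegral.integral_congr fun v _ => ?_
  simp only [Complex.ofReal_mul, hc, hd]
  rw [sum_mul_sum, sum_product]
  refine sum_congr rfl fun s' _ => sum_congr rfl fun s _ => ?_
  have e : ei (s' * (a + v)) * ei (s * (u - Uc σ v)) =
      ei (s' * a) * ei (s * u) * ei (s' * v - s * Uc σ v) := by
    rw [← ei_add, ← ei_add, ← ei_add]; congr 1; ring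
  linear_combination (c s' : ℂ) * d s * e

lemma mje_ii {ι : Type} (S : Finset ι) (k : ι → ℂ) (f : ι → ℝ → ℝ → ℂ)
    (hf : ∀ i, Continuous (f i).uncurry) (a b c d : ℝ) :
    ∫ x in a..b, ∫ y in c..d, ∑ i ∈ S, k i * f i x y =
      ∑ i ∈ S, k i * ∫ x in a..b, ∫ y in c..d, f i x y := by
  rw [tri_isum S (f := fun i x y => k i * f i x y) fun i => continuous_const.mul (hf i)]
  simp only [intervalIntegral.integral_const_mul]

theorem mj_exp (N P J : ℕ) (hN : 1 ≤ N) (hP : 1 ≤ P) (hJ : 1 ≤ J) (σ p q : ℝ)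
    {Ψ : ℝ → ℝ → ℝ} (hΨ : Continuous Ψ.uncurry) : ∃ x y : ℤ → ℂ,
      (∀ s : ℤ, ‖x s‖ ≤ ‖ZD J s‖) ∧ (∀ s : ℤ, ‖y s‖ ≤ ‖ZD P s‖) ∧
      ((∑ m ∈ Ico P (2 * P), ∑ n ∈ Ico J (2 * J), ∫ ξ in (Real.log P - 1)..(Real.log P + 2),
        ∫ η in (-Real.log P - 3)..(-Real.log P + 2),
          Ψ ξ η * Mj σ p q (N * J) (N * P) (ξ - Real.log n) (η + Real.log m) : ℝ) : ℂ) =
        FS N P J σ p q x y Ψ := by
  obtain ⟨c, hc1, hc⟩ := fej_exp (L := N * J) (Nat.mul_pos hN hJ)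
  obtain ⟨d, hd1, hd⟩ := fej_exp (L := N * P) (Nat.mul_pos hN hP)
  have nb : ∀ (t : ℝ) (z : ℂ), |t| ≤ 1 → ‖(t : ℂ) * z‖ ≤ ‖z‖ := fun t z ht => by
    rw [norm_mul, Complex.norm_real, Real.norm_eq_abs]
    exact mul_le_of_le_one_left (norm_nonneg _) ht
  refine ⟨fun s => c s * conj (ZD J s), fun s => d s * ZD P s, fun s => ?_, fun s => nb _ _ (hd1 s), ?_⟩
  · exact (nb _ _ (hc1 s)).trans (le_of_eq (Complex.norm_conj _))
  have key : ∀ m n : ℕ, ((∫ ξ in (Real.log P - 1)..(Real.log P + 2),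
      ∫ η in (-Real.log P - 3)..(-Real.log P + 2),
        Ψ ξ η * Mj σ p q (N * J) (N * P) (ξ - Real.log n) (η + Real.log m) : ℝ) : ℂ) =
      ∑ r ∈ Sy (N * J) ×ˢ Sy (N * P), ((c r.1 : ℂ) * conj (ei (r.1 * Real.log n)) *
        (d r.2 * ei (r.2 * Real.log m)) * Bk σ p q r.1 r.2) * GG P Ψ r.1 r.2 := by
    intro m n
    unfold GG
    have hΨ' : Continuous fun x : ℝ × ℝ => Ψ x.1 x.2 := hΨ
    rw [← mje_ii _ _ (fun (r : ℤ × ℤ) ξ η => ((Ψ ξ η : ℝ) : ℂ) * ei (r.1 * ξ) * ei (r.2 * η))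
      (fun r => by unfold Function.uncurry; fun_prop), ← intervalIntegral.integral_ofReal]
    refine intervalIntegral.integral_congr fun ξ _ => ?_
    rw [← intervalIntegral.integral_ofReal]
    refine intervalIntegral.integral_congr fun η _ => ?_
    simp only [Complex.ofReal_mul, mje_Mj σ p q hc hd]
    rw [mul_sum]
    refine sum_congr rfl fun r _ => ?_
    have e1 : ei (r.1 * (ξ - Real.log n)) = conj (ei (r.1 * Real.log n)) * ei (r.1 * ξ) := by
      rw [conj_ei, ← ei_add]; congr 1; ring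
    have e2 : ei (r.2 * (η + Real.log m)) = ei (r.2 * Real.log m) * ei (r.2 * η) := by
      rw [← ei_add]; congr 1; ring
    rw [e1, e2]; ring
  simp only [Complex.ofReal_sum, key]
  unfold FS ZD
  rw [← sum_product' (f := fun s' s => (c s' : ℂ) * conj (∑ n ∈ Ico J (2 * J), ei (s' * Real.log n)) *
    (d s * ∑ n ∈ Ico P (2 * P), ei (s * Real.log n)) * Bk σ p q s' s * GG P Ψ s' s)]
  simp only [sum_comm (s := Ico J (2 * J))]
  rw [sum_comm]
  refine sum_congr rfl fun r _ => ?_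
  simp only [map_sum, mul_sum, sum_mul]

end

section

lemma exp_dyadic (M : ℕ) (h : ℕ → ℝ) (h0 : ∀ n, 0 ≤ h n) :
    ∑ n ∈ Icc 1 M, h n ≤ ∑ k ∈ range (Nat.log 2 M + 1), ∑ n ∈ Ico (2 ^ k) (2 * 2 ^ k), h n := by
  rw [← sum_fiberwise_of_maps_to (s := Icc 1 M) (t := range (Nat.log 2 M + 1)) (g := Nat.log 2)
    (fun n hn => mem_range.2 (Nat.lt_succ_of_le (Nat.log_mono_right (mem_Icc.1 hn).2)))]
  refine sum_le_sum fun k _ => sum_le_sum_of_subset_of_nonneg (fun n hn => ?_) fun n _ _ => h0 n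
  obtain ⟨h1, rfl⟩ := mem_filter.1 hn
  have h2 : n ≠ 0 := by have := (mem_Icc.1 h1).1; omega
  refine mem_Ico.2 ⟨Nat.pow_log_le_self 2 h2, ?_⟩
  rw [← pow_succ']
  exact Nat.lt_pow_succ_log_self (by norm_num) n

lemma exp_sign {P : ℕ} (hP : 1 ≤ P) (g : ℝ → ℝ) (h0 : ∀ x, 0 ≤ g x) :
    ∑ j ∈ Jst P, g j ≤ ∑ n ∈ Icc 1 (7 * P), (g (1 * (n : ℝ)) + g (-1 * (n : ℝ))) := by
  rw [← sum_fiberwise_of_maps_to (s := Jst P) (t := Icc 1 (7 * P)) (g := Int.natAbs)
    (fun j hj => by simp only [Jst, Jall, mem_erase, mem_Icc] at hj ⊢; omega)]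
  refine sum_le_sum fun n hn => ?_
  have h1 := (mem_Icc.1 hn).1
  have h2 : ∑ j ∈ ({(n : ℤ), -(n : ℤ)} : Finset ℤ), g j = g (1 * (n : ℝ)) + g (-1 * (n : ℝ)) := by
    rw [sum_pair (by omega)]
    simp
  rw [← h2]
  refine sum_le_sum_of_subset_of_nonneg (fun j hj => ?_) fun j _ _ => h0 j
  have := (mem_filter.1 hj).2
  simp only [mem_insert, mem_singleton]
  omega

lemma exp_one {P : ℕ} {Ψ : ℝ → ℝ → ℝ} (hΨ : Continuous Ψ.uncurry) (h0 : ∀ ξ η, 0 ≤ Ψ ξ η)
    {K M : ℝ → ℝ → ℝ} (hK : Continuous K.uncurry) (hM : Continuous M.uncurry)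
    (hM0 : ∀ ξ η, 0 ≤ M ξ η) {c : ℝ} (hc : 0 ≤ c)
    (h : ∀ ξ ∈ Set.Icc (Real.log P - 1) (Real.log P + 2), ∀ z ∈ Set.Icc (-1 : ℝ) 1,
      K ξ z ≤ c * M ξ (z - ξ)) :
    ∫ ξ in (Real.log P - 1)..(Real.log P + 2), ∫ z in (-1 : ℝ)..1, Ψ ξ (z - ξ) * K ξ z ≤
      c * ∫ ξ in (Real.log P - 1)..(Real.log P + 2),
        ∫ η in (-Real.log P - 3)..(-Real.log P + 2), Ψ ξ η * M ξ η := by
  have s1 : Continuous fun x : ℝ × ℝ => (x.1, x.2 - x.1) := by fun_prop
  have c1 : Continuous (Function.uncurry fun ξ z => Ψ ξ (z - ξ) * K ξ z) :=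
    (hΨ.comp s1).mul hK
  have c2 : Continuous (Function.uncurry fun ξ η => Ψ ξ η * M ξ η) := hΨ.mul hM
  have c3 : Continuous (Function.uncurry fun ξ z => c * (Ψ ξ (z - ξ) * M ξ (z - ξ))) :=
    continuous_const.mul (c2.comp s1)
  refine (ii_mono c1 c3 (by linarith) (by norm_num) fun ξ hξ z hz => ?_).trans ?_
  · have := mul_le_mul_of_nonneg_left (h ξ hξ z hz) (h0 ξ (z - ξ))
    linarith
  · rw [← intervalIntegral.integral_const_mul]
    refine intervalIntegral.integral_mono_on (by linarith)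
      ((ii_cont c3 _ _).intervalIntegrable _ _)
      ((continuous_const.mul (ii_cont c2 _ _)).intervalIntegrable _ _) fun ξ hξ => ?_
    rw [intervalIntegral.integral_const_mul]
    refine mul_le_mul_of_nonneg_left ?_ hc
    rw [intervalIntegral.integral_comp_sub_right (fun η => Ψ ξ η * M ξ η) ξ]
    exact intervalIntegral.integral_mono_interval (by linarith [hξ.2]) (by linarith)
      (by linarith [hξ.1]) (Filter.Eventually.of_forall fun η => mul_nonneg (h0 _ _) (hM0 _ _))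
      ((c2.uncurry_left ξ).intervalIntegrable _ _)

lemma exp_cK (δ a c : ℝ) :
    Continuous (Function.uncurry fun ξ z : ℝ => tri δ (a * exp z - exp ξ - c)) := by
  unfold Function.uncurry
  fun_prop

lemma exp_cM (σ p q : ℝ) (L L' : ℕ) (a b : ℝ) :
    Continuous (Function.uncurry fun ξ η : ℝ => Mj σ p q L L' (ξ - a) (η + b)) := by
  have h1 : Continuous fun x : ℝ × ℝ => (x.1 - a, x.2 + b) := by fun_prop
  have h2 := (cont_Mj σ p q L L').comp h1
  generalize Mj σ p q L L' = M at h2 ⊢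
  exact h2

theorem ii_exp : ∃ C : ℝ, 0 < C ∧ ∀ N P : ℕ, 1 ≤ N → 1 ≤ P → ∀ Ψ : ℝ → ℝ → ℝ,
    Continuous Ψ.uncurry → (∀ ξ η, 0 ≤ Ψ ξ η) → ∀ Y : ℝ,
      (∀ J : ℕ, 1 ≤ J → J ≤ 7 * P → ∀ σ p q : ℝ, Cv σ (J / P) p q → ∀ x y : ℤ → ℂ,
        (∀ s : ℤ, ‖x s‖ ≤ ‖ZD J s‖) → (∀ s : ℤ, ‖y s‖ ≤ ‖ZD P s‖) →
          ‖FS N P J σ p q x y Ψ‖ ≤ Y) →
      II N P (fun ξ z => Ψ ξ (z - ξ)) ≤ C * ((Nat.log 2 (7 * P) : ℝ) + 1) / P * Y := by
  obtain ⟨C, hC, hpt⟩ := mj_pt
  refine ⟨2 * C, by positivity, fun N P hN hP Ψ hΨ h0 Y hY => ?_⟩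
  have N0 : (0 : ℝ) < N := by exact_mod_cast hN
  have P0 : (0 : ℝ) < P := by exact_mod_cast hP
  set A : ℕ → ℝ → ℝ := fun m c => ∫ ξ in (Real.log P - 1)..(Real.log P + 2),
    ∫ z in (-1 : ℝ)..1, Ψ ξ (z - ξ) * tri (1 / (8 * N)) (m * exp z - exp ξ - c) with hA
  have A0 : ∀ m c, 0 ≤ A m c := fun m c =>
    intervalIntegral.integral_nonneg (by linarith only []) fun _ _ =>
      intervalIntegral.integral_nonneg (by norm_num) fun _ _ =>
        mul_nonneg (h0 _ _) (tri_nonneg (by positivity) _)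
  have blk : ∀ J : ℕ, 1 ≤ J → J ≤ 7 * P → ∀ σ : ℝ, (σ = 1 ∨ σ = -1) →
      ∑ m ∈ Ico P (2 * P), ∑ n ∈ Ico J (2 * J), A m (σ * n) ≤ C / P * Y := by
    intro J hJ hJP σ hσ
    obtain ⟨p, q, hcv, hle⟩ := hpt N P J hN hP hJ hJP σ hσ
    obtain ⟨x, y, hx, hy, hFS⟩ := mj_exp N P J hN hP hJ σ p q hΨ
    have h1 := hY J hJ hJP σ p q hcv x y hx hy
    rw [← hFS, Complex.norm_real, Real.norm_eq_abs] at h1
    refine le_trans ?_ (mul_le_mul_of_nonneg_left ((le_abs_self _).trans h1) (by positivity))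
    rw [mul_sum]
    refine sum_le_sum fun m hm => ?_
    rw [mul_sum]
    refine sum_le_sum fun n hn => ?_
    exact exp_one (K := fun ξ z => tri (1 / (8 * N)) (m * exp z - exp ξ - σ * n))
      (M := fun ξ η => Mj σ p q (N * J) (N * P) (ξ - Real.log n) (η + Real.log m)) hΨ h0
      (exp_cK _ _ _) (exp_cM _ _ _ _ _ _ _)
      (fun _ _ => Mj_nonneg hcv.pq _ _ _ _) (by positivity) (hle m hm n hn)
  have h7 : 7 * P ≠ 0 := by omega
  calc II N P (fun ξ z => Ψ ξ (z - ξ)) = ∑ m ∈ Ico P (2 * P), ∑ j ∈ Jst P, A m j := rfl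
    _ ≤ ∑ m ∈ Ico P (2 * P), ∑ k ∈ range (Nat.log 2 (7 * P) + 1),
        ∑ n ∈ Ico (2 ^ k : ℕ) (2 * 2 ^ k), (A m (1 * (n : ℝ)) + A m (-1 * (n : ℝ))) :=
      sum_le_sum fun m _ => (exp_sign hP (A m) (A0 m)).trans
        (exp_dyadic _ _ fun n => add_nonneg (A0 _ _) (A0 _ _))
    _ ≤ ∑ k ∈ range (Nat.log 2 (7 * P) + 1), (C / P * Y + C / P * Y) := by
      rw [sum_comm]
      refine sum_le_sum fun k hk => ?_
      have hk1 : 2 ^ k ≤ 7 * P :=
        (Nat.pow_le_pow_right (by norm_num) (Nat.le_of_lt_succ (mem_range.1 hk))).trans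
          (Nat.pow_log_le_self 2 h7)
      simp only [sum_add_distrib]
      exact add_le_add (blk _ Nat.one_le_two_pow hk1 1 (Or.inl rfl))
        (blk _ Nat.one_le_two_pow hk1 (-1) (Or.inr rfl))
    _ = 2 * C * ((Nat.log 2 (7 * P) : ℝ) + 1) / P * Y := by
      rw [sum_const, card_range, nsmul_eq_mul]
      push_cast
      ring

end

section

/-- first derivative test for oscillatory integrals -/
theorem osc_one {φ φ' φ'' : ℝ → ℝ} {p q l : ℝ} (hpq : p ≤ q) (hl : 0 < l)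
    (h1 : ∀ y ∈ Set.Icc p q, HasDerivAt φ (φ' y) y)
    (h2 : ∀ y ∈ Set.Icc p q, HasDerivAt φ' (φ'' y) y) (hc : ContinuousOn φ'' (Set.Icc p q))
    (hs : (∀ y ∈ Set.Icc p q, 0 ≤ φ'' y) ∨ ∀ y ∈ Set.Icc p q, φ'' y ≤ 0)
    (h : ∀ y ∈ Set.Icc p q, l ≤ |φ' y|) : ‖∫ y in p..q, ei (φ y)‖ ≤ 4 / l := by
  have hu : Set.uIcc p q = Set.Icc p q := Set.uIcc_of_le hpq
  have hne : ∀ y ∈ Set.Icc p q, φ' y ≠ 0 := fun y hy => abs_pos.1 (hl.trans_le (h y hy))
  have c0 : ContinuousOn φ (Set.Icc p q) := fun y hy => (h1 y hy).continuousAt.continuousWithinAt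
  have c0' : ContinuousOn φ' (Set.Icc p q) := fun y hy => (h2 y hy).continuousAt.continuousWithinAt
  have d2 : ∀ y ∈ Set.uIcc p q, HasDerivAt (fun y => (φ' y)⁻¹) (-φ'' y / φ' y ^ 2) y :=
    fun y hy => (h2 y (hu ▸ hy)).inv (hne y (hu ▸ hy))
  have d3 : ∀ y ∈ Set.Icc p q, HasDerivAt (fun y => ei (φ y))
      (ei (φ y) * (Complex.I * ((φ' y : ℝ) : ℂ))) y := fun y hy =>
    ((h1 y hy).ofReal_comp.const_mul Complex.I).cexp
  have c1 : ContinuousOn (fun y => -φ'' y / φ' y ^ 2) (Set.uIcc p q) :=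
    hu ▸ hc.neg.div (c0'.pow 2) fun y hy => pow_ne_zero _ (hne y hy)
  have c2 : ContinuousOn (fun y => ei (φ y)) (Set.uIcc p q) :=
    hu ▸ continuous_ei.comp_continuousOn c0
  have c3 : ContinuousOn (fun y => Complex.I * ((-φ'' y / φ' y ^ 2 : ℝ) : ℂ) * ei (φ y))
      (Set.uIcc p q) :=
    (continuousOn_const.mul (Complex.continuous_ofReal.comp_continuousOn c1)).mul c2
  have d4 : ∀ y ∈ Set.uIcc p q, HasDerivAt
      (fun y => -Complex.I * (((φ' y)⁻¹ : ℝ) : ℂ) * ei (φ y))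
      (ei (φ y) - Complex.I * ((-φ'' y / φ' y ^ 2 : ℝ) : ℂ) * ei (φ y)) y := fun y hy => by
    have := (((d2 y hy).ofReal_comp.const_mul (-Complex.I)).mul (d3 y (hu ▸ hy)))
    refine this.congr_deriv ?_
    have h0 : ((φ' y : ℝ) : ℂ) ≠ 0 := Complex.ofReal_ne_zero.2 (hne y (hu ▸ hy))
    rw [Complex.ofReal_inv]
    generalize ((φ' y : ℝ) : ℂ) = w at h0 ⊢
    have : w⁻¹ * w = 1 := inv_mul_cancel₀ h0
    linear_combination (-(Complex.I ^ 2) * ei (φ y)) * this - ei (φ y) * Complex.I_sq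
  have e1 := intervalIntegral.integral_eq_sub_of_hasDerivAt d4
    (c2.intervalIntegrable.sub c3.intervalIntegrable)
  rw [intervalIntegral.integral_sub c2.intervalIntegrable c3.intervalIntegrable,
    sub_eq_iff_eq_add] at e1
  have e2 := intervalIntegral.integral_eq_sub_of_hasDerivAt d2 c1.intervalIntegrable
  have b1 : ∀ y ∈ Set.Icc p q, |(φ' y)⁻¹| ≤ 1 / l := fun y hy => by
    rw [abs_inv, one_div]; exact inv_anti₀ hl (h y hy)
  have b2 : ∀ y ∈ Set.Icc p q, ‖-Complex.I * (((φ' y)⁻¹ : ℝ) : ℂ) * ei (φ y)‖ ≤ 1 / l :=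
    fun y hy => by
      rw [norm_mul, norm_mul, norm_ei, norm_neg, Complex.norm_I, Complex.norm_real, one_mul, mul_one]
      exact b1 y hy
  have mp : p ∈ Set.Icc p q := ⟨le_rfl, hpq⟩
  have mq : q ∈ Set.Icc p q := ⟨hpq, le_rfl⟩
  have b3 : ‖∫ y in p..q, Complex.I * ((-φ'' y / φ' y ^ 2 : ℝ) : ℂ) * ei (φ y)‖ ≤
      1 / l + 1 / l := by
    refine (intervalIntegral.norm_integral_le_integral_norm hpq).trans ?_
    have n1 : ∀ y : ℝ, ‖Complex.I * ((-φ'' y / φ' y ^ 2 : ℝ) : ℂ) * ei (φ y)‖ =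
        |-φ'' y / φ' y ^ 2| := fun y => by
      rw [norm_mul, norm_mul, norm_ei, Complex.norm_I, Complex.norm_real, one_mul, mul_one,
        Real.norm_eq_abs]
    simp only [n1]
    have a1 := abs_le.1 (b1 p mp)
    have a2 := abs_le.1 (b1 q mq)
    rcases hs with hs | hs
    · rw [intervalIntegral.integral_congr (g := fun y => -(-φ'' y / φ' y ^ 2)) fun y hy =>
        abs_of_nonpos (div_nonpos_of_nonpos_of_nonneg (neg_nonpos.2 (hs y (hu ▸ hy))) (sq_nonneg _)),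
        intervalIntegral.integral_neg, e2]
      linarith only [a1.2, a2.1]
    · rw [intervalIntegral.integral_congr (g := fun y => -φ'' y / φ' y ^ 2) fun y hy =>
        abs_of_nonneg (div_nonneg (neg_nonneg.2 (hs y (hu ▸ hy))) (sq_nonneg _)), e2]
      linarith only [a1.1, a2.2]
  rw [e1]
  have a1 := b2 p mp
  have a2 := b2 q mq
  refine (norm_add_le _ _).trans ((add_le_add (norm_sub_le _ _) b3).trans ?_)
  have : 4 / l = 1 / l + 1 / l + (1 / l + 1 / l) := by ring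
  linarith only [a1, a2, this]

lemma osc_pos {φ φ' φ'' : ℝ → ℝ} {p q l : ℝ} (hpq : p ≤ q) (hl : 0 < l)
    (h1 : ∀ y ∈ Set.Icc p q, HasDerivAt φ (φ' y) y)
    (h2 : ∀ y ∈ Set.Icc p q, HasDerivAt φ' (φ'' y) y) (hc : ContinuousOn φ'' (Set.Icc p q))
    (hs : ∀ y ∈ Set.Icc p q, l ^ 2 ≤ φ'' y) : ‖∫ y in p..q, ei (φ y)‖ ≤ 10 / l := by
  have c0 : ContinuousOn φ (Set.Icc p q) := fun y hy => (h1 y hy).continuousAt.continuousWithinAt
  have c0' : ContinuousOn φ' (Set.Icc p q) := fun y hy => (h2 y hy).continuousAt.continuousWithinAt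
  have mv : ∀ x ∈ Set.Icc p q, ∀ y ∈ Set.Icc p q, x ≤ y → l ^ 2 * (y - x) ≤ φ' y - φ' x :=
    (convex_Icc p q).mul_sub_le_image_sub_of_le_deriv c0'
      (fun y hy => (h2 y (interior_subset hy)).differentiableAt.differentiableWithinAt)
      fun y hy => by rw [(h2 y (interior_subset hy)).deriv]; exact hs y (interior_subset hy)
  obtain ⟨c, hc1, hc2, hc3⟩ : ∃ c ∈ Set.Icc p q, (c = p ∨ φ' c ≤ 0) ∧ (c = q ∨ 0 ≤ φ' c) := by
    rcases le_total 0 (φ' p) with h | h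
    · exact ⟨p, ⟨le_rfl, hpq⟩, Or.inl rfl, Or.inr h⟩
    rcases le_total (φ' q) 0 with h' | h'
    · exact ⟨q, ⟨hpq, le_rfl⟩, Or.inr h', Or.inl rfl⟩
    obtain ⟨c, hc, e⟩ := intermediate_value_Icc hpq c0' ⟨h, h'⟩
    exact ⟨c, hc, Or.inr e.le, Or.inr e.ge⟩
  have il : 0 < 1 / l := by positivity
  have ll : l ^ 2 * (1 / l) = l := by field_simp
  have ii : ∀ {a b : ℝ}, p ≤ a → a ≤ b → b ≤ q →
      IntervalIntegrable (fun y => ei (φ y)) MeasureTheory.volume a b := fun ha hab hb =>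
    ((continuous_ei.comp_continuousOn c0).mono
      ((Set.uIcc_of_le hab).symm ▸ Set.Icc_subset_Icc ha hb)).intervalIntegrable
  have piece : ∀ {a b : ℝ}, p ≤ a → a ≤ b → b ≤ q → (a = b ∨ ∀ y ∈ Set.Icc a b, l ≤ |φ' y|) →
      ‖∫ y in a..b, ei (φ y)‖ ≤ 4 / l := fun {a b} ha hab hb h => by
    rcases h with h | h
    · rw [h, intervalIntegral.integral_same, norm_zero]; positivity
    have s := Set.Icc_subset_Icc ha hb
    exact osc_one hab hl (fun y hy => h1 y (s hy)) (fun y hy => h2 y (s hy)) (hc.mono s)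
      (Or.inl fun y hy => (sq_nonneg l).trans (hs y (s hy))) h
  have a1 : p ≤ max p (c - 1 / l) := le_max_left _ _
  have a2 : max p (c - 1 / l) ≤ c := max_le hc1.1 (by linarith only [il])
  have a3 : c ≤ min q (c + 1 / l) := le_min hc1.2 (by linarith only [il])
  have a4 : min q (c + 1 / l) ≤ q := min_le_left _ _
  have p1 := piece le_rfl a1 (a2.trans hc1.2) (by
    rcases le_total (c - 1 / l) p with h | h
    · exact Or.inl (max_eq_left h).symm
    · rw [max_eq_right h]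
      refine Or.inr fun y hy => le_abs.2 (Or.inr ?_)
      have m := mv y ⟨hy.1, by linarith only [hy.2, il, a3, a4]⟩ c hc1 (by linarith only [hy.2, il])
      have m2 : l ^ 2 * (1 / l) ≤ l ^ 2 * (c - y) :=
        mul_le_mul_of_nonneg_left (by linarith only [hy.2]) (sq_nonneg l)
      rcases hc2 with e | e
      · linarith only [il, h, e]
      · linarith only [ll, m, m2, e])
  have p3 := piece (hc1.1.trans a3) a4 le_rfl (by
    rcases le_total q (c + 1 / l) with h | h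
    · exact Or.inl (min_eq_left h)
    · rw [min_eq_right h]
      refine Or.inr fun y hy => le_abs.2 (Or.inl ?_)
      have m := mv c hc1 y ⟨by linarith only [hy.1, il, a1, a2], hy.2⟩ (by linarith only [hy.1, il])
      have m2 : l ^ 2 * (1 / l) ≤ l ^ 2 * (y - c) :=
        mul_le_mul_of_nonneg_left (by linarith only [hy.1]) (sq_nonneg l)
      rcases hc3 with e | e
      · linarith only [il, h, e]
      · linarith only [ll, m, m2, e])
  have p2 := intervalIntegral.norm_integral_le_of_norm_le_const (a := max p (c - 1 / l))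
    (b := min q (c + 1 / l)) (C := 1) (f := fun y => ei (φ y)) fun y _ => (norm_ei _).le
  have p2' : |min q (c + 1 / l) - max p (c - 1 / l)| ≤ 2 / l := by
    rw [abs_of_nonneg (by linarith only [a2, a3])]
    have := min_le_right q (c + 1 / l)
    have := le_max_right p (c - 1 / l)
    have : 2 / l = 1 / l + 1 / l := by ring
    linarith
  rw [← intervalIntegral.integral_add_adjacent_intervals (ii le_rfl a1 (a2.trans hc1.2))
    (ii a1 ((a2.trans a3).trans a4) le_rfl), ← intervalIntegral.integral_add_adjacent_intervals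
    (ii a1 (a2.trans a3) a4) (ii (hc1.1.trans a3) a4 le_rfl)]
  refine (norm_add_le _ _).trans ((add_le_add le_rfl (norm_add_le _ _)).trans ?_)
  have : 10 / l = 4 / l + (2 / l + 4 / l) := by ring
  linarith only [p1, p3, p2, p2', this]

/-- second derivative test for oscillatory integrals -/
theorem osc_two {φ φ' φ'' : ℝ → ℝ} {p q l : ℝ} (hpq : p ≤ q) (hl : 0 < l)
    (h1 : ∀ y ∈ Set.Icc p q, HasDerivAt φ (φ' y) y)
    (h2 : ∀ y ∈ Set.Icc p q, HasDerivAt φ' (φ'' y) y) (hc : ContinuousOn φ'' (Set.Icc p q))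
    (hs : (∀ y ∈ Set.Icc p q, l ≤ φ'' y) ∨ ∀ y ∈ Set.Icc p q, φ'' y ≤ -l) :
    ‖∫ y in p..q, ei (φ y)‖ ^ 2 * l ≤ 100 := by
  have r0 : 0 < √l := Real.sqrt_pos.2 hl
  have r2 : √l ^ 2 = l := Real.sq_sqrt hl.le
  have key : ‖∫ y in p..q, ei (φ y)‖ ≤ 10 / √l := by
    rcases hs with hs | hs
    · exact osc_pos hpq r0 h1 h2 hc fun y hy => r2.symm ▸ hs y hy
    · have := osc_pos (φ := fun y => -φ y) (φ' := fun y => -φ' y) (φ'' := fun y => -φ'' y) hpq r0
        (fun y hy => (h1 y hy).neg) (fun y hy => (h2 y hy).neg) hc.neg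
        fun y hy => by rw [r2]; linarith [hs y hy]
      simp only [← conj_ei] at this
      rwa [intervalIntegral.integral_of_le hpq, integral_conj, ← intervalIntegral.integral_of_le hpq,
        Complex.norm_conj] at this
  rw [le_div_iff₀ r0] at key
  have := pow_le_pow_left₀ (by positivity) key 2
  rw [mul_pow, r2] at this
  linarith

/-- decay of the curved kernel -/
theorem osc_curve {sg om p q : ℝ} (s s' : ℝ) (hsg : sg = 1 ∨ sg = -1) (hom : 0 < om) (hom7 : om ≤ 7)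
    (hpq : p ≤ q) (hp : om / 13 ≤ exp p) (hq : exp q ≤ 8 * om) (hq' : sg = -1 → exp q ≤ 20 / 21) :
    ‖∫ v in p..q, ei (s' * v - s * Real.log (1 + sg * exp v))‖ ≤ 5 ∧
    ‖∫ v in p..q, ei (s' * v - s * Real.log (1 + sg * exp v))‖ ^ 2 * (|s| * om + |s'|) ≤ 2 * 10 ^ 9 := by
  have e1 : ∀ v ∈ Set.Icc p q, om / 13 ≤ exp v ∧ exp v ≤ 8 * om := fun v hv =>
    ⟨hp.trans (exp_le_exp.2 hv.1), (exp_le_exp.2 hv.2).trans hq⟩
  have e2 : ∀ v ∈ Set.Icc p q, 1 / 21 ≤ 1 + sg * exp v ∧ 1 + sg * exp v ≤ 57 := fun v hv => by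
    have a := e1 v hv
    have b := exp_pos v
    rcases hsg with h | h
    · rw [h]; constructor <;> linarith only [a.2, b, hom7]
    · have c := (exp_le_exp.2 hv.2).trans (hq' h)
      rw [h]; constructor <;> linarith only [c, b]
  have e3 : ∀ v ∈ Set.Icc p q, 0 < 1 + sg * exp v := fun v hv => by linarith [(e2 v hv).1]
  have sg1 : |sg| = 1 := by rcases hsg with h | h <;> simp [h]
  have d0 : ∀ v : ℝ, HasDerivAt (fun v => 1 + sg * exp v) (sg * exp v) v := fun v =>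
    ((hasDerivAt_exp v).const_mul sg).const_add 1
  have h1 : ∀ v ∈ Set.Icc p q, HasDerivAt (fun v => s' * v - s * Real.log (1 + sg * exp v))
      (s' - s * (sg * exp v / (1 + sg * exp v))) v := fun v hv => by
    have := ((hasDerivAt_id v).const_mul s').sub (((d0 v).log (e3 v hv).ne').const_mul s)
    rwa [mul_one] at this
  have h2 : ∀ v ∈ Set.Icc p q, HasDerivAt (fun v => s' - s * (sg * exp v / (1 + sg * exp v)))
      (-(s * sg) * (exp v / (1 + sg * exp v) ^ 2)) v := fun v hv => by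
    have := (((((hasDerivAt_exp v).const_mul sg).div (d0 v) (e3 v hv).ne')).const_mul s).const_sub s'
    refine this.congr_deriv ?_
    have := (e3 v hv).ne'
    field_simp
    ring
  have hc : ContinuousOn (fun v => -(s * sg) * (exp v / (1 + sg * exp v) ^ 2)) (Set.Icc p q) :=
    continuousOn_const.mul (ContinuousOn.div (by fun_prop) (by fun_prop)
      fun v hv => pow_ne_zero _ (e3 v hv).ne')
  have lo : ∀ v ∈ Set.Icc p q, om / 42237 ≤ exp v / (1 + sg * exp v) ^ 2 := fun v hv => by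
    have a := pow_le_pow_left₀ (e3 v hv).le (e2 v hv).2 2
    rw [le_div_iff₀ (pow_pos (e3 v hv) 2)]
    have := mul_le_mul_of_nonneg_left a (by positivity : 0 ≤ om / 42237)
    linarith [(e1 v hv).1]
  have triv : ‖∫ v in p..q, ei (s' * v - s * Real.log (1 + sg * exp v))‖ ≤ 5 := by
    refine (intervalIntegral.norm_integral_le_of_norm_le_const (C := 1)
      fun y _ => (norm_ei _).le).trans ?_
    rw [one_mul, abs_of_nonneg (by linarith)]
    have a : exp q ≤ exp (p + 5) := by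
      have b : (104 : ℝ) ≤ exp 5 := by
        have c := exp_one_gt_d9
        have d : exp 5 = exp 1 ^ 5 := by rw [← exp_nat_mul]; norm_num
        rw [d]
        exact le_trans (by norm_num) (pow_le_pow_left₀ (by norm_num) c.le 5)
      rw [exp_add]
      nlinarith only [hom, hp, hq, b]
    linarith [exp_le_exp.1 a]
  refine ⟨triv, ?_⟩
  set B := ‖∫ v in p..q, ei (s' * v - s * Real.log (1 + sg * exp v))‖ with hB
  have B0 : 0 ≤ B := norm_nonneg _
  have so : 0 ≤ |s| * om := by positivity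
  rcases le_total (400 * (|s| * om)) |s'| with h | h
  · rcases (abs_nonneg s').eq_or_lt with z | z
    · have : |s| * om + |s'| = 0 := by linarith only [so, h, z]
      rw [this, mul_zero]; norm_num
    have k := osc_one (l := |s'| / 2) hpq (by linarith only [z]) h1 h2 hc (by
      rcases le_total 0 (-(s * sg)) with g | g
      · exact Or.inl fun v hv => mul_nonneg g (by positivity)
      · exact Or.inr fun v hv => mul_nonpos_of_nonpos_of_nonneg g (by positivity)) fun v hv => by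
        have a : |s * (sg * exp v / (1 + sg * exp v))| ≤ |s| * (168 * om) := by
          rw [abs_mul, abs_div, abs_mul, sg1, one_mul, abs_of_pos (exp_pos v), abs_of_pos (e3 v hv)]
          refine mul_le_mul_of_nonneg_left ?_ (abs_nonneg s)
          rw [div_le_iff₀ (e3 v hv)]
          nlinarith only [(e1 v hv).2, (e2 v hv).1, hom]
        have b := abs_sub_abs_le_abs_sub s' (s * (sg * exp v / (1 + sg * exp v)))
        linarith only [h, z, a, b]
    rw [← hB, le_div_iff₀ (by linarith only [z])] at k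
    have k2 : B * (|s| * om + |s'|) ≤ 9 := by nlinarith only [B0, h, k]
    nlinarith only [triv, B0, h, k]
  · rcases so.eq_or_lt with z | z
    · have : |s| * om + |s'| = 0 := by linarith only [abs_nonneg s', so, h, z]
      rw [this, mul_zero]; norm_num
    have ab : |-(s * sg)| = |s| := by rw [abs_neg, abs_mul, sg1, mul_one]
    have k := osc_two (l := |s| * (om / 42237)) hpq (by linarith only [z]) h1 h2 hc (by
      rcases le_total 0 (-(s * sg)) with g | g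
      · refine Or.inl fun v hv => ?_
        rw [← ab, abs_of_nonneg g]
        exact mul_le_mul_of_nonneg_left (lo v hv) g
      · refine Or.inr fun v hv => ?_
        rw [← ab, abs_of_nonpos g]
        have := mul_le_mul_of_nonpos_left (lo v hv) g
        linarith)
    rw [← hB] at k
    have k2 : B ^ 2 * (|s| * om + |s'|) ≤ B ^ 2 * (401 * (|s| * om)) :=
      mul_le_mul_of_nonneg_left (by linarith only [h]) (sq_nonneg B)
    linarith only [k, k2]

lemma op_pars (S : Finset ℤ) (d : ℤ → ℂ) {α β : ℝ} (h : |β - α| ≤ 2 * π) :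
    |∫ x in α..β, ‖∑ s ∈ S, d s * ei (s * x)‖ ^ 2| ≤ 2 * π * ∑ s ∈ S, ‖d s‖ ^ 2 := by
  have key : ∀ {α β : ℝ}, α ≤ β → β ≤ α + 2 * π →
      |∫ x in α..β, ‖∑ s ∈ S, d s * ei (s * x)‖ ^ 2| ≤ 2 * π * ∑ s ∈ S, ‖d s‖ ^ 2 :=
    fun {α β} h1 h2 => by
      rw [abs_of_nonneg (intervalIntegral.integral_nonneg h1 fun x _ => by positivity),
        ← parseval α S d]
      exact intervalIntegral.integral_mono_interval le_rfl h1 h2
        (Filter.Eventually.of_forall fun x => by positivity)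
        (Continuous.intervalIntegrable (by fun_prop) _ _)
  have h' := abs_le.1 h
  rcases le_total α β with g | g
  · exact key g (by linarith [h'.2])
  · rw [intervalIntegral.integral_symm, abs_neg]
    exact key g (by linarith [h'.1])

lemma op_cs {f g : ℝ → ℝ} {a b : ℝ} (hab : a ≤ b) (hf : ContinuousOn f (Set.Icc a b))
    (hg : ContinuousOn g (Set.Icc a b)) :
    (∫ x in a..b, f x * g x) ^ 2 ≤ (∫ x in a..b, f x ^ 2) * ∫ x in a..b, g x ^ 2 := by
  rw [← Set.uIcc_of_le hab] at hf hg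
  have := discrim_le_zero (a := ∫ x in a..b, f x ^ 2) (b := 2 * ∫ x in a..b, f x * g x)
    (c := ∫ x in a..b, g x ^ 2) fun t => by
      rw [← intervalIntegral.integral_const_mul, ← intervalIntegral.integral_mul_const,
        ← intervalIntegral.integral_mul_const,
        ← intervalIntegral.integral_add (ContinuousOn.intervalIntegrable (by fun_prop))
          (ContinuousOn.intervalIntegrable (by fun_prop)),
        ← intervalIntegral.integral_add (ContinuousOn.intervalIntegrable (by fun_prop))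
          (ContinuousOn.intervalIntegrable (by fun_prop))]
      exact intervalIntegral.integral_nonneg hab fun x _ => by linarith only [sq_nonneg (f x * t + g x)]
  unfold discrim at this
  linarith

/-- operator norm of the curved kernel -/
theorem osc_op {sg om p q : ℝ} (hsg : sg = 1 ∨ sg = -1) (hom : 0 < om) (hom7 : om ≤ 7)
    (hpq : p ≤ q) (hp : om / 13 ≤ exp p) (hq : exp q ≤ 8 * om) (hq' : sg = -1 → exp q ≤ 20 / 21)
    (S' S : Finset ℤ) (a b : ℤ → ℂ) :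
    ‖∑ s' ∈ S', ∑ s ∈ S, a s' * b s *
        ∫ v in p..q, ei (s' * v - s * Real.log (1 + sg * exp v))‖ ^ 2 * om ≤
      50000 * (∑ s' ∈ S', ‖a s'‖ ^ 2) * ∑ s ∈ S, ‖b s‖ ^ 2 := by
  have hu : Set.uIcc p q = Set.Icc p q := Set.uIcc_of_le hpq
  have e1 : ∀ v ∈ Set.Icc p q, om / 13 ≤ exp v ∧ exp v ≤ 8 * om := fun v hv =>
    ⟨hp.trans (exp_le_exp.2 hv.1), (exp_le_exp.2 hv.2).trans hq⟩
  have e2 : ∀ v ∈ Set.Icc p q, (sg = 1 ∧ 1 ≤ 1 + sg * exp v ∧ 1 + sg * exp v ≤ 57) ∨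
      (sg = -1 ∧ 1 / 21 ≤ 1 + sg * exp v ∧ 1 + sg * exp v ≤ 1) := fun v hv => by
    have a := e1 v hv
    have b := exp_pos v
    rcases hsg with h | h
    · refine Or.inl ⟨h, ?_⟩
      rw [h]; constructor <;> linarith only [a.2, b, hom7]
    · have c := (exp_le_exp.2 hv.2).trans (hq' h)
      refine Or.inr ⟨h, ?_⟩
      rw [h]; constructor <;> linarith only [c, b]
  have e3 : ∀ v ∈ Set.Icc p q, 0 < 1 + sg * exp v ∧ 1 + sg * exp v ≤ 57 := fun v hv => by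
    rcases e2 v hv with h | h <;> constructor <;> linarith only [h.2.1, h.2.2]
  have x5 : (104 : ℝ) ≤ exp 5 := by
    have c := exp_one_gt_d9
    have d : exp 5 = exp 1 ^ 5 := by rw [← exp_nat_mul]; norm_num
    rw [d]
    exact le_trans (by norm_num) (pow_le_pow_left₀ (by norm_num) c.le 5)
  have p3 := pi_gt_three
  have cU : ContinuousOn (fun v => -Real.log (1 + sg * exp v)) (Set.Icc p q) :=
    (ContinuousOn.log (by fun_prop) fun v hv => (e3 v hv).1.ne').neg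
  set A : ℝ → ℂ := fun v => ∑ s' ∈ S', a s' * ei (s' * v) with hA
  set Bf : ℝ → ℂ := fun u => ∑ s ∈ S, b s * ei (s * u) with hB
  have cA : Continuous A := by rw [hA]; fun_prop
  have cB : Continuous Bf := by rw [hB]; fun_prop
  have cBU := cB.comp_continuousOn cU
  have s1 : ∑ s' ∈ S', ∑ s ∈ S, a s' * b s *
      ∫ v in p..q, ei (s' * v - s * Real.log (1 + sg * exp v)) =
      ∫ v in p..q, A v * Bf (-Real.log (1 + sg * exp v)) := by
    have ci : ∀ s' s : ℤ, ContinuousOn (fun v => a s' * b s *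
        ei (s' * v - s * Real.log (1 + sg * exp v))) (Set.uIcc p q) := fun s' s => by
      rw [hu]
      refine continuousOn_const.mul (continuous_ei.comp_continuousOn ?_)
      have := (continuousOn_const (c := (s : ℝ))).mul cU
      exact ((continuousOn_const.mul continuousOn_id).add this).congr fun v _ => by
        simp only [Pi.add_apply, Pi.mul_apply, id]; ring
    simp only [← intervalIntegral.integral_const_mul]
    rw [sum_congr rfl fun s' _ =>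
      (intervalIntegral.integral_finsetSum fun s _ => (ci s' s).intervalIntegrable).symm,
      ← intervalIntegral.integral_finsetSum fun s' _ =>
        (continuousOn_finsetSum _ fun s _ => ci s' s).intervalIntegrable]
    refine intervalIntegral.integral_congr fun v _ => ?_
    simp only [hA, hB, sum_mul_sum]
    refine sum_congr rfl fun s' _ => sum_congr rfl fun s _ => ?_
    rw [sub_eq_add_neg, ei_add, mul_neg]
    ring
  have s2 : ‖∫ v in p..q, A v * Bf (-Real.log (1 + sg * exp v))‖ ^ 2 ≤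
      (∫ v in p..q, ‖A v‖ ^ 2) * ∫ v in p..q, ‖Bf (-Real.log (1 + sg * exp v))‖ ^ 2 := by
    refine le_trans ?_ (op_cs hpq cA.norm.continuousOn cBU.norm)
    refine pow_le_pow_left₀ (norm_nonneg _) ?_ 2
    refine (intervalIntegral.norm_integral_le_integral_norm hpq).trans_eq ?_
    simp only [norm_mul]
  have s3 : ∫ v in p..q, ‖A v‖ ^ 2 ≤ 2 * π * ∑ s' ∈ S', ‖a s'‖ ^ 2 := by
    refine (le_abs_self _).trans (op_pars S' a ?_)
    have a : exp q ≤ exp (p + 5) := by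
      rw [exp_add]
      nlinarith only [hom, hp, hq, x5]
    rw [abs_of_nonneg (by linarith only [hpq])]
    linarith only [exp_le_exp.1 a, p3]
  have dU : ∀ v ∈ Set.uIcc p q, HasDerivAt (fun v => -Real.log (1 + sg * exp v))
      (-(sg * exp v / (1 + sg * exp v))) v := fun v hv =>
    ((((hasDerivAt_exp v).const_mul sg).const_add 1).log (e3 v (hu ▸ hv)).1.ne').neg
  have cD : ContinuousOn (fun v => -(sg * exp v / (1 + sg * exp v))) (Set.uIcc p q) :=
    hu ▸ (ContinuousOn.div (by fun_prop) (by fun_prop) fun v hv => (e3 v hv).1.ne').neg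
  have s4 := intervalIntegral.integral_comp_mul_deriv (g := fun u => ‖Bf u‖ ^ 2) dU cD
    (by fun_prop)
  have l5 : ∀ {x : ℝ}, 0 < x → x ≤ 57 → Real.log x ≤ 5 := fun h0 h =>
    (Real.log_le_iff_le_exp h0).2 (by linarith only [x5, h])
  have l6 : ∀ {x : ℝ}, 1 / 21 ≤ x → -5 ≤ Real.log x := fun {x} h => by
    have := l5 (x := x⁻¹) (by positivity) (by
      rw [inv_le_comm₀ (by linarith only [h]) (by norm_num)]; linarith only [h])
    rw [Real.log_inv] at this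
    linarith only [this]
  have mp : p ∈ Set.Icc p q := ⟨le_rfl, hpq⟩
  have mq : q ∈ Set.Icc p q := ⟨hpq, le_rfl⟩
  have s5 := op_pars S b (α := -Real.log (1 + sg * exp p)) (β := -Real.log (1 + sg * exp q)) (by
    rw [abs_le]
    rcases e2 p mp with h | h <;> rcases e2 q mq with h' | h'
    · have := l5 (e3 p mp).1 h.2.2
      have := l5 (e3 q mq).1 h'.2.2
      have := Real.log_nonneg h.2.1
      have := Real.log_nonneg h'.2.1
      constructor <;> linarith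
    · linarith only [h.1, h'.1]
    · linarith only [h.1, h'.1]
    · have := l6 h.2.1
      have := l6 h'.2.1
      have := Real.log_nonpos (e3 p mp).1.le h.2.2
      have := Real.log_nonpos (e3 q mq).1.le h'.2.2
      constructor <;> linarith)
  have s6 : (∫ v in p..q, ‖Bf (-Real.log (1 + sg * exp v))‖ ^ 2) * (om / 741) ≤
      2 * π * ∑ s ∈ S, ‖b s‖ ^ 2 := by
    refine le_trans ?_ s5
    change _ ≤ |∫ x in _.._, ‖Bf x‖ ^ 2|
    rw [← s4, ← intervalIntegral.integral_mul_const]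
    have c1 : ContinuousOn (fun v => ‖Bf (-Real.log (1 + sg * exp v))‖ ^ 2) (Set.uIcc p q) :=
      hu ▸ cBU.norm.pow 2
    have lo : ∀ v ∈ Set.Icc p q, om / 741 ≤ exp v / (1 + sg * exp v) := fun v hv => by
      rw [le_div_iff₀ (e3 v hv).1]
      have := mul_le_mul_of_nonneg_left (e3 v hv).2 (by positivity : 0 ≤ om / 741)
      linarith only [(e1 v hv).1, this]
    rcases hsg with h | h
    · refine le_trans ?_ (neg_le_abs _)
      rw [← intervalIntegral.integral_neg]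
      refine intervalIntegral.integral_mono_on hpq (c1.mul continuousOn_const).intervalIntegrable
        (c1.mul cD).neg.intervalIntegrable fun v hv => ?_
      have := lo v hv
      simp only [Function.comp, mul_neg, neg_neg]
      refine mul_le_mul_of_nonneg_left ?_ (by positivity)
      rwa [h, one_mul] at this ⊢
    · refine le_trans ?_ (le_abs_self _)
      refine intervalIntegral.integral_mono_on hpq (c1.mul continuousOn_const).intervalIntegrable
        (c1.mul cD).intervalIntegrable fun v hv => ?_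
      have := lo v hv
      simp only [Function.comp]
      refine mul_le_mul_of_nonneg_left ?_ (by positivity)
      rw [h] at this ⊢
      rwa [neg_mul, one_mul, neg_div, neg_neg, ← one_mul (exp v), ← neg_mul, one_mul]
  rw [s1]
  have n1 : 0 ≤ ∑ s' ∈ S', ‖a s'‖ ^ 2 := by positivity
  have n2 : 0 ≤ ∑ s ∈ S, ‖b s‖ ^ 2 := by positivity
  have n3 : 0 ≤ ∫ v in p..q, ‖Bf (-Real.log (1 + sg * exp v))‖ ^ 2 :=
    intervalIntegral.integral_nonneg hpq fun x _ => by positivity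
  have p4 := pi_le_four
  generalize (∫ v in p..q, ‖Bf (-Real.log (1 + sg * exp v))‖ ^ 2) = I at *
  generalize (∑ s' ∈ S', ‖a s'‖ ^ 2) = x at *
  generalize (∑ s ∈ S, ‖b s‖ ^ 2) = y at *
  have t1 : I * om ≤ 741 * (8 * y) := by nlinarith only [p4, n2, s6]
  have t2 : (∫ v in p..q, ‖A v‖ ^ 2) ≤ 8 * x := by nlinarith only [p4, s3, n1]
  calc _ ≤ (8 * x) * I * om := by
        refine mul_le_mul_of_nonneg_right (s2.trans ?_) hom.le
        exact mul_le_mul_of_nonneg_right t2 n3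
    _ = 8 * x * (I * om) := by ring
    _ ≤ 8 * x * (741 * (8 * y)) := mul_le_mul_of_nonneg_left t1 (by positivity)
    _ ≤ _ := by linarith only [mul_nonneg n1 n2]

lemma bop_q {σ ω p q : ℝ} (h : Cv σ ω p q) (hs : σ = -1) : exp q ≤ 20 / 21 := by
  have := h.d1
  rw [hs] at this
  linarith

lemma bop_eq {σ ω p q : ℝ} (h : Cv σ ω p q) (s' s : ℤ) :
    Bk σ p q s' s = ∫ v in p..q, ei (s' * v - s * Real.log (1 + σ * exp v)) := by
  refine intervalIntegral.integral_congr fun v hv => ?_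
  rw [Set.uIcc_of_le h.pq] at hv
  have b := exp_pos v
  have : 1 / 22 ≤ 1 + σ * exp v := by
    rcases h.sg with g | g
    · rw [g]; linarith
    · have c := (exp_le_exp.2 hv.2).trans (bop_q h g)
      rw [g]; linarith only [c]
  simp only [Uc_eq this]

theorem bk_op : ∃ C : ℝ, 0 < C ∧ ∀ σ ω p q : ℝ, Cv σ ω p q → ∀ (A B : Finset ℤ) (x y : ℤ → ℂ),
    ‖∑ s' ∈ A, ∑ s ∈ B, x s' * y s * Bk σ p q s' s‖ ≤
      C / √ω * √(∑ s' ∈ A, ‖x s'‖ ^ 2) * √(∑ s ∈ B, ‖y s‖ ^ 2) := by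
  refine ⟨300, by norm_num, fun σ ω p q h A B x y => ?_⟩
  have k := osc_op h.sg h.ω0 h.ω7 h.pq h.lo h.hi (bop_q h) A B x y
  simp only [bop_eq h]
  have ω0 := h.ω0
  refine le_of_sq_le_sq ?_ (by positivity)
  rw [mul_pow, mul_pow, div_pow, sq_sqrt ω0.le, sq_sqrt (by positivity), sq_sqrt (by positivity),
    mul_assoc, div_mul_eq_mul_div, le_div_iff₀ ω0]
  have : 0 ≤ (∑ s' ∈ A, ‖x s'‖ ^ 2) * ∑ s ∈ B, ‖y s‖ ^ 2 := by positivity
  linarith

theorem bk_triv {σ ω p q : ℝ} (h : Cv σ ω p q) (s' s : ℤ) : ‖Bk σ p q s' s‖ ≤ 5 := by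
  rw [bop_eq h]
  exact (osc_curve s s' h.sg h.ω0 h.ω7 h.pq h.lo h.hi (bop_q h)).1

theorem bk_dec : ∃ C : ℝ, 0 < C ∧ ∀ σ ω p q : ℝ, Cv σ ω p q → ∀ s' s : ℤ,
    ‖Bk σ p q s' s‖ ^ 2 * (|(s : ℝ)| * ω + |(s' : ℝ)|) ≤ C := by
  refine ⟨2 * 10 ^ 9, by norm_num, fun σ ω p q h s' s => ?_⟩
  rw [bop_eq h]
  exact (osc_curve s s' h.sg h.ω0 h.ω7 h.pq h.lo h.hi (bop_q h)).2

end

section

/-! ### block STA -/

theorem sta_sqrt (A : Finset ℤ) (f g : ℤ → ℂ) {c : ℝ} (hc : 0 ≤ c)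
    (h : ∀ s, ‖f s‖ ≤ c * ‖g s‖) :
    √(∑ s ∈ A, ‖f s‖ ^ 2) ≤ c * √(∑ s ∈ A, ‖g s‖ ^ 2) := by
  have h1 : ∑ s ∈ A, ‖f s‖ ^ 2 ≤ c ^ 2 * ∑ s ∈ A, ‖g s‖ ^ 2 := by
    rw [Finset.mul_sum]
    refine Finset.sum_le_sum fun s _ => ?_
    rw [← mul_pow]
    exact pow_le_pow_left₀ (norm_nonneg _) (h s) 2
  calc √(∑ s ∈ A, ‖f s‖ ^ 2) ≤ √(c ^ 2 * ∑ s ∈ A, ‖g s‖ ^ 2) := Real.sqrt_le_sqrt h1
    _ = c * √(∑ s ∈ A, ‖g s‖ ^ 2) := by rw [Real.sqrt_mul (sq_nonneg c), Real.sqrt_sq hc]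

theorem sta_level (y : ℤ → ℂ) (n : ℕ) (hy : ∀ s, ‖y s‖ ≤ 2 ^ n) :
    ∃ l : ℤ → ℕ, ∀ s, l s ≤ n ∧ ‖y s‖ ≤ 2 ^ l s ∧ (l s = 0 ∨ (2 : ℝ) ^ l s < 2 * ‖y s‖) := by
  classical
  have hex : ∀ s, ∃ i : ℕ, ‖y s‖ ≤ 2 ^ i := fun s => ⟨n, hy s⟩
  refine ⟨fun s => Nat.find (hex s), fun s => ⟨Nat.find_min' _ (hy s), Nat.find_spec (hex s), ?_⟩⟩
  rcases h : Nat.find (hex s) with _ | m
  · exact Or.inl h
  · right
    have := Nat.find_min (hex s) (m := m) (by omega)
    simp only [h, pow_succ]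
    push Not at this
    linarith only [this]

theorem sta_rect {κ : Type} (M : Finset κ) (A B : Finset ℤ) (x y : ℤ → ℂ) (K : ℤ → ℤ → ℂ)
    (u v : κ → ℤ → ℂ) {β a b U V : ℝ} (hβ : 0 ≤ β) (ha : 0 ≤ a) (hb : 0 ≤ b)
    (hK : ∀ x' y' : ℤ → ℂ, ‖∑ s' ∈ A, ∑ s ∈ B, x' s' * y' s * K s' s‖ ≤
      β * √(∑ s' ∈ A, ‖x' s'‖ ^ 2) * √(∑ s ∈ B, ‖y' s‖ ^ 2))
    (hu : ∑ i ∈ M, ∑ s' ∈ A, ‖u i s'‖ ^ 2 ≤ U) (hv : ∑ i ∈ M, ∑ s ∈ B, ‖v i s‖ ^ 2 ≤ V)
    (hx : ∀ s, ‖x s‖ ≤ a) (hy : ∀ s, ‖y s‖ ≤ b) :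
    ‖∑ s' ∈ A, ∑ s ∈ B, x s' * y s * K s' s * ∑ i ∈ M, u i s' * v i s‖ ≤
      β * (a * b) * √U * √V := by
  have e : ∑ s' ∈ A, ∑ s ∈ B, x s' * y s * K s' s * ∑ i ∈ M, u i s' * v i s =
      ∑ i ∈ M, ∑ s' ∈ A, ∑ s ∈ B, (x s' * u i s') * (y s * v i s) * K s' s := by
    rw [Finset.sum_comm (s := M)]
    refine Finset.sum_congr rfl fun s' _ => ?_
    rw [Finset.sum_comm (s := M)]
    refine Finset.sum_congr rfl fun s _ => ?_
    rw [Finset.mul_sum]
    exact Finset.sum_congr rfl fun i _ => by ring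
  rw [e]
  have h1 : ∀ i ∈ M, ‖∑ s' ∈ A, ∑ s ∈ B, (x s' * u i s') * (y s * v i s) * K s' s‖ ≤
      β * (a * b) * (√(∑ s' ∈ A, ‖u i s'‖ ^ 2) * √(∑ s ∈ B, ‖v i s‖ ^ 2)) := by
    intro i _
    have p := sta_sqrt A (fun s => x s * u i s) (u i) ha fun s => by
      rw [norm_mul]; exact mul_le_mul_of_nonneg_right (hx s) (norm_nonneg _)
    have q := sta_sqrt B (fun s => y s * v i s) (v i) hb fun s => by
      rw [norm_mul]; exact mul_le_mul_of_nonneg_right (hy s) (norm_nonneg _)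
    calc _ ≤ β * √(∑ s' ∈ A, ‖x s' * u i s'‖ ^ 2) * √(∑ s ∈ B, ‖y s * v i s‖ ^ 2) :=
          hK (fun s => x s * u i s) (fun s => y s * v i s)
      _ ≤ β * (a * √(∑ s' ∈ A, ‖u i s'‖ ^ 2)) * (b * √(∑ s ∈ B, ‖v i s‖ ^ 2)) := by
          gcongr
      _ = _ := by ring
  have h2 : ∑ i ∈ M, √(∑ s' ∈ A, ‖u i s'‖ ^ 2) * √(∑ s ∈ B, ‖v i s‖ ^ 2) ≤ √U * √V := by
    refine (Real.sum_sqrt_mul_sqrt_le M (fun i => by positivity) (fun i => by positivity)).trans ?_
    gcongr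
  calc _ ≤ ∑ i ∈ M, β * (a * b) * (√(∑ s' ∈ A, ‖u i s'‖ ^ 2) * √(∑ s ∈ B, ‖v i s‖ ^ 2)) :=
        (norm_sum_le _ _).trans (Finset.sum_le_sum h1)
    _ = β * (a * b) * ∑ i ∈ M, √(∑ s' ∈ A, ‖u i s'‖ ^ 2) * √(∑ s ∈ B, ‖v i s‖ ^ 2) := by
        rw [Finset.mul_sum]
    _ ≤ β * (a * b) * (√U * √V) := by gcongr
    _ = _ := by ring

theorem stair {κ : Type} (M : Finset κ) (A B : Finset ℤ) (x y : ℤ → ℂ) (K G : ℤ → ℤ → ℂ)
    (u v : κ → ℤ → ℂ) {β Θ U V : ℝ} (n : ℕ) (hβ : 0 ≤ β) (hΘ : 0 ≤ Θ)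
    (hK : ∀ x' y' : ℤ → ℂ, ‖∑ s' ∈ A, ∑ s ∈ B, x' s' * y' s * K s' s‖ ≤
      β * √(∑ s' ∈ A, ‖x' s'‖ ^ 2) * √(∑ s ∈ B, ‖y' s‖ ^ 2))
    (hG : ∀ s' s, G s' s = ∑ i ∈ M, u i s' * v i s)
    (hu : ∑ i ∈ M, ∑ s' ∈ A, ‖u i s'‖ ^ 2 ≤ U) (hv : ∑ i ∈ M, ∑ s ∈ B, ‖v i s‖ ^ 2 ≤ V)
    (hx : ∀ s, ‖x s‖ ≤ Θ) (hy : ∀ s, ‖y s‖ ≤ 2 ^ n) :
    ‖∑ s' ∈ A, ∑ s ∈ B, x s' * y s * K s' s * G s' s‖ ≤ (n + 1) * β * Θ * √U * √V +
      ∑ r ∈ (A ×ˢ B).filter (fun r => Θ / 2 < ‖x r.1‖ * ‖y r.2‖),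
        ‖x r.1‖ * ‖y r.2‖ * ‖K r.1 r.2‖ * ‖G r.1 r.2‖ := by
  classical
  obtain ⟨l, hl⟩ := sta_level y n hy
  set xi : ℕ → ℤ → ℂ := fun i s => if ‖x s‖ * 2 ^ i ≤ Θ then x s else 0 with hxi
  set yi : ℕ → ℤ → ℂ := fun i s => if l s = i then y s else 0 with hyi
  have e : ∑ s' ∈ A, ∑ s ∈ B, x s' * y s * K s' s * G s' s =
      ∑ i ∈ range (n + 1), ∑ s' ∈ A, ∑ s ∈ B, xi i s' * yi i s * K s' s * ∑ m ∈ M, u m s' * v m s +
      ∑ s' ∈ A, ∑ s ∈ B,
        if ‖x s'‖ * 2 ^ l s ≤ Θ then 0 else x s' * y s * K s' s * G s' s := by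
    rw [Finset.sum_comm (s := range (n + 1)), ← Finset.sum_add_distrib]
    refine Finset.sum_congr rfl fun s' _ => ?_
    rw [Finset.sum_comm (s := range (n + 1)), ← Finset.sum_add_distrib]
    refine Finset.sum_congr rfl fun s _ => ?_
    rw [Finset.sum_eq_single (l s), ← hG]
    · simp only [hxi, hyi, if_true]
      split_ifs <;> ring
    · intro i _ hi
      simp only [hyi, if_neg (Ne.symm hi)]
      ring
    · intro h
      exact absurd (Finset.mem_range.2 (Nat.lt_succ_of_le (hl s).1)) h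
  rw [e]
  refine (norm_add_le _ _).trans (add_le_add ?_ ?_)
  · have h1 : ∀ i ∈ range (n + 1),
        ‖∑ s' ∈ A, ∑ s ∈ B, xi i s' * yi i s * K s' s * ∑ m ∈ M, u m s' * v m s‖ ≤
          β * Θ * √U * √V := by
      intro i _
      have p2 : (0 : ℝ) < 2 ^ i := by positivity
      have := sta_rect M A B (xi i) (yi i) K u v (a := Θ / 2 ^ i) (b := 2 ^ i) hβ (by positivity)
        p2.le hK hu hv (fun s => by
          simp only [hxi]
          split_ifs with h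
          · exact (le_div_iff₀ p2).2 h
          · rw [norm_zero]; positivity) (fun s => by
          simp only [hyi]
          split_ifs with h
          · rw [← h]; exact (hl s).2.1
          · rw [norm_zero]; positivity)
      rwa [div_mul_cancel₀ _ p2.ne'] at this
    refine (norm_sum_le _ _).trans ((Finset.sum_le_sum h1).trans (le_of_eq ?_))
    rw [Finset.sum_const, Finset.card_range, nsmul_eq_mul]
    push_cast
    ring
  · rw [← Finset.sum_product', Finset.sum_filter]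
    refine (norm_sum_le _ _).trans (Finset.sum_le_sum fun r _ => ?_)
    by_cases h : ‖x r.1‖ * 2 ^ l r.2 ≤ Θ
    · rw [if_pos h, norm_zero]
      split_ifs <;> positivity
    · have h' : Θ / 2 < ‖x r.1‖ * ‖y r.2‖ := by
        push Not at h
        rcases (hl r.2).2.2 with h0 | h0
        · rw [h0, pow_zero, mul_one] at h
          exact absurd (hx r.1) (not_le.2 h)
        · have := mul_le_mul_of_nonneg_left h0.le (norm_nonneg (x r.1))
          linarith only [h, this]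
      rw [if_neg h, if_pos h', norm_mul, norm_mul, norm_mul]

end

section

lemma klz_triv (A : ℕ) (s : ℝ) : ‖∑ n ∈ Ico A (2 * A), ei (s * Real.log n)‖ ≤ A := ZD_le A s

lemma klz_pos {A : ℕ} {s : ℝ} (hA : 3 ≤ A) (h0 : 0 < s) (hs : s ≤ A) :
    ‖∑ n ∈ Ico A (2 * A), ei (-s * Real.log n)‖ * s ≤ 26 * A := by
  have A3 : (3 : ℝ) ≤ A := by exact_mod_cast hA
  have p3 := pi_gt_three
  have p4 := pi_lt_d2
  have lo : ∀ x : ℝ, 1 < x → 1 / x ≤ Real.log x - Real.log (x - 1) := fun x hx => by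
    have h3 := Real.one_sub_inv_le_log_of_pos (div_pos (by linarith only [hx] : 0 < x) (by linarith only [hx] : 0 < x - 1))
    rw [Real.log_div (by linarith only [p3, p4, hx]) (by linarith only [hx]), inv_div] at h3
    refine le_trans (le_of_eq ?_) h3
    field_simp; ring
  have hi : ∀ x : ℝ, 1 < x → Real.log x - Real.log (x - 1) ≤ 1 / (x - 1) := fun x hx => by
    have h3 := Real.log_le_sub_one_of_pos (div_pos (by linarith : 0 < x) (by linarith only [hx] : 0 < x - 1))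
    rw [Real.log_div (by linarith) (by linarith only [hx])] at h3
    refine h3.trans (le_of_eq ?_)
    have : x - 1 ≠ 0 := by linarith only [hx]
    field_simp; ring
  have k := Pool.Agent.MP_e4c747_an.kusmin_landau (fun j => ei (-s * Real.log (2 * A - 1 - j)))
    (fun j => s / (2 * π) * (Real.log (2 * A - 1 - j) - Real.log (2 * A - 1 - j - 1))) A
    (l := s / (2 * π) * (1 / (2 * A))) (by positivity) (fun j => norm_ei _) (fun j _ => by
      simp only [ei]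
      rw [← Complex.exp_add, show (2 * A - 1 - ((j + 1 : ℕ) : ℝ) : ℝ) = 2 * A - 1 - j - 1 by
        push_cast; ring]
      congr 1
      generalize Real.log (2 * A - 1 - j - 1) = u
      generalize Real.log (2 * A - 1 - j) = v
      have : (π : ℂ) ≠ 0 := by exact_mod_cast pi_pos.ne'
      push_cast
      field_simp
      ring) (by
      refine mul_le_mul_of_nonneg_left (le_trans ?_ (lo _ (by push_cast; linarith only [A3, p3, p4]))) (by positivity)
      exact one_div_le_one_div_of_le (by push_cast; linarith only [A3, p3, p4]) (by push_cast; linarith only [p3, p4]))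
    (fun j hj => by
      have a : (j : ℝ) + 1 ≤ A := by exact_mod_cast hj
      refine mul_le_mul_of_nonneg_left ?_ (by positivity)
      have b1 := hi (2 * A - 1 - j) (by linarith only [A3, p3, p4, a])
      have b2 := lo (2 * A - 1 - ((j + 1 : ℕ) : ℝ)) (by push_cast; linarith only [A3, p3, p4, a])
      refine b1.trans (le_trans (le_of_eq ?_) b2)
      push_cast; ring) fun j hj => by
      have a : (j : ℝ) ≤ A := by exact_mod_cast hj
      have b1 := hi (2 * A - 1 - j) (by linarith only [A3, p3, p4, a])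
      have b2 : 1 / (2 * A - 1 - j - 1) ≤ 1 / ((A : ℝ) - 2) :=
        one_div_le_one_div_of_le (by linarith only [A3, p3, p4]) (by linarith only [a])
      refine (mul_le_mul_of_nonneg_left (b1.trans b2) (by positivity)).trans ?_
      rw [div_mul_div_comm, div_le_div_iff₀ (mul_pos (by linarith only [p3, p4]) (by linarith only [A3, p3, p4])) two_pos]
      nlinarith only [hs, A3, p3]
  have e1 : ∑ n ∈ Ico A (2 * A), ei (-s * Real.log n) =
      ∑ j ∈ range A, ei (-s * Real.log (2 * A - 1 - j)) := by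
    rw [sum_Ico_eq_sum_range, show 2 * A - A = A by omega, ← sum_range_reflect]
    refine sum_congr rfl fun j hj => ?_
    have := mem_range.1 hj
    congr 3
    rw [show A + (A - 1 - j) = 2 * A - (1 + j) by omega, Nat.cast_sub (by omega)]
    push_cast; ring
  rw [e1]
  refine (mul_le_mul_of_nonneg_right k h0.le).trans ?_
  rw [show 2 / (s / (2 * π) * (1 / (2 * A))) * s = 8 * π * A by field_simp; ring]
  nlinarith only [p4]

/-- Kusmin-Landau for a dyadic block -/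
theorem klz_max {A : ℕ} {s : ℝ} (hs : |s| ≤ A) :
    ‖∑ n ∈ Ico A (2 * A), ei (s * Real.log n)‖ * max 1 |s| ≤ 26 * A := by
  have t := klz_triv A s
  have A0 : (0 : ℝ) ≤ A := Nat.cast_nonneg A
  rcases le_total |s| 2 with h | h
  · refine (mul_le_mul t (max_le (by norm_num) h) (by positivity) A0).trans (by linarith)
  rw [max_eq_right (by linarith)]
  rcases lt_or_ge A 3 with g | g
  · have : (A : ℝ) ≤ 3 := by exact_mod_cast g.le
    exact (mul_le_mul t (hs.trans this) (abs_nonneg s) A0).trans (by linarith only [hs, h])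
  rcases le_total 0 s with s0 | s0
  · rw [abs_of_nonneg s0] at h hs ⊢
    have := klz_pos g (by linarith only [h]) hs
    rw [← Complex.norm_conj, map_sum] at this
    simpa only [conj_ei, neg_mul, neg_neg] using this
  · rw [abs_of_nonpos s0] at h hs ⊢
    have := klz_pos g (by linarith only [h] : 0 < -s) hs
    rwa [neg_neg] at this

/-- the sum over low frequencies -/
theorem klz_sum (A : ℕ) : ∑ s ∈ Icc (-(A : ℤ)) A, ‖∑ n ∈ Ico A (2 * A), ei (s * Real.log n)‖ ≤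
    26 * A * (3 + 2 * Real.log A) := by
  have h1 : ∀ s ∈ Icc (-(A : ℤ)) A, ‖∑ n ∈ Ico A (2 * A), ei (s * Real.log n)‖ ≤
      26 * A * (1 / max 1 |(s : ℝ)|) := fun s hs => by
    rw [mul_one_div, le_div_iff₀ (by positivity)]
    exact klz_max (by exact_mod_cast abs_le.2 (mem_Icc.1 hs))
  refine (sum_le_sum h1).trans ?_
  rw [← mul_sum]
  refine mul_le_mul_of_nonneg_left ?_ (by positivity)
  have h2 : ∀ M : ℕ, ∑ s ∈ Icc (-(M : ℤ)) M, (1 / max 1 |(s : ℝ)|) =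
      1 + 2 * ∑ r ∈ Icc 1 M, (1 / r : ℝ) := fun M => by
    induction M with
    | zero => simp only [CharP.cast_eq_zero, neg_zero, Icc_self, one_div, sum_singleton, Int.cast_zero, abs_zero, zero_le_one, sup_of_le_left, inv_one, Order.lt_one_iff, Icc_eq_empty_of_lt, sum_empty, mul_zero, add_zero]
    | succ M ih =>
      have e : Icc (-((M + 1 : ℕ) : ℤ)) (M + 1 : ℕ) =
          insert (-((M + 1 : ℕ) : ℤ)) (insert ((M + 1 : ℕ) : ℤ) (Icc (-(M : ℤ)) M)) := by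
        ext x; simp only [mem_Icc, mem_insert]; omega
      have m1 : max 1 |((M + 1 : ℕ) : ℝ)| = (M + 1 : ℕ) := by
        rw [Nat.abs_cast, max_eq_right (by exact_mod_cast Nat.succ_pos M)]
      rw [e, sum_insert (by simp only [mem_Icc, mem_insert]; omega),
        sum_insert (by simp only [mem_Icc]; omega), ih, sum_Icc_succ_top (by omega), Int.cast_neg,
        abs_neg, Int.cast_natCast, m1]
      ring
  rw [h2]
  linarith [Pool.Agent.MP_e4c747_an.harm_le A]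

theorem zd_kl : ∃ C : ℝ, 0 < C ∧ ∀ A : ℕ, 1 ≤ A → ∀ s : ℝ, 1 ≤ |s| → |s| ≤ A →
    ‖ZD A s‖ ≤ C * A / |s| := by
  refine ⟨26, by norm_num, fun A _ s h1 h2 => ?_⟩
  have h := klz_max h2
  rw [max_eq_right h1] at h
  rw [le_div_iff₀ (by linarith only [h1])]
  exact h

theorem zd_l1 : ∃ C : ℝ, 0 < C ∧ ∀ A : ℕ, 1 ≤ A →
    ∑ s ∈ Sy A, ‖ZD A s‖ ≤ C * A * (1 + Real.log A) := by
  refine ⟨78, by norm_num, fun A _ => (klz_sum A).trans ?_⟩
  have h1 : 0 ≤ Real.log A := Real.log_natCast_nonneg A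
  have h2 : (0 : ℝ) ≤ A := Nat.cast_nonneg A
  linarith only [mul_nonneg h1 h2]

end

section

lemma mom_rep {ι : Type} (Q : Finset ι) (ζ : ι → ℝ) (γ : ι → ℂ) {η : ℝ} (hη : 0 < η)
    (hζ : ∀ q ∈ Q, |ζ q| * η ≤ 1) :
    ∃ γ' : ι → ℂ, (∀ q ∈ Q, ‖γ' q‖ ≤ ‖γ q‖) ∧ ∀ y : ℝ, ‖∑ q ∈ Q, γ q * ei (ζ q * y)‖ ^ 2 ≤
      4 / η * ∫ x in y..(y + η), ‖∑ q ∈ Q, γ' q * ei (ζ q * x)‖ ^ 2 := by
  set I : ι → ℂ := fun q => ∫ s in (0 : ℝ)..η, ei (ζ q * s) with hI
  have hI2 : ∀ q ∈ Q, η / 2 ≤ ‖I q‖ := fun q hq => H14.ls_mean_ge hη (hζ q hq)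
  have hI0 : ∀ q ∈ Q, I q ≠ 0 := fun q hq h => by
    have := hI2 q hq
    rw [h, norm_zero] at this
    linarith
  refine ⟨fun q => γ q * (η / 2 : ℝ) / I q, fun q hq => ?_, fun y => ?_⟩
  · rw [norm_div, norm_mul, Complex.norm_real, Real.norm_of_nonneg (by positivity), mul_div_assoc]
    exact mul_le_of_le_one_right (norm_nonneg _) (div_le_one_of_le₀ (hI2 q hq) (norm_nonneg _))
  set G : ℝ → ℂ := fun x => ∑ q ∈ Q, γ q * (η / 2 : ℝ) / I q * ei (ζ q * x) with hG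
  have hGc : Continuous G := H14.ls_cont Q ζ _
  have e1 : ∫ x in y..(y + η), G x = ((η / 2 : ℝ) : ℂ) * ∑ q ∈ Q, γ q * ei (ζ q * y) := by
    simp only [hG]
    rw [intervalIntegral.integral_finsetSum fun q _ => Continuous.intervalIntegrable (by fun_prop) _ _,
      mul_sum]
    refine sum_congr rfl fun q hq => ?_
    have e2 : ∫ x in y..(y + η), ei (ζ q * x) = ei (ζ q * y) * I q := by
      have := intervalIntegral.integral_comp_add_left (f := fun x => ei (ζ q * x))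
        (a := 0) (b := η) y
      rw [add_zero] at this
      rw [← this, hI, ← intervalIntegral.integral_const_mul]
      congr 1
      funext s
      rw [← ei_add, mul_add]
    rw [intervalIntegral.integral_const_mul, e2]
    have := hI0 q hq
    field_simp
  have h1 : η / 2 * ‖∑ q ∈ Q, γ q * ei (ζ q * y)‖ ≤ ∫ x in y..(y + η), ‖G x‖ := by
    have := intervalIntegral.norm_integral_le_integral_norm (f := G) (μ := MeasureTheory.volume)
      (a := y) (b := y + η) (by linarith only [hη])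
    rwa [e1, norm_mul, Complex.norm_real, Real.norm_of_nonneg (by positivity)] at this
  have h2 := (pow_le_pow_left₀ (by positivity) h1 2).trans (H14.ls_cs hGc.norm y η hη)
  rw [div_mul_eq_mul_div, le_div_iff₀ hη]
  refine le_of_mul_le_mul_left ?_ hη
  calc η * (‖∑ q ∈ Q, γ q * ei (ζ q * y)‖ ^ 2 * η)
      = 4 * (η / 2 * ‖∑ q ∈ Q, γ q * ei (ζ q * y)‖) ^ 2 := by ring
    _ ≤ 4 * (η * ∫ x in y..(y + η), ‖G x‖ ^ 2) := by linarith only [h2]
    _ = _ := by ring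

/-- large sieve: values of a trigonometric polynomial at well distributed points -/
theorem mom_dual {ι : Type} (Q : Finset ι) (ζ : ι → ℝ) {L : ℕ} (hL : 1 ≤ L) {b ν : ℝ}
    (hζ : ∀ q ∈ Q, b ≤ ζ q ∧ ζ q ≤ b + 5)
    (hν : ∀ z : ℝ, (#{q ∈ Q | z ≤ ζ q ∧ ζ q ≤ z + 1 / L} : ℝ) ≤ ν) (S : Finset ℤ)
    (hS : ∀ t ∈ S, |t| ≤ L) (β : ℤ → ℂ) :
    ∑ q ∈ Q, ‖∑ t ∈ S, β t * ei (t * ζ q)‖ ^ 2 ≤ 26 * ν * L * ∑ t ∈ S, ‖β t‖ ^ 2 := by
  have L1 : (1 : ℝ) ≤ L := by exact_mod_cast hL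
  have hη : (0 : ℝ) < 1 / L := by positivity
  have hη1 : (1 : ℝ) / L ≤ 1 := by rw [div_le_one (by linarith only [L1])]; exact L1
  have ν0 : 0 ≤ ν := le_trans (Nat.cast_nonneg _) (hν 0)
  obtain ⟨β', h1, h2⟩ := mom_rep S (fun t => (t : ℝ)) β hη fun t ht => by
    rw [mul_one_div, div_le_one (by linarith only [L1])]; exact_mod_cast hS t ht
  refine (sum_le_sum fun q _ => h2 (ζ q)).trans ?_
  rw [← mul_sum]
  have p3 := pi_gt_three
  have p4 := pi_lt_d2
  have h3 := H14.overlap Q ζ (1 / L) b (b + 2 * π) ν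
    (fun x => ‖∑ t ∈ S, β' t * ei (t * x)‖ ^ 2) (by fun_prop) (fun x => by positivity) hη.le
    (by linarith only [p3]) (fun q hq => ⟨(hζ q hq).1, by linarith only [(hζ q hq).2, hη1, p3]⟩) hν
  rw [parseval] at h3
  have h4 : ∑ t ∈ S, ‖β' t‖ ^ 2 ≤ ∑ t ∈ S, ‖β t‖ ^ 2 :=
    sum_le_sum fun t ht => pow_le_pow_left₀ (norm_nonneg _) (h1 t ht) 2
  have n1 : 0 ≤ ∑ t ∈ S, ‖β' t‖ ^ 2 := by positivity
  calc _ ≤ 4 / (1 / L) * (ν * (2 * π * ∑ t ∈ S, ‖β' t‖ ^ 2)) :=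
        mul_le_mul_of_nonneg_left h3 (by positivity)
    _ = 8 * π * (ν * L * ∑ t ∈ S, ‖β' t‖ ^ 2) := by field_simp; ring
    _ ≤ 26 * (ν * L * ∑ t ∈ S, ‖β t‖ ^ 2) := by gcongr; linarith only [p3, p4]
    _ = _ := by ring

/-- mean value theorem over integers, for arbitrary coefficients -/
theorem mom_l2 {ι : Type} (Q : Finset ι) (ζ : ι → ℝ) {L : ℕ} (hL : 1 ≤ L) {b ν : ℝ}
    (hζ : ∀ q ∈ Q, b ≤ ζ q ∧ ζ q ≤ b + 5)
    (hν : ∀ z : ℝ, (#{q ∈ Q | z ≤ ζ q ∧ ζ q ≤ z + 1 / L} : ℝ) ≤ ν) (S : Finset ℤ)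
    (hS : ∀ t ∈ S, |t| ≤ L) (γ : ι → ℂ) :
    ∑ t ∈ S, ‖∑ q ∈ Q, γ q * ei (t * ζ q)‖ ^ 2 ≤ 26 * ν * L * ∑ q ∈ Q, ‖γ q‖ ^ 2 := by
  have ν0 : 0 ≤ ν := le_trans (Nat.cast_nonneg _) (hν 0)
  set β : ℤ → ℂ := fun t => conj (∑ q ∈ Q, γ q * ei (t * ζ q)) with hβ
  have h1 := mom_dual Q ζ hL hζ hν S hS β
  have h0 : ∑ t ∈ S, ‖β t‖ ^ 2 = ∑ t ∈ S, ‖∑ q ∈ Q, γ q * ei (t * ζ q)‖ ^ 2 := by
    simp only [hβ, Complex.norm_conj]
  have h2 : ((∑ t ∈ S, ‖∑ q ∈ Q, γ q * ei (t * ζ q)‖ ^ 2 : ℝ) : ℂ) =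
      ∑ q ∈ Q, γ q * ∑ t ∈ S, β t * ei (t * ζ q) := by
    rw [Complex.ofReal_sum]
    simp only [bil_sq, mul_sum]
    rw [sum_comm]
    refine sum_congr rfl fun t _ => ?_
    rw [sum_mul]
    exact sum_congr rfl fun q _ => by ring
  rw [h0] at h1
  have n0 : 0 ≤ ∑ t ∈ S, ‖∑ q ∈ Q, γ q * ei (t * ζ q)‖ ^ 2 := by positivity
  generalize (∑ t ∈ S, ‖∑ q ∈ Q, γ q * ei (t * ζ q)‖ ^ 2) = F at *
  have h3 : F ≤ ∑ q ∈ Q, ‖γ q‖ * ‖∑ t ∈ S, β t * ei (t * ζ q)‖ := by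
    refine (bil_re F).trans ?_
    rw [h2]
    exact (norm_sum_le _ _).trans_eq (sum_congr rfl fun q _ => norm_mul _ _)
  have h4 := (pow_le_pow_left₀ n0 h3 2).trans (sum_mul_sq_le_sq_mul_sq _ _ _)
  have n1 : 0 ≤ ∑ q ∈ Q, ‖γ q‖ ^ 2 := by positivity
  have h5 := h4.trans (mul_le_mul_of_nonneg_left h1 n1)
  rcases n0.eq_or_lt with h | h
  · rw [← h]; positivity
  · refine le_of_mul_le_mul_right ?_ h
    linarith only [h5]

lemma mom_cnt {ι : Type} (Q : Finset ι) (m : ι → ℕ) {L : ℕ} {D : ℝ} (D0 : 0 ≤ D)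
    (hm : ∀ q ∈ Q, 1 ≤ m q ∧ m q ≤ L) (hD : ∀ n, 1 ≤ n → n ≤ L → (#{q ∈ Q | m q = n} : ℝ) ≤ D)
    (z : ℝ) : (#{q ∈ Q | z ≤ Real.log (m q) ∧ Real.log (m q) ≤ z + 1 / L} : ℝ) ≤ 2 * D := by
  classical
  set F := {q ∈ Q | z ≤ Real.log (m q) ∧ Real.log (m q) ≤ z + 1 / L} with hF
  rcases F.eq_empty_or_nonempty with h | h
  · rw [h, card_empty, Nat.cast_zero]; positivity
  obtain ⟨q0, h0, hmin⟩ := exists_min_image F m h
  have a0 := mem_filter.1 h0
  have b0 := hm q0 a0.1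
  have close : ∀ q ∈ F, m q ≤ m q0 + 1 := fun q hq => by
    have a := mem_filter.1 hq
    have b := hm q a.1
    have x0 : (0 : ℝ) < m q0 := by exact_mod_cast b0.1
    have x1 : (0 : ℝ) < m q := by exact_mod_cast b.1
    have x2 : (m q : ℝ) ≤ L := by exact_mod_cast b.2
    have h3 := Real.one_sub_inv_le_log_of_pos (div_pos x1 x0)
    rw [Real.log_div x1.ne' x0.ne', inv_div] at h3
    have h5 : ((m q : ℝ) - m q0) / m q ≤ 1 / L := by
      rw [sub_div, div_self x1.ne']; linarith only [a.2.2, a0.2.1, h3]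
    rw [div_le_div_iff₀ x1 (by linarith only [x1, x2])] at h5
    have h7 : (m q : ℝ) - m q0 ≤ 1 := le_of_mul_le_mul_right (a := (L : ℝ)) (by linarith only [x2, h5]) (by linarith only [x1, x2])
    exact_mod_cast (show (m q : ℝ) ≤ m q0 + 1 by linarith only [h7])
  have sub : F ⊆ {q ∈ Q | m q = m q0} ∪ {q ∈ Q | m q = m q0 + 1 ∧ m q0 + 1 ≤ L} := fun q hq => by
    have a := (mem_filter.1 hq).1
    have := close q hq
    have := hmin q hq
    have := (hm q a).2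
    simp only [mem_union, mem_filter, a, true_and]
    omega
  have c1 := hD _ b0.1 b0.2
  have c2 : (#{q ∈ Q | m q = m q0 + 1 ∧ m q0 + 1 ≤ L} : ℝ) ≤ D := by
    by_cases g : m q0 + 1 ≤ L
    · simp only [g, and_true]; exact hD _ (by omega) g
    · simp only [g, and_false, filter_false, card_empty, Nat.cast_zero]; exact D0
  have c3 := (Nat.cast_le (α := ℝ)).2 ((card_le_card sub).trans (card_union_le _ _))
  rw [Nat.cast_add] at c3
  linarith only [c1, c2, c3]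

/-- moments of the sum of `n ^ (i s)` over a dyadic block -/
theorem mom_nat {A k L : ℕ} {E : ℝ} (hA : 1 ≤ A) (hk : k ≤ 7) (hL : (2 * A) ^ k ≤ L)
    (tau : ∀ n : ℕ, n ≠ 0 → n ≤ (2 * A) ^ k → (#n.divisors : ℝ) ≤ E) (S : Finset ℤ)
    (hS : ∀ s ∈ S, |s| ≤ L) :
    ∑ s ∈ S, ‖∑ n ∈ Ico A (2 * A), ei (s * Real.log n)‖ ^ (2 * k) ≤ 52 * E ^ k * L * A ^ k := by
  have p1 : 1 ≤ (2 * A) ^ k := Nat.one_le_pow _ _ (by omega)
  have E0 : 0 ≤ E := le_trans (Nat.cast_nonneg _) (tau 1 one_ne_zero p1)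
  set Q := Fintype.piFinset fun _ : Fin k => Ico A (2 * A) with hQ
  have r1 : ∀ q ∈ Q, A ^ k ≤ ∏ i, q i ∧ ∏ i, q i ≤ (2 * A) ^ k := fun q hq => by
    have a := fun i => mem_Ico.1 (Fintype.mem_piFinset.1 hq i)
    have := pow_card_le_prod univ q A fun i _ => (a i).1
    have := prod_le_pow_card univ q (2 * A) fun i _ => (a i).2.le
    simp_all
  have pA : 1 ≤ A ^ k := Nat.one_le_pow _ _ hA
  have h := mom_l2 Q (fun q => Real.log ((∏ i, q i : ℕ) : ℝ)) (L := L) (by omega)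
    (b := Real.log ((A ^ k : ℕ) : ℝ)) (ν := 2 * E ^ k) (fun q hq => by
      have a0 : (0 : ℝ) < (A ^ k : ℕ) := by exact_mod_cast pA
      have a1 : ((A ^ k : ℕ) : ℝ) ≤ (∏ i, q i : ℕ) := by exact_mod_cast (r1 q hq).1
      have a2 : ((∏ i, q i : ℕ) : ℝ) ≤ 2 ^ k * (A ^ k : ℕ) := by
        have := (r1 q hq).2
        rw [mul_pow] at this
        exact_mod_cast this
      refine ⟨Real.log_le_log a0 a1, (Real.log_le_log (by linarith only [a0, a1]) a2).trans ?_⟩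
      rw [Real.log_mul (by positivity) a0.ne', Real.log_pow]
      have : (k : ℝ) ≤ 7 := by exact_mod_cast hk
      nlinarith only [log_two_lt_d9, this])
    (mom_cnt Q (fun q => ∏ i, q i) (by positivity)
      (fun q hq => ⟨pA.trans (r1 q hq).1, (r1 q hq).2.trans hL⟩) fun n h1 _ => by
        by_cases g : n ≤ (2 * A) ^ k
        · have : {q ∈ Q | ∏ i, q i = n} ⊆ Fintype.piFinset fun _ : Fin k => n.divisors :=
            fun q hq => Fintype.mem_piFinset.2 fun i => Nat.mem_divisors.2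
              ⟨(mem_filter.1 hq).2 ▸ dvd_prod_of_mem q (mem_univ i), by omega⟩
          have c := (Nat.cast_le (α := ℝ)).2 (card_le_card this)
          rw [Fintype.card_piFinset, prod_const, card_univ, Fintype.card_fin, Nat.cast_pow] at c
          exact c.trans (pow_le_pow_left₀ (Nat.cast_nonneg _) (tau n (by omega) g) k)
        · rw [filter_eq_empty_iff.2 (show ∀ q ∈ Q, ¬ ∏ i, q i = n from
            fun q hq e => g (e ▸ (r1 q hq).2)), card_empty, Nat.cast_zero]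
          positivity) S hS fun _ => 1
  have e1 : ∀ s : ℤ, ‖∑ n ∈ Ico A (2 * A), ei (s * Real.log n)‖ ^ (2 * k) =
      ‖∑ q ∈ Q, (1 : ℂ) * ei (s * Real.log ((∏ i, q i : ℕ) : ℝ))‖ ^ 2 := fun s => by
    rw [mul_comm 2 k, pow_mul, ← norm_pow, hQ]
    congr 2
    rw [← Fin.prod_const, prod_univ_sum]
    refine sum_congr rfl fun q hq => ?_
    have a := fun i => mem_Ico.1 (Fintype.mem_piFinset.1 hq i)
    rw [one_mul, Nat.cast_prod, Real.log_prod fun i _ => by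
      have := (a i).1
      exact_mod_cast (by omega : q i ≠ 0), mul_sum]
    simp only [ei, Complex.ofReal_sum, mul_sum, Complex.exp_sum]
  simp only [e1]
  refine h.trans (le_of_eq ?_)
  simp only [norm_one, one_pow, sum_const, nsmul_eq_mul, mul_one, hQ, Fintype.card_piFinset,
    Nat.card_Ico, prod_const, card_univ, Fintype.card_fin]
  rw [show 2 * A - A = A by omega]
  push_cast
  ring

theorem mom : ∃ C : ℝ, 0 < C ∧ ∀ (A k : ℕ) (E Y : ℝ) (F : Finset ℤ), 1 ≤ A → k ≤ 7 → 1 ≤ E →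
    (∀ n : ℕ, n ≠ 0 → n ≤ (2 * A) ^ 7 → (#n.divisors : ℝ) ≤ E) → (2 * A : ℝ) ^ k ≤ Y →
    (∀ s ∈ F, |(s : ℝ)| ≤ Y) → ∑ s ∈ F, ‖ZD A s‖ ^ (2 * k) ≤ C * E ^ 7 * (Y * A ^ k) := by
  refine ⟨52, by norm_num, fun A k E Y F hA hk hE tau hY hF => ?_⟩
  have Y0 : 0 ≤ Y := le_trans (by positivity) hY
  have h := mom_nat (L := ⌊Y⌋₊) (E := E) hA hk (Nat.le_floor (by exact_mod_cast hY))
    (fun n h0 hn => tau n h0 (hn.trans (Nat.pow_le_pow_right (by omega) hk))) F fun s hs => by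
      rw [Int.natCast_floor_eq_floor Y0]
      exact Int.le_floor.2 (by exact_mod_cast hF s hs)
  refine h.trans ?_
  have a1 := Nat.floor_le Y0
  have a2 : E ^ k ≤ E ^ 7 := pow_le_pow_right₀ hE hk
  rw [mul_assoc (52 * E ^ k)]
  gcongr

end

section

/-- odd moments -/
lemma hi1_odd (S : Finset ℤ) (a : ℤ → ℝ) (i : ℕ) :
    (∑ s ∈ S, a s ^ (2 * i + 1)) ^ 2 ≤ (∑ s ∈ S, a s ^ (2 * i)) * ∑ s ∈ S, a s ^ (2 * (i + 1)) := by
  have := sum_mul_sq_le_sq_mul_sq S (fun s => a s ^ i) fun s => a s ^ (i + 1)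
  simp only [← pow_add, ← pow_mul] at this
  rwa [show 2 * i + 1 = i + (i + 1) by ring, mul_comm 2 i, mul_comm 2 (i + 1)]

lemma hi1_pow {x y : ℝ} {k : ℕ} (x0 : 0 ≤ x) (y0 : 0 ≤ y) (h : x ≤ 14 * y) (hk : k ≤ 6) :
    x ^ k ≤ 14 ^ 6 * y ^ k := by
  calc x ^ k ≤ (14 * y) ^ k := pow_le_pow_left₀ x0 h k
    _ = 14 ^ k * y ^ k := mul_pow _ _ _
    _ ≤ _ := by gcongr; norm_num

theorem high1 : ∃ C : ℝ, 0 < C ∧ ∀ (P J i : ℕ) (E S : ℝ) (D : Finset (ℤ × ℤ)), 1 ≤ P → 1 ≤ J →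
    J ≤ 7 * P → 1 ≤ i → i ≤ 6 → 1 ≤ E →
    (∀ n : ℕ, n ≠ 0 → n ≤ (14 * P) ^ 7 → (#n.divisors : ℝ) ≤ E) →
    (P : ℝ) ^ i ≤ S → S ≤ (P : ℝ) ^ (i + 1) →
    (∀ r ∈ D, |(r.1 : ℝ)| * P ≤ S * J ∧ |(r.2 : ℝ)| ≤ S ∧
      3 * P * √(J : ℝ) / 2 < ‖ZD J r.1‖ * ‖ZD P r.2‖) →
    ∑ r ∈ D, ‖ZD J r.1‖ ^ 2 * ‖ZD P r.2‖ ^ 2 ≤
      C * E ^ 14 * (S * (J / P) * (P ^ 2 * √(P : ℝ) * J)) := by
  obtain ⟨C, C0, hC⟩ := mom
  refine ⟨(C * 14 ^ 7) ^ 2, by positivity, fun P J i E S D hP hJ hJP i1 i6 E1 tau S1 S2 hD => ?_⟩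
  obtain ⟨m, rfl⟩ : ∃ m, i = m + 1 := ⟨i - 1, by omega⟩
  have P0 : (0 : ℝ) < P := by exact_mod_cast hP
  have J0 : (0 : ℝ) < J := by exact_mod_cast hJ
  have JP : (2 * J : ℝ) ≤ 14 * P := by
    have : (J : ℝ) ≤ 7 * P := by exact_mod_cast hJP
    linarith only [this]
  have S0 : 0 < S := (pow_pos P0 _).trans_le S1
  have tJ : ∀ n : ℕ, n ≠ 0 → n ≤ (2 * J) ^ 7 → (#n.divisors : ℝ) ≤ E := fun n h0 h =>
    tau n h0 (h.trans (Nat.pow_le_pow_left (by omega) 7))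
  have tP : ∀ n : ℕ, n ≠ 0 → n ≤ (2 * P) ^ 7 → (#n.divisors : ℝ) ≤ E := fun n h0 h =>
    tau n h0 (h.trans (Nat.pow_le_pow_left (by omega) 7))
  have big : ∀ x : ℝ, 0 ≤ x → x ≤ 14 ^ 7 * x := fun x h => by linarith only [h]
  have SP : (P : ℝ) ^ m ≤ S / P := by rw [le_div_iff₀ P0, ← pow_succ]; exact S1
  have SP' : S / P ≤ (P : ℝ) ^ (m + 1) := by rw [div_le_iff₀ P0, ← pow_succ]; exact S2
  have hT' : ∀ s ∈ D.image Prod.fst, |(s : ℝ)| ≤ S / P * J := fun s h => by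
    obtain ⟨r, hr, rfl⟩ := mem_image.1 h
    rw [div_mul_eq_mul_div, le_div_iff₀ P0]; exact (hD r hr).1
  have hT : ∀ s ∈ D.image Prod.snd, |(s : ℝ)| ≤ S := fun s h => by
    obtain ⟨r, hr, rfl⟩ := mem_image.1 h
    exact (hD r hr).2.1
  have m1 := hC J (m + 1) E (14 ^ 7 * (S / P * J)) (D.image Prod.fst) hJ (by omega) E1 tJ (by
    calc (2 * J : ℝ) ^ (m + 1) = (2 * J) ^ m * (2 * J) := pow_succ _ _
      _ ≤ (14 ^ 6 * (S / P)) * (14 * J) := by
        gcongr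
        · exact (hi1_pow (by positivity) P0.le JP (by omega)).trans (by gcongr)
        · norm_num
      _ = _ := by ring) fun s h => (hT' s h).trans (big _ (by positivity))
  have m2 := hC J (m + 1 + 1) E (14 ^ 7 * (P ^ (m + 1) * J)) (D.image Prod.fst) hJ (by omega) E1 tJ (by
    calc (2 * J : ℝ) ^ (m + 1 + 1) = (2 * J) ^ (m + 1) * (2 * J) := pow_succ _ _
      _ ≤ (14 ^ 6 * P ^ (m + 1)) * (14 * J) := by
        gcongr
        · exact hi1_pow (by positivity) P0.le JP (by omega)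
        · norm_num
      _ = _ := by ring) fun s h => ((hT' s h).trans (by gcongr)).trans (big _ (by positivity))
  have m3 := hC P (m + 1) E (14 ^ 7 * S) (D.image Prod.snd) hP (by omega) E1 tP (by
    calc (2 * P : ℝ) ^ (m + 1) ≤ 14 ^ 6 * P ^ (m + 1) :=
        hi1_pow (by positivity) P0.le (by linarith only [P0]) (by omega)
      _ ≤ _ := by gcongr <;> norm_num) fun s h => (hT s h).trans (big _ S0.le)
  have m4 := hC P (m + 1 + 1) E (14 ^ 7 * P ^ (m + 1 + 1)) (D.image Prod.snd) hP (by omega) E1 tP (by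
    rw [mul_pow]
    gcongr
    calc (2 : ℝ) ^ (m + 1 + 1) ≤ 2 ^ 7 := pow_le_pow_right₀ one_le_two (by omega)
      _ ≤ _ := by norm_num) fun s h => ((hT s h).trans S2).trans (big _ (by positivity))
  have E0 : 0 < E := by linarith only [E1]
  have o1 := (hi1_odd (D.image Prod.fst) (fun s => ‖ZD J s‖) (m + 1)).trans (mul_le_mul m1 m2
    (by positivity) (by positivity))
  have o2 := (hi1_odd (D.image Prod.snd) (fun s => ‖ZD P s‖) (m + 1)).trans (mul_le_mul m3 m4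
    (by positivity) (by positivity))
  have p0 : 0 < √(P : ℝ) := sqrt_pos.2 P0
  have q0 : 0 < √(J : ℝ) := sqrt_pos.2 J0
  have hp : √(P : ℝ) ^ 2 = P := sq_sqrt P0.le
  have hq : √(J : ℝ) ^ 2 = J := sq_sqrt J0.le
  have o3 : (∑ s ∈ D.image Prod.fst, ‖ZD J s‖ ^ (2 * (m + 1) + 1)) *
      ∑ s ∈ D.image Prod.snd, ‖ZD P s‖ ^ (2 * (m + 1) + 1) ≤
      (C * 14 ^ 7) ^ 2 * E ^ 14 * (S * (J / P) * (P ^ 2 * √(P : ℝ) * J)) *
        (P * √(J : ℝ)) ^ (2 * m + 1) := by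
    refine (abs_le_of_sq_le_sq' ?_ (by positivity)).2
    rw [mul_pow]
    refine (mul_le_mul o1 o2 (by positivity) (by positivity)).trans_eq ?_
    generalize √(P : ℝ) = p at p0 hp ⊢
    generalize √(J : ℝ) = q at q0 hq ⊢
    rw [← hp, ← hq]
    field_simp
    ring
  rw [sum_mul_sum, ← sum_product'] at o3
  refine le_of_mul_le_mul_right (le_trans ?_ o3)
    (by positivity : 0 < (P * √(J : ℝ)) ^ (2 * m + 1))
  rw [sum_mul]
  refine le_trans (sum_le_sum fun r hr => ?_) (sum_le_sum_of_subset_of_nonneg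
    (fun r hr => mem_product.2 ⟨mem_image_of_mem _ hr, mem_image_of_mem _ hr⟩)
    fun _ _ _ => by positivity)
  have h := (hD r hr).2.2
  have h' : P * √(J : ℝ) ≤ ‖ZD J r.1‖ * ‖ZD P r.2‖ := by linarith only [mul_pos P0 q0, h]
  calc _ ≤ ‖ZD J r.1‖ ^ 2 * ‖ZD P r.2‖ ^ 2 * (‖ZD J r.1‖ * ‖ZD P r.2‖) ^ (2 * m + 1) := by gcongr
    _ = _ := by ring

end

section

/-! ### block HI2 -/

lemma hi2_idx {x S : ℝ} (h1 : x ≤ S) (h7 : S ≤ x ^ 7) :
    ∃ i : ℕ, 1 ≤ i ∧ i ≤ 6 ∧ x ^ i ≤ S ∧ S ≤ x ^ (i + 1) := by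
  by_cases a2 : S ≤ x ^ 2
  · exact ⟨1, le_rfl, by norm_num, by simpa using h1, a2⟩
  by_cases a3 : S ≤ x ^ 3
  · exact ⟨2, by norm_num, by norm_num, (not_le.1 a2).le, a3⟩
  by_cases a4 : S ≤ x ^ 4
  · exact ⟨3, by norm_num, by norm_num, (not_le.1 a3).le, a4⟩
  by_cases a5 : S ≤ x ^ 5
  · exact ⟨4, by norm_num, by norm_num, (not_le.1 a4).le, a5⟩
  by_cases a6 : S ≤ x ^ 6
  · exact ⟨5, by norm_num, by norm_num, (not_le.1 a5).le, a6⟩
  exact ⟨6, by norm_num, le_rfl, (not_le.1 a6).le, h7⟩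

lemma hi2_shell {N P J : ℕ} (hP : 1 ≤ P) (hJ : 1 ≤ J) {s' s : ℤ} (h1 : s' ∈ Sy (N * J))
    (h2 : s ∈ Sy (N * P)) (h : (J : ℤ) < |s'| ∨ (P : ℤ) < |s|) :
    ∃ n : ℕ, 2 ^ n ≤ N ∧ |(s' : ℝ)| ≤ 2 ^ (n + 1) * J ∧ |(s : ℝ)| ≤ 2 ^ (n + 1) * P ∧
      2 ^ n * (J : ℝ) ≤ |(s : ℝ)| * (J / P) + |(s' : ℝ)| := by
  have P0 : (0 : ℝ) < P := by exact_mod_cast hP
  have J0 : (0 : ℝ) < J := by exact_mod_cast hJ
  have b1 : |(s' : ℝ)| ≤ N * J := by exact_mod_cast mem_Sy.1 h1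
  have b2 : |(s : ℝ)| ≤ N * P := by exact_mod_cast mem_Sy.1 h2
  have t1 : (1 : ℝ) ≤ max (|(s' : ℝ)| / J) (|(s : ℝ)| / P) := by
    rcases h with h | h
    · refine le_max_of_le_left ?_
      rw [le_div_iff₀ J0, one_mul]
      exact_mod_cast h.le
    · refine le_max_of_le_right ?_
      rw [le_div_iff₀ P0, one_mul]
      exact_mod_cast h.le
  have tN : max (|(s' : ℝ)| / J) (|(s : ℝ)| / P) ≤ N :=
    max_le ((div_le_iff₀ J0).2 b1) ((div_le_iff₀ P0).2 b2)
  obtain ⟨n, n1, n2⟩ := exists_nat_pow_near t1 (one_lt_two (α := ℝ))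
  refine ⟨n, by exact_mod_cast n1.trans tN, (div_le_iff₀ J0).1 ((le_max_left _ _).trans n2.le),
    (div_le_iff₀ P0).1 ((le_max_right _ _).trans n2.le), ?_⟩
  have c1 : 0 ≤ |(s : ℝ)| * (J / P) := by positivity
  have c2 : 0 ≤ |(s' : ℝ)| := abs_nonneg _
  rcases le_max_iff.1 n1 with h' | h'
  · have := (le_div_iff₀ J0).1 h'
    linarith only [c1, this]
  · have := mul_le_mul_of_nonneg_right h' J0.le
    rw [div_mul_eq_mul_div, mul_div_assoc] at this
    linarith only [c2, this]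

theorem high2 : ∃ (C : ℝ) (k : ℕ), 0 < C ∧ ∀ (N T P X : ℕ) (E V : ℝ) (W : Finset ℤ) (a : ℕ → ℂ),
    World N T P X E 1 V W a → X ^ 2 ≤ N → N ≤ P ^ 5 → ∀ J : ℕ, 1 ≤ J → J ≤ 7 * P →
    ∀ σ p q : ℝ, Cv σ (J / P) p q → ∀ D : Finset (ℤ × ℤ), D ⊆ Sy (N * J) ×ˢ Sy (N * P) →
      (∀ r ∈ D, ((J : ℤ) < |r.1| ∨ (P : ℤ) < |r.2|) ∧
        3 * P * √(J : ℝ) / 2 < ‖ZD J r.1‖ * ‖ZD P r.2‖) →
      ∑ r ∈ D, ‖ZD J r.1‖ ^ 2 * ‖ZD P r.2‖ ^ 2 * ‖Bk σ p q r.1 r.2‖ ^ 2 ≤
        C * E ^ k * (P ^ 2 * √(P : ℝ) * J) := by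
  obtain ⟨C₁, hC₁, H₁⟩ := high1
  obtain ⟨C₂, hC₂, H₂⟩ := bk_dec
  refine ⟨2 * C₁ * C₂, 15, by positivity, ?_⟩
  intro N T P X E V W a w hX hN J hJ hJP σ p q hc D hD hr
  have P0 : (0 : ℝ) < P := by exact_mod_cast w.P1
  have J0 : (0 : ℝ) < J := by exact_mod_cast hJ
  have E0 : 0 < E := lt_of_lt_of_le one_pos w.E1
  have P2 : 2 ≤ P := by
    by_contra h
    obtain rfl : P = 1 := by have := w.P1; omega
    have := w.N1000
    omega
  have tau : ∀ n : ℕ, n ≠ 0 → n ≤ (14 * P) ^ 7 → (#n.divisors : ℝ) ≤ E := fun n n0 hn => by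
    refine w.tau n n0 (hn.trans ?_)
    calc (14 * P) ^ 7 = 14 ^ 7 * P ^ 7 := mul_pow _ _ _
      _ ≤ 12 ^ 8 * P ^ 8 :=
          Nat.mul_le_mul (by norm_num) (Nat.pow_le_pow_right w.P1 (by norm_num))
      _ = ((12 * P) ^ 2) ^ 4 := by ring
      _ ≤ N ^ 4 := Nat.pow_le_pow_left ((Nat.pow_le_pow_left w.PX 2).trans hX) 4
  have ex : ∀ r : ℤ × ℤ, ∃ n : ℕ, r ∈ D → 2 ^ n ≤ N ∧ |(r.1 : ℝ)| ≤ 2 ^ (n + 1) * J ∧
      |(r.2 : ℝ)| ≤ 2 ^ (n + 1) * P ∧
      2 ^ n * (J : ℝ) ≤ |(r.2 : ℝ)| * (J / P) + |(r.1 : ℝ)| := fun r => by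
    by_cases h : r ∈ D
    · obtain ⟨n, hn⟩ := hi2_shell w.P1 hJ (mem_product.1 (hD h)).1 (mem_product.1 (hD h)).2
        (hr r h).1
      exact ⟨n, fun _ => hn⟩
    · exact ⟨0, fun h' => absurd h' h⟩
  choose g hg using ex
  have maps : ∀ r ∈ D, g r ∈ range (Nat.log 2 (N ^ 2) + 1) := fun r h => by
    rw [mem_range, Nat.lt_succ_iff]
    exact Nat.le_log_of_pow_le one_lt_two ((hg r h).1.trans (Nat.le_self_pow two_ne_zero N))
  rw [← sum_fiberwise_of_maps_to maps]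
  have each : ∀ n ∈ range (Nat.log 2 (N ^ 2) + 1),
      ∑ r ∈ D with g r = n, ‖ZD J r.1‖ ^ 2 * ‖ZD P r.2‖ ^ 2 * ‖Bk σ p q r.1 r.2‖ ^ 2 ≤
        2 * C₁ * C₂ * E ^ 14 * (P ^ 2 * √(P : ℝ) * J) := fun n _ => by
    rcases (D.filter fun r => g r = n).eq_empty_or_nonempty with h | ⟨r₀, h₀⟩
    · rw [h, sum_empty]
      positivity
    have nN : 2 ^ n ≤ N := by
      obtain ⟨h1, rfl⟩ := mem_filter.1 h₀
      exact (hg r₀ h1).1
    have S7 : (2 : ℝ) ^ (n + 1) * P ≤ (P : ℝ) ^ 7 := by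
      have : 2 ^ (n + 1) * P ≤ P ^ 7 :=
        calc 2 ^ (n + 1) * P = 2 ^ n * 2 * P := by rw [pow_succ]
          _ ≤ P ^ 5 * P * P := Nat.mul_le_mul_right _ (Nat.mul_le_mul (nN.trans hN) P2)
          _ = P ^ 7 := by ring
      exact_mod_cast this
    have S1 : (P : ℝ) ≤ 2 ^ (n + 1) * P :=
      le_mul_of_one_le_left P0.le (one_le_pow₀ one_le_two)
    obtain ⟨i, i1, i6, i2, i3⟩ := hi2_idx S1 S7
    have h1 := H₁ P J i E (2 ^ (n + 1) * P) (D.filter fun r => g r = n) w.P1 hJ hJP i1 i6 w.E1 tau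
      i2 i3 fun r h => by
        obtain ⟨h1, rfl⟩ := mem_filter.1 h
        obtain ⟨-, b1, b2, -⟩ := hg r h1
        refine ⟨?_, b2, (hr r h1).2⟩
        have := mul_le_mul_of_nonneg_right b1 P0.le
        linarith only [this]
    have h2 : ∀ r ∈ D.filter fun r => g r = n,
        ‖ZD J r.1‖ ^ 2 * ‖ZD P r.2‖ ^ 2 * ‖Bk σ p q r.1 r.2‖ ^ 2 ≤
          ‖ZD J r.1‖ ^ 2 * ‖ZD P r.2‖ ^ 2 * (C₂ / (2 ^ n * J)) := fun r h => by
      obtain ⟨h3, h4⟩ := mem_filter.1 h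
      refine mul_le_mul_of_nonneg_left ?_ (by positivity)
      rw [le_div_iff₀ (by positivity), ← h4]
      exact (mul_le_mul_of_nonneg_left (hg r h3).2.2.2 (sq_nonneg _)).trans
        (H₂ σ _ p q hc r.1 r.2)
    refine (sum_le_sum h2).trans ?_
    rw [← sum_mul]
    refine (mul_le_mul_of_nonneg_right h1 (by positivity)).trans (le_of_eq ?_)
    rw [pow_succ (2 : ℝ) n]
    field_simp
  refine (sum_le_sum each).trans ?_
  rw [sum_const, card_range, nsmul_eq_mul]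
  refine (mul_le_mul_of_nonneg_right (bp_log w.N1 w.lg) (by positivity)).trans (le_of_eq ?_)
  ring

end

end Pool.Agent.MP_71ac24_nt.H54
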