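import Pool.Agent.MP_71ac24_nt.H54.Form

attribute [-instance] IdemSemiring.toCanonicallyOrderedAdd covariant_swap_mul_of_covariant_mul
  AddQuantale.instAddLeftMono IsOrderedMonoid.toMulLeftMono Quantale.instMulLeftMono
  IdemSemiring.toMulLeftMono NumberField.to_charZero
  LinearOrderedCommMonoidWithZero.toPosMulStrictMono CanonicallyOrderedAdd.toMulLeftMono
  RKHS.instFunLike AddQuantale.instAddRightMono Quantale.instMulRightMono instCoeTOfCoeDep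
  CanonicallyOrderedMul.toMulLeftMono instCoeHTCTOfCoeTailOfCoeHTC

set_option autoImplicit false

namespace Pool.Agent.MP_71ac24_nt.H54

open Finset Real
open scoped ComplexConjugate
open Pool.Agent.MP_71ac24_nt.H14 (ei Sep ei_add norm_ei ei_zero conj_ei norm_ei_sub continuous_ei)
open Pool.Agent.MP_71ac24_nt.H17

section

/-! ### block NUM -/

lemma num_pow {K y : ℝ} (hK : 1 ≤ K) (h : K < y) {k : ℕ} (hk : k ≠ 0) : K < y ^ k :=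
  h.trans_le (le_self_pow₀ (hK.trans h.le) hk)

lemma num_aux {c n s r w D : ℝ} (hc : 1 ≤ c) (hn : 1 ≤ n) (hs : 0 < s) (hr : 0 < r) (hw : 0 < w)
    (hD : 1 ≤ D) (hT : s ^ 6 ≤ n ^ 4) (hR : r ^ 2 * w ^ 4 ≤ c * s ^ 4 * n ^ 2)
    (h : (r ^ 2 * w ^ 4 / n ^ 2) ^ 3 ≤ D * (1 + n ^ 6 * s ^ 4 * r ^ 2 / w ^ 4 +
      n ^ 6 * s ^ 8 * r ^ 2 / w ^ 8 + n ^ 3 * s ^ 3 * r ^ 3 + n ^ 2 * s ^ 8 * r ^ 2 / w ^ 2)) :
    r ^ 2 ≤ 5 * c * D * (n ^ 4 / w ^ 4 + s ^ 2 * n ^ 6 / w ^ 8 + s ^ 4 * n ^ 4 / w ^ 7) := by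
  by_contra hcon
  rw [not_le] at hcon
  have hn0 : 0 < n := one_pos.trans_le hn
  set K := 5 * c * D with hKdef
  have hD0 : 0 < D := one_pos.trans_le hD
  have hK5 : 5 * D ≤ K := by rw [hKdef]; nlinarith only [hc, hD]
  have hKc : c ≤ K := by rw [hKdef]; nlinarith only [hD, hK5]
  have hK1 : 1 ≤ K := by linarith only [hD, hK5]
  have hK0 : 0 < K := by linarith only [hD, hK5]
  have pA : 0 < n ^ 4 / w ^ 4 := by positivity
  have pB : 0 < s ^ 2 * n ^ 6 / w ^ 8 := by positivity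
  have pG : 0 < s ^ 4 * n ^ 4 / w ^ 7 := by positivity
  have mA := mul_pos hK0 pA
  have mB := mul_pos hK0 pB
  have mG := mul_pos hK0 pG
  rw [mul_add, mul_add] at hcon
  have hA : K * (n ^ 4 / w ^ 4) < r ^ 2 := by linarith only [hcon, mB, mG]
  have hB : K * (s ^ 2 * n ^ 6 / w ^ 8) < r ^ 2 := by linarith only [hcon, mA, mG]
  have hG : K * (s ^ 4 * n ^ 4 / w ^ 7) < r ^ 2 := by linarith only [hcon, mA, mB]
  rw [← lt_div_iff₀ pA] at hA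
  rw [← lt_div_iff₀ pB] at hB
  rw [← lt_div_iff₀ pG] at hG
  set L := (r ^ 2 * w ^ 4 / n ^ 2) ^ 3 with hL
  -- first term
  have h1 : K * 1 < L := by
    rw [mul_one]
    refine num_pow hK1 (hA.trans_le ?_) (by norm_num)
    rw [show r ^ 2 / (n ^ 4 / w ^ 4) = r ^ 2 * w ^ 4 / n ^ 4 by field_simp]
    exact div_le_div_of_nonneg_left (by positivity) (by positivity)
      (pow_le_pow_right₀ hn (by norm_num))
  -- second term
  have h2 : K * (n ^ 6 * s ^ 4 * r ^ 2 / w ^ 4) < L := by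
    rw [← lt_div_iff₀ (by positivity)]
    refine (num_pow hK1 hB two_ne_zero).trans_eq ?_
    rw [hL]
    field_simp
  -- third term
  have h3 : n ^ 6 * s ^ 8 * r ^ 2 / w ^ 8 ≤ n ^ 6 * s ^ 4 * r ^ 2 / w ^ 4 := by
    have hsw : s ^ 4 ≤ w ^ 4 := by
      by_contra hh
      rw [not_le] at hh
      refine absurd hB (not_lt.2 (le_trans ?_ hKc))
      rw [show r ^ 2 / (s ^ 2 * n ^ 6 / w ^ 8) = r ^ 2 * w ^ 4 * w ^ 4 / (s ^ 2 * n ^ 6) by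
        field_simp, div_le_iff₀ (by positivity)]
      calc r ^ 2 * w ^ 4 * w ^ 4 ≤ c * s ^ 4 * n ^ 2 * s ^ 4 := by gcongr
        _ = c * (s ^ 2 * n ^ 2) * s ^ 6 := by ring
        _ ≤ c * (s ^ 2 * n ^ 2) * n ^ 4 := by gcongr
        _ = c * (s ^ 2 * n ^ 6) := by ring
    calc n ^ 6 * s ^ 8 * r ^ 2 / w ^ 8 = n ^ 6 * s ^ 4 * r ^ 2 / w ^ 8 * s ^ 4 := by ring
      _ ≤ n ^ 6 * s ^ 4 * r ^ 2 / w ^ 8 * w ^ 4 := by gcongr
      _ = n ^ 6 * s ^ 4 * r ^ 2 / w ^ 4 := by field_simp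
  -- fourth term
  have h4 : K * (n ^ 3 * s ^ 3 * r ^ 3) < L := by
    rw [← lt_div_iff₀ (by positivity)]
    have e1 : r ^ 2 / (s ^ 2 * n ^ 6 / w ^ 8) = (r * w ^ 4 / (s * n ^ 3)) ^ 2 := by field_simp
    have e2 : L / (n ^ 3 * s ^ 3 * r ^ 3) = (r * w ^ 4 / (s * n ^ 3)) ^ 3 := by
      rw [hL]; field_simp
    rw [e1] at hB
    rw [e2]
    have hy : 1 ≤ r * w ^ 4 / (s * n ^ 3) :=
      (one_le_sq_iff₀ (by positivity)).1 (hK1.trans hB.le)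
    exact hB.trans_le (pow_le_pow_right₀ hy (by norm_num))
  -- fifth term
  have h5 : K * (n ^ 2 * s ^ 8 * r ^ 2 / w ^ 2) < L := by
    rw [← lt_div_iff₀ (by positivity)]
    refine (num_pow hK1 hG two_ne_zero).trans_eq ?_
    rw [hL]
    field_simp
  have p2 : 0 < n ^ 6 * s ^ 4 * r ^ 2 / w ^ 4 := by positivity
  have p4 : 0 < n ^ 3 * s ^ 3 * r ^ 3 := by positivity
  have p5 : 0 < n ^ 2 * s ^ 8 * r ^ 2 / w ^ 2 := by positivity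
  generalize n ^ 6 * s ^ 4 * r ^ 2 / w ^ 4 = t2 at *
  generalize n ^ 6 * s ^ 8 * r ^ 2 / w ^ 8 = t3 at *
  generalize n ^ 3 * s ^ 3 * r ^ 3 = t4 at *
  generalize n ^ 2 * s ^ 8 * r ^ 2 / w ^ 2 = t5 at *
  have k2 := mul_le_mul_of_nonneg_right hK5 p2.le
  have k4 := mul_le_mul_of_nonneg_right hK5 p4.le
  have k5 := mul_le_mul_of_nonneg_right hK5 p5.le
  have k3 := mul_le_mul_of_nonneg_left h3 hD0.le
  linarith only [hK5, h1, h2, h4, h5, h, k2, k4, k5, k3]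

theorem numeric2 (c : ℝ) (hc : 1 ≤ c) : ∃ C : ℝ, 0 < C ∧ ∀ N T R V D : ℝ, 1 ≤ N → N ≤ T → 0 < R →
    0 < V → 1 ≤ D → T ^ 3 ≤ N ^ 4 → R * V ^ 2 ≤ c * T * N →
    (R * V ^ 2 / N) ^ 3 ≤ D * (1 + N ^ 3 * T * R / V ^ 2 + N ^ 3 * T ^ 2 * R / V ^ 4 +
      N * √N * √(√T) ^ 3 * (R * √R) + N * T ^ 2 * R / V) →
    R ≤ C * D * (N ^ 2 / V ^ 2 + √T * N ^ 3 / V ^ 4 + T * N ^ 2 / (V ^ 3 * √V)) := by
  refine ⟨5 * c, by positivity, fun N T R V D hN hNT hR hV hD hT hRV h => ?_⟩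
  have hN0 : 0 < N := one_pos.trans_le hN
  have hT0 : 0 < T := hN0.trans_le hNT
  obtain ⟨n, hn, rfl⟩ : ∃ n : ℝ, 0 < n ∧ N = n ^ 2 :=
    ⟨√N, sqrt_pos.2 hN0, (sq_sqrt hN0.le).symm⟩
  obtain ⟨r, hr, rfl⟩ : ∃ r : ℝ, 0 < r ∧ R = r ^ 2 := ⟨√R, sqrt_pos.2 hR, (sq_sqrt hR.le).symm⟩
  obtain ⟨w, hw, rfl⟩ : ∃ w : ℝ, 0 < w ∧ V = w ^ 2 := ⟨√V, sqrt_pos.2 hV, (sq_sqrt hV.le).symm⟩
  obtain ⟨s, hs, rfl⟩ : ∃ s : ℝ, 0 < s ∧ T = (s ^ 2) ^ 2 :=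
    ⟨√(√T), sqrt_pos.2 (sqrt_pos.2 hT0), by rw [sq_sqrt (sqrt_nonneg _), sq_sqrt hT0.le]⟩
  rw [sqrt_sq hn.le, sqrt_sq hr.le, sqrt_sq (sq_nonneg s), sqrt_sq hs.le] at h
  rw [sqrt_sq hw.le, sqrt_sq (sq_nonneg s)]
  have hn1 : 1 ≤ n := (one_le_sq_iff₀ hn.le).1 hN
  have hT' : s ^ 6 ≤ n ^ 4 := by
    refine (pow_le_pow_iff_left₀ (by positivity) (by positivity) two_ne_zero).1 ?_
    refine le_of_eq_of_le (by ring) (hT.trans_eq (by ring))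
  have key := num_aux hc hn1 hs hr hw hD hT'
    (le_of_eq_of_le (by ring) (hRV.trans_eq (by ring)))
    (le_of_eq_of_le (by ring) (h.trans_eq (by ring)))
  exact key.trans_eq (by ring)

end

section

lemma cor_rt4 {x : ℝ} (h : 0 ≤ x) : √(√x) ^ 4 = x := by
  rw [show √(√x) ^ 4 = (√(√x) ^ 2) ^ 2 by ring, Real.sq_sqrt (Real.sqrt_nonneg _), Real.sq_sqrt h]

lemma cor_B2 {N T X R V E : ℝ} (N0 : 0 < N) (T0 : 0 ≤ T) (X0 : 0 ≤ X) (R0 : 0 ≤ R) (V0 : 0 < V)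
    (E1 : 1 ≤ E) (hX : X * N ≤ 13 * E * T) (hy : X ≤ 39 * E * √(√N)) :
    N ^ 2 * (N ^ 2 * X * R / V ^ 2 * (1 + T / V ^ 2) +
        (√(√X) ^ 7 + √(√N) * √(√X) ^ 3) * (R * √R) + X * √X * R * (√(T * N) / V)) ≤
      520 * E ^ 2 * (N ^ 3 * T * R / V ^ 2 + N ^ 3 * T ^ 2 * R / V ^ 4 +
        N * √N * √(√T) ^ 3 * (R * √R) + N * T ^ 2 * R / V) := by
  have E0 : 0 ≤ E := by linarith
  have K1 : 1 ≤ 13 * E := by linarith
  have EE : E ≤ E ^ 2 := le_self_pow₀ E1 (by norm_num)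
  have h1 : X * N ≤ 520 * E ^ 2 * T := hX.trans (mul_le_mul_of_nonneg_right (by linarith) T0)
  have hx := cor_rt4 X0
  have hn := cor_rt4 N0.le
  have ht := cor_rt4 T0
  have hn2 : √(√N) ^ 2 = √N := Real.sq_sqrt (Real.sqrt_nonneg _)
  have h2 : √X * √(T * N) ≤ 13 * E * T := by
    rw [← Real.sqrt_mul X0]
    refine Real.sqrt_le_iff.2 ⟨by positivity, ?_⟩
    calc X * (T * N) = X * N * T := by ring
      _ ≤ 13 * E * T * T := by gcongr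
      _ = 13 * E * 1 * T ^ 2 := by ring
      _ ≤ 13 * E * (13 * E) * T ^ 2 := by gcongr
      _ = _ := by ring
  have h4 : N ^ 2 * (X * √X * R * (√(T * N) / V)) ≤ 520 * E ^ 2 * (N * T ^ 2 * R / V) := by
    calc _ = X * N * (√X * √(T * N)) * (N * R / V) := by ring
      _ ≤ 13 * E * T * (13 * E * T) * (N * R / V) := by gcongr
      _ = 169 * E ^ 2 * (N * T ^ 2 * R / V) := by ring
      _ ≤ _ := by gcongr; norm_num
  have h5 : N ^ 2 * (N ^ 2 * X * R / V ^ 2 * (1 + T / V ^ 2)) ≤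
      520 * E ^ 2 * (N ^ 3 * T * R / V ^ 2 + N ^ 3 * T ^ 2 * R / V ^ 4) := by
    calc _ = X * N * (N ^ 3 * R / V ^ 2 * (1 + T / V ^ 2)) := by ring
      _ ≤ 520 * E ^ 2 * T * (N ^ 3 * R / V ^ 2 * (1 + T / V ^ 2)) := by gcongr
      _ = _ := by ring
  have h6 : N ^ 2 * (√(√X) ^ 7 + √(√N) * √(√X) ^ 3) ≤ 520 * E ^ 2 * (N * √N * √(√T) ^ 3) := by
    have x0 : 0 ≤ √(√X) := Real.sqrt_nonneg _
    have y0 : 0 ≤ √(√N) := Real.sqrt_nonneg _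
    have t0 : 0 ≤ √(√T) := Real.sqrt_nonneg _
    generalize √(√X) = x at *
    generalize √(√N) = y at *
    generalize √(√T) = t at *
    rw [← hn2]
    have a1 : (x * y) ^ 3 ≤ 13 * E * t ^ 3 := by
      refine le_of_pow_le_pow_left₀ (n := 4) (by norm_num) (by positivity) ?_
      calc ((x * y) ^ 3) ^ 4 = (x ^ 4 * y ^ 4) ^ 3 * 1 := by ring
        _ ≤ (13 * E * t ^ 4) ^ 3 * (13 * E) := by rw [hx, hn, ht]; gcongr
        _ = _ := by ring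
    calc N ^ 2 * (x ^ 7 + y * x ^ 3) = N ^ 2 * ((x ^ 4 + 1 * y) * x ^ 3) := by ring
      _ ≤ N ^ 2 * ((39 * E * y + E * y) * x ^ 3) := by rw [hx]; gcongr
      _ = 40 * E * (N * y ^ 2) * (x * y) ^ 3 := by rw [← hn]; ring
      _ ≤ 40 * E * (N * y ^ 2) * (13 * E * t ^ 3) := by gcongr
      _ = _ := by ring
  have h7 := mul_le_mul_of_nonneg_right h6 (mul_nonneg R0 (Real.sqrt_nonneg R))
  linarith only [h4, h5, h7]

lemma cor_fin2 {J N B Y E Cb Cl er : ℝ} {k : ℕ} (J0 : 0 ≤ J) (JE : J ≤ E) (E1 : 1 ≤ E)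
    (Cb0 : 0 < Cb) (Cl0 : 0 < Cl) (B0 : 0 ≤ N ^ 2 * B) (Y0 : 0 ≤ Y)
    (hB : N ^ 2 * B ≤ 520 * E ^ 2 * Y) (h : er ≤ 1) :
    Cl * (J ^ 2 * N ^ 2 * (Cb * E ^ k * B) + er) ≤
      (Cl * (1 + 520 * Cb) + 1) * E ^ (k + 4) * (1 + Y) := by
  have E0 : 0 ≤ E := by linarith
  have Ek : (1 : ℝ) ≤ E ^ (k + 4) := one_le_pow₀ E1
  have h2 : J ^ 2 * N ^ 2 * (Cb * E ^ k * B) ≤ 520 * Cb * E ^ (k + 4) * Y := by
    calc _ = J ^ 2 * (Cb * E ^ k) * (N ^ 2 * B) := by ring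
      _ ≤ E ^ 2 * (Cb * E ^ k) * (520 * E ^ 2 * Y) := by gcongr
      _ = _ := by ring
  calc _ ≤ Cl * (520 * Cb * E ^ (k + 4) * Y + 1) := by gcongr
    _ ≤ Cl * ((1 + 520 * Cb) * E ^ (k + 4) * (1 + Y)) := by
        refine mul_le_mul_of_nonneg_left ?_ Cl0.le
        have h3 : 0 ≤ E ^ (k + 4) * Y := by positivity
        have h4 : 0 ≤ Cb * E ^ (k + 4) := by positivity
        linarith only [Ek, h3, h4]
    _ = Cl * (1 + 520 * Cb) * E ^ (k + 4) * (1 + Y) := by ring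
    _ ≤ _ := by gcongr; linarith only []

lemma cor_y2 {N T E X y : ℝ} (T0 : 0 ≤ T) (X0 : 0 ≤ X) (E1 : 1 ≤ E) (Ey : E ^ 2 ≤ y)
    (f1 : 177147 ≤ y) (Ny : y ^ 4 = N) (Ty : T ≤ 3 * y ^ 5) (hX : X * N ≤ 13 * E * T) :
    X ≤ 39 * E * √(√N) ∧ X ^ 2 ≤ N ∧ T ^ 3 ≤ N ^ 4 := by
  subst Ny
  have y0 : 0 < y := by linarith
  have E0 : 0 ≤ E := by linarith
  have e1 : √(√(y ^ 4)) = y := by
    rw [show y ^ 4 = (y ^ 2) ^ 2 by ring, Real.sqrt_sq (by positivity), Real.sqrt_sq y0.le]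
  have h1 : X ≤ 39 * E * y := by
    refine le_of_mul_le_mul_right (hX.trans ?_) (pow_pos y0 4)
    calc 13 * E * T ≤ 13 * E * (3 * y ^ 5) := by gcongr
      _ = _ := by ring
  refine ⟨by rwa [e1], ?_, ?_⟩
  · calc X ^ 2 ≤ (39 * E * y) ^ 2 := by gcongr
      _ = 1521 * E ^ 2 * y ^ 2 := by ring
      _ ≤ y * y * y ^ 2 := by gcongr; linarith only [f1]
      _ = _ := by ring
  · calc T ^ 3 ≤ (3 * y ^ 5) ^ 3 := by gcongr
      _ = 27 * y ^ 15 := by ring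
      _ ≤ y * y ^ 15 := by gcongr; linarith only [f1]
      _ = _ := by ring

theorem core2 (ε : ℝ) (hε : 0 < ε) : ∃ C : ℝ, 0 < C ∧
    ∀ (N T : ℕ) (W : Finset ℤ) (a : ℕ → ℂ) (V : ℝ), 1 ≤ N → N ≤ T →
      (T : ℝ) ≤ 3 * (N : ℝ) ^ (5 / 4 : ℝ) → (∀ t ∈ W, 0 ≤ t ∧ t ≤ T) → (∀ n, ‖a n‖ ≤ 1) → 0 < V →
      (∀ t ∈ W, V ≤ ‖DP N a t‖) →
      (#W : ℝ) ≤ C * (N : ℝ) ^ ε *
        (N ^ 2 / V ^ 2 + √T * N ^ 3 / V ^ 4 + T * N ^ 2 / (V ^ 3 * √V)) := by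
  obtain ⟨Cb, k, Cb0, hb⟩ := block2
  obtain ⟨Cn, Cn0, hn⟩ := numeric2 30000 (by norm_num)
  obtain ⟨e, e0, e1, e2⟩ : ∃ e : ℝ, 0 < e ∧ e ≤ 1 / 8 ∧ e * (k + 4 : ℕ) ≤ ε := by
    refine ⟨min (1 / 8) (ε / (k + 4 : ℕ)), lt_min (by norm_num) (by positivity),
      min_le_left _ _, ?_⟩
    rw [← le_div_iff₀ (by positivity)]
    exact min_le_right _ _
  obtain ⟨A, hA⟩ := exists_nat_ge (12 / e)
  have hA' : 12 ≤ e * A := by rwa [div_le_iff₀ e0, mul_comm] at hA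
  have A2 : 2 ≤ A := by
    have : (2 : ℝ) ≤ A := by nlinarith only [e1, hA']
    exact_mod_cast this
  obtain ⟨Cl, Cl0, hl⟩ := lam A A2
  obtain ⟨N₀, hN₀⟩ := cor_ev e0 4
  obtain ⟨c, hc⟩ : ∃ c : ℝ, c = Cl * (1 + 520 * Cb) + 1 := ⟨_, rfl⟩
  have c0 : 1 ≤ c := by
    have : 0 ≤ Cl * (1 + 520 * Cb) := by positivity
    linarith only [hc, this]
  have p1 : 0 ≤ Cn * c := by positivity
  have p2 : (0 : ℝ) ≤ 4 * N₀ ^ 2 := by positivity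
  refine ⟨4 * N₀ ^ 2 + Cl + Cn * c, by positivity, fun N T W a V hN hT T54 hW ha V0 hV => ?_⟩
  have N1 : (1 : ℝ) ≤ N := by exact_mod_cast hN
  have N0 : (0 : ℝ) < N := by linarith only [e0, e1, N1]
  have NT : (N : ℝ) ≤ T := by exact_mod_cast hT
  have T0 : (0 : ℝ) ≤ T := Nat.cast_nonneg T
  have Nε : (1 : ℝ) ≤ (N : ℝ) ^ ε := Real.one_le_rpow N1 hε.le
  rcases W.eq_empty_or_nonempty with rfl | ⟨t₀, ht₀⟩
  · simp only [card_empty, Nat.cast_zero]; positivity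
  have VN : V ≤ N := (hV t₀ ht₀).trans (cor_triv N ha _)
  have W1 : 1 ≤ #W := card_pos.2 ⟨t₀, ht₀⟩
  have R1 : (1 : ℝ) ≤ #W := by exact_mod_cast W1
  have R0 : (0 : ℝ) < #W := by linarith only [e0, e1, R1]
  have RT : (#W : ℝ) ≤ T + 1 := by exact_mod_cast cor_card hW
  have x1 : 1 ≤ (N : ℝ) ^ 2 / V ^ 2 := by
    rw [le_div_iff₀ (by positivity), one_mul]; gcongr
  have y0 : 0 ≤ √(T : ℝ) * N ^ 3 / V ^ 4 := by positivity
  have z0 : 0 ≤ (T : ℝ) * N ^ 2 / (V ^ 3 * √V) := by positivity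
  have fin : ∀ K : ℝ, 0 ≤ K → K ≤ 4 * N₀ ^ 2 + Cl + Cn * c →
      (#W : ℝ) ≤ K * (N : ℝ) ^ ε *
        (N ^ 2 / V ^ 2 + √T * N ^ 3 / V ^ 4 + T * N ^ 2 / (V ^ 3 * √V)) →
      (#W : ℝ) ≤ (4 * N₀ ^ 2 + Cl + Cn * c) * (N : ℝ) ^ ε *
        (N ^ 2 / V ^ 2 + √T * N ^ 3 / V ^ 4 + T * N ^ 2 / (V ^ 3 * √V)) :=
    fun K _ h2 h3 => h3.trans (by gcongr)
  rcases lt_or_ge N N₀ with hs | hs
  · refine fin (4 * N₀ ^ 2) p2 (by linarith only [Cl0, p1]) ?_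
    have h1 : (N : ℝ) ^ (5 / 4 : ℝ) ≤ (N : ℝ) ^ ((2 : ℕ) : ℝ) :=
      Real.rpow_le_rpow_of_exponent_le N1 (by norm_num)
    rw [Real.rpow_natCast] at h1
    have h2 : (N : ℝ) ≤ N₀ := by exact_mod_cast hs.le
    have h3 : (N : ℝ) ^ 2 ≤ (N₀ : ℝ) ^ 2 := by gcongr
    have h4 : (1 : ℝ) ≤ (N : ℝ) ^ 2 := one_le_pow₀ N1
    calc (#W : ℝ) ≤ 4 * N₀ ^ 2 * 1 * 1 := by linarith only [T54, RT, h1, h3, h4]
      _ ≤ _ := by gcongr; linarith only [x1, y0, z0]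
  obtain ⟨f1, f2, E4, f4⟩ := hN₀ N hs
  have Ey : ((N : ℝ) ^ e) ^ 2 ≤ (N : ℝ) ^ (1 / 4 : ℝ) := by
    rw [← Real.rpow_natCast, ← Real.rpow_mul N0.le]
    exact Real.rpow_le_rpow_of_exponent_le N1 (by push_cast; linarith only [e1])
  have Ny : ((N : ℝ) ^ (1 / 4 : ℝ)) ^ 4 = N := by
    rw [← Real.rpow_natCast, ← Real.rpow_mul N0.le]; norm_num
  have Ty : (T : ℝ) ≤ 3 * ((N : ℝ) ^ (1 / 4 : ℝ)) ^ 5 := by
    rw [← Real.rpow_natCast, ← Real.rpow_mul N0.le]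
    refine T54.trans (le_of_eq ?_); norm_num
  have EA : (N : ℝ) ^ 12 ≤ ((N : ℝ) ^ e) ^ A := by
    rw [← Real.rpow_natCast, ← Real.rpow_natCast, ← Real.rpow_mul N0.le]
    exact Real.rpow_le_rpow_of_exponent_le N1 (by exact_mod_cast hA')
  have Eε : ((N : ℝ) ^ e) ^ (k + 4) ≤ (N : ℝ) ^ ε := by
    rw [← Real.rpow_natCast, ← Real.rpow_mul N0.le]
    exact Real.rpow_le_rpow_of_exponent_le N1 e2
  generalize (N : ℝ) ^ e = E at f2 E4 f4 Ey EA Eε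
  have E1 : 1 ≤ E := by linarith only [e0, e1, E4]
  obtain ⟨ET, EN, T2', -⟩ := cor_y T0 E4 ((le_self_pow₀ E1 (by norm_num)).trans Ey) f1 Ny Ty
  obtain ⟨X, L, X1, X2, XN, L1, L2, L3, L4⟩ := cor_XL hN hT E1 ET f2
  obtain ⟨Xy, XX, T34⟩ := cor_y2 T0 (Nat.cast_nonneg X) E1 Ey f1 Ny Ty X2
  clear Ny Ty Ey f1 T54
  have Xp : (1 : ℝ) ≤ X := by
    refine le_of_mul_le_mul_right (le_trans ?_ X1) N0
    have : 1 * (T : ℝ) ≤ 12 * E * T := by gcongr; linarith only [e0, e1, E4]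
    linarith only [NT, this]
  have wd : ∀ j < L + 1, World N T (2 ^ j) X E 1 V W a := fun j hj =>
    { NT := hT, T2 := by exact_mod_cast T2', E1 := E1, EN := EN, lg := f2, tau := f4
      P1 := Nat.one_le_two_pow
      PN := by
        have h1 : (2 : ℝ) ^ j ≤ 2 ^ L := pow_le_pow_right₀ (by norm_num) (by omega)
        push_cast
        exact (mul_le_mul_of_nonneg_right h1 N0.le).trans L1
      XT := X1, XN := XN, θ1 := le_rfl, θX := by rwa [one_mul]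
      hZ := fun Y hY s _ _ => by
        have h1 : (Y : ℝ) ≤ X := by exact_mod_cast hY
        have h2 : 0 ≤ E * X / |(s : ℝ)| := by positivity
        have h3 := cor_Zs Y s
        linarith only [h1, h2, h3]
      hW := hW, W1 := W1, ha := ha, V0 := V0, hV := hV }
  have hΛ : (#W : ℝ) * V ^ 2 ≤ ∑ t ∈ W, ‖DP N a t‖ ^ 2 := by
    rw [← nsmul_eq_mul]
    exact card_nsmul_le_sum _ _ _ fun t ht => pow_le_pow_left₀ V0.le (hV t ht) 2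
  rcases hl N T (L + 1) W a _ hN (hN.trans hT) hW ha (by positivity)
    (fun j hj ψ hψ => hb N T (2 ^ j) X E V W a (wd j hj) (by exact_mod_cast XX) ψ hψ) with h | h
  · refine fin Cl Cl0.le (by linarith only [p1, p2]) ?_
    have h1 : (#W : ℝ) ≤ Cl * (N ^ 2 / V ^ 2) := by
      rw [← mul_div_assoc, le_div_iff₀ (by positivity)]; exact hΛ.trans h
    calc (#W : ℝ) ≤ Cl * 1 * (N ^ 2 / V ^ 2 + 0 + 0) := by
          rw [mul_one, add_zero, add_zero]; exact h1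
      _ ≤ _ := by gcongr
  · have TN : (T : ℝ) + 1 ≤ 2 * N ^ 2 := by
      have h1 : 1 * 1 * (T : ℝ) ≤ 13 * E * T := by gcongr; norm_num
      have h2 : (1 : ℝ) ≤ N * N := one_le_mul_of_one_le_of_one_le N1 N1
      rw [sq]; linarith only [NT, E4, ET, EN, h1]
    have er := cor_err (N := N) (T := T) (R := #W) (F := 2 ^ (L + 1)) (A := A) (by linarith only [e0, e1, E4, EN]) E4 EA
      R0.le (RT.trans TN) T0 L2 (by positivity) (by rw [pow_succ]; linarith only [L3])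
    have hB := cor_B2 N0 T0 (Nat.cast_nonneg X) R0.le V0 E1 X2 Xy
    have Ek : (1 : ℝ) ≤ E ^ (k + 4) := one_le_pow₀ E1
    have key := hn N T #W V (c * E ^ (k + 4)) N1 NT R0 V0
      (one_le_mul_of_one_le_of_one_le c0 Ek) T34 (hΛ.trans (cor_mvt hN hT hW ha)) ?_
    · refine fin (Cn * c) p1 (by linarith only [Cl0, p2]) (key.trans ?_)
      rw [← mul_assoc]
      gcongr
    · have h1 : ((#W : ℝ) * V ^ 2 / N) ^ 3 ≤ ((∑ t ∈ W, ‖DP N a t‖ ^ 2) / N) ^ 3 := by gcongr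
      refine h1.trans (h.trans ((cor_fin2 (Nat.cast_nonneg _) L4 E1 Cb0 Cl0 (by positivity)
        (by positivity) hB er).trans (le_of_eq ?_)))
      rw [← hc]; ring

end

section

/-! ### block CNT -/

theorem count2 (ε : ℝ) (hε : 0 < ε) : ∃ C : ℝ, 0 < C ∧
    ∀ (N T : ℕ) (W : Finset ℤ) (a : ℕ → ℂ) (V : ℝ), 1 ≤ N → N ≤ T →
      (∀ t ∈ W, 0 ≤ t ∧ t ≤ T) → (∀ n, ‖a n‖ ≤ 1) → 0 < V → (∀ t ∈ W, V ≤ ‖DP N a t‖) →
      (#W : ℝ) ≤ C * (N : ℝ) ^ ε * (N ^ 2 / V ^ 2 + √T * N ^ 3 / V ^ 4 +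
        T * (N : ℝ) ^ (19 / 8 : ℝ) / V ^ 4 + T * N ^ 2 / (V ^ 3 * √V)) := by
  obtain ⟨C₁, C1, h1⟩ := core2 ε hε
  obtain ⟨C₂, C2, h2⟩ := hm (ε / 2) (half_pos hε)
  refine ⟨6 * C₁ + 2 * C₂ ^ 3, by positivity, fun N T W a V hN hNT hW ha hV hWV => ?_⟩
  have N1 : (1 : ℝ) ≤ N := by exact_mod_cast hN
  have N0 : (0 : ℝ) < N := by linarith only [N1]
  have NT : (N : ℝ) ≤ T := by exact_mod_cast hNT
  obtain ⟨s, hs⟩ : ∃ s : ℝ, s = (N : ℝ) ^ (5 / 8 : ℝ) := ⟨_, rfl⟩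
  obtain ⟨Q, hQ⟩ : ∃ Q : ℝ, Q = (N : ℝ) ^ (19 / 8 : ℝ) := ⟨_, rfl⟩
  obtain ⟨E, hE⟩ : ∃ E : ℝ, E = (N : ℝ) ^ ε := ⟨_, rfl⟩
  have s1 : 1 ≤ s := hs ▸ Real.one_le_rpow N1 (by norm_num)
  have E1 : 1 ≤ E := hE ▸ Real.one_le_rpow N1 hε.le
  have Q2 : (N : ℝ) ^ 2 ≤ Q := by
    rw [hQ, ← Real.rpow_natCast]
    exact Real.rpow_le_rpow_of_exponent_le N1 (by norm_num)
  have Qs : Q * s = (N : ℝ) ^ 3 := by
    rw [hQ, hs, ← Real.rpow_add N0, ← Real.rpow_natCast]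
    norm_num
  have s2 : (N : ℝ) ^ (5 / 4 : ℝ) = s ^ 2 := by
    rw [hs, ← Real.rpow_natCast, ← Real.rpow_mul N0.le]
    norm_num
  have Ns : (N : ℝ) ≤ s ^ 2 := by
    rw [← s2]
    conv_lhs => rw [← Real.rpow_one (N : ℝ)]
    exact Real.rpow_le_rpow_of_exponent_le N1 (by norm_num)
  rw [← hQ, ← hE]
  have Q0 : 0 ≤ Q := le_trans (by positivity) Q2
  have C3 : C₂ ≤ C₂ ^ 3 := le_self_pow₀ C2 (by norm_num)
  have C4 : C₂ ^ 2 ≤ C₂ ^ 3 := pow_le_pow_right₀ C2 (by norm_num)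
  obtain ⟨x, hx⟩ : ∃ x : ℝ, x = (N : ℝ) ^ 2 / V ^ 2 := ⟨_, rfl⟩
  obtain ⟨y, hy⟩ : ∃ y : ℝ, y = √T * (N : ℝ) ^ 3 / V ^ 4 := ⟨_, rfl⟩
  obtain ⟨z, hz⟩ : ∃ z : ℝ, z = T * Q / V ^ 4 := ⟨_, rfl⟩
  obtain ⟨w, hw⟩ : ∃ w : ℝ, w = T * (N : ℝ) ^ 2 / (V ^ 3 * √V) := ⟨_, rfl⟩
  have w0 : 0 ≤ C₁ * (E * w) := by rw [hw]; positivity
  have w1 : 0 ≤ C₂ ^ 3 * (E * w) := by rw [hw]; positivity
  have x0 : 0 ≤ E * x := by rw [hx]; positivity
  have y0 : 0 ≤ E * y := by rw [hy]; positivity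
  have z0 : 0 ≤ E * z := by rw [hz]; positivity
  have fin : ∀ p q r : ℝ, p ≤ 6 * C₁ + 2 * C₂ ^ 3 → q ≤ 6 * C₁ + 2 * C₂ ^ 3 →
      r ≤ 6 * C₁ + 2 * C₂ ^ 3 → 
      (#W : ℝ) ≤ p * (E * x) + q * (E * y) + r * (E * z) + 3 * (C₁ * (E * w)) →
      (#W : ℝ) ≤ (6 * C₁ + 2 * C₂ ^ 3) * E * (x + y + z + w) := by
    intro p q r b1 b2 b3 b4
    have c1 := mul_le_mul_of_nonneg_right b1 x0
    have c2 := mul_le_mul_of_nonneg_right b2 y0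
    have c3 := mul_le_mul_of_nonneg_right b3 z0
    linarith only [w0, w1, b4, c1, c2, c3]
  rw [← hx, ← hy, ← hz, ← hw]
  have C5 : 0 < C₂ ^ 3 := by positivity
  rcases W.eq_empty_or_nonempty with rfl | ⟨t₀, ht₀⟩
  · exact fin 0 0 0 (by linarith only [C1, C2, C3]) (by linarith only [C1, C2, C3]) (by linarith only [C1, C2, C3]) (by simpa only [card_empty, CharP.cast_eq_zero, zero_mul, add_zero, zero_add, Nat.ofNat_pos, mul_nonneg_iff_of_pos_left] using w0)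
  have VN : V ≤ N := (hWV t₀ ht₀).trans (cnt_norm N a ha _)
  rcases le_total (V ^ 2) (N * s) with hA | hA
  · rcases le_total (T : ℝ) (s ^ 2) with hT | hT
    · have := h1 N T W a V hN hNT (by rw [s2]; linarith only [N1, Ns, hT]) hW ha hV hWV
      rw [← hE, ← hx, ← hy, ← hw] at this
      exact fin C₁ C₁ 0 (by linarith only [C1, C2, C3]) (by linarith only [C1, C2, C3]) (by linarith only [C1, C2, C3]) (by linarith only [w0, this])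
    · have b1 : s ^ 2 ≤ (⌈s ^ 2⌉₊ : ℝ) := Nat.le_ceil _
      have b2 : (⌈s ^ 2⌉₊ : ℝ) ≤ 2 * s ^ 2 := by
        linarith only [Nat.ceil_lt_add_one (sq_nonneg s), N1, Ns]
      have b3 : N ≤ ⌈s ^ 2⌉₊ := by exact_mod_cast Ns.trans b1
      have b4 := subdiv N T ⌈s ^ 2⌉₊ (hN.trans b3) V _ (by positivity)
        (fun W a c1 c2 c3 => h1 N _ W a V hN b3 (by rw [s2]; linarith only [N1, Ns, b2]) c1 c2 hV c3) W a hW ha hWV
      have b5 := cnt_a s1 Qs N0 hV hA b1 b2 hT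
      rw [← hE] at b4
      rw [← hz] at b5
      have b6 := mul_le_mul_of_nonneg_left b5 (by positivity : 0 ≤ C₁ * E)
      have b7 : ((T : ℝ) / ⌈s ^ 2⌉₊ + 1) * (⌈s ^ 2⌉₊ * (N : ℝ) ^ 2 / (V ^ 3 * √V)) ≤ 3 * w := by
        have c0 : (0 : ℝ) < ⌈s ^ 2⌉₊ := by linarith only [N1, Ns, b1]
        have c1 : ((T : ℝ) / ⌈s ^ 2⌉₊ + 1) * ⌈s ^ 2⌉₊ ≤ 3 * T := by
          rw [add_mul, div_mul_cancel₀ _ c0.ne']
          linarith only [hT, b2]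
        rw [hw, mul_div_assoc, mul_div_assoc, ← mul_assoc, ← mul_assoc]
        exact mul_le_mul_of_nonneg_right c1 (by positivity)
      have b8 := mul_le_mul_of_nonneg_left b7 (by positivity : 0 ≤ C₁ * E)
      exact fin 0 0 (6 * C₁) (by linarith only [C1, C2, C3]) (by linarith only [C1, C2, C3]) (by linarith only [C2, C3]) (by linarith only [b4, b6, b8])
  · obtain ⟨D, hD⟩ : ∃ D : ℝ, D = C₂ * (N : ℝ) ^ (1 + ε / 2) := ⟨_, rfl⟩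
    have D2 : D ^ 2 = C₂ ^ 2 * (N : ℝ) ^ 2 * E := by
      rw [hD, hE, mul_pow, mul_assoc, ← Real.rpow_natCast ((N : ℝ) ^ _), ← Real.rpow_mul N0.le,
        ← Real.rpow_natCast (N : ℝ), ← Real.rpow_add N0]
      congr 2
      push_cast
      ring
    have D0 : 0 < D := by rw [hD]; positivity
    have b0 : (0 : ℝ) ≤ V ^ 4 / D ^ 2 := by positivity
    have b1 := Nat.floor_le b0
    have b2 := Nat.lt_floor_add_one (V ^ 4 / D ^ 2)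
    generalize ⌊V ^ 4 / D ^ 2⌋₊ = T₀ at b1 b2
    rw [le_div_iff₀ (by positivity)] at b1
    rw [div_lt_iff₀ (by positivity)] at b2
    rcases Nat.eq_zero_or_pos T₀ with rfl | hT₀
    · have c1 := cnt_card T W hW
      have c2 : (T : ℝ) ≤ C₂ ^ 2 * (E * z) := by
        rw [hz, ← mul_div_assoc, ← mul_div_assoc, le_div_iff₀ (by positivity)]
        have d1 : V ^ 4 ≤ C₂ ^ 2 * E * Q := by
          have := mul_le_mul_of_nonneg_left Q2 (by positivity : 0 ≤ C₂ ^ 2 * E)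
          simp only [Nat.cast_zero, zero_add, one_mul] at b2
          linarith only [D2, this, b2]
        have := mul_le_mul_of_nonneg_left d1 (by positivity : (0 : ℝ) ≤ T)
        linarith only [this]
      exact fin 0 0 (2 * C₂ ^ 2) (by linarith only [C1, C2, C3]) (by linarith only [C1, C2, C3]) (by linarith only [C1, C4]) (by linarith only [N1, NT, w0, c1, c2])
    · have T1 : (1 : ℝ) ≤ T₀ := by exact_mod_cast hT₀
      have c0 : (N : ℝ) ^ 2 ≤ D ^ 2 := by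
        rw [D2]
        have d1 : 1 ≤ C₂ ^ 2 * E := one_le_mul_of_one_le_of_one_le (one_le_pow₀ C2) E1
        have d2 := mul_le_mul_of_nonneg_left d1 (sq_nonneg (N : ℝ))
        linarith only [d2]
      have c1 : T₀ ≤ N ^ 2 := by
        have d1 : V ^ 4 ≤ (N : ℝ) ^ 4 := pow_le_pow_left₀ hV.le VN 4
        have d2 := mul_le_mul_of_nonneg_left c0 (by positivity : (0 : ℝ) ≤ T₀)
        have d3 : (T₀ : ℝ) * (N : ℝ) ^ 2 ≤ (N : ℝ) ^ 2 * (N : ℝ) ^ 2 := by linarith only [b1, d1, d2]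
        exact_mod_cast le_of_mul_le_mul_right d3 (by positivity)
      have c2 : C₂ * (N : ℝ) ^ (1 + ε / 2) * √T₀ ≤ V ^ 2 := by
        rw [← hD]
        refine le_of_sq_le_sq ?_ (sq_nonneg V)
        rw [mul_pow, Real.sq_sqrt (by positivity)]
        linarith only [b1]
      have c3 := subdiv N T T₀ hT₀ V _ (by positivity)
        (fun W a d1 d2 d3 => h2 N T₀ W a V hN hT₀ c1 d1 d2 hV d3 c2) W a hW ha hWV
      have c5 : V ^ 4 ≤ 2 * (T₀ : ℝ) * D ^ 2 := by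
        have := mul_le_mul_of_nonneg_right T1 (sq_nonneg D)
        linarith only [b2, this]
      have c4 := cnt_b (T := T) (lt_of_lt_of_le one_pos s1) Qs N0 hV hA C2 E1 D2
        (lt_of_lt_of_le one_pos T1) c5 (Nat.cast_nonneg T)
      rw [← hx, ← hz] at c4
      exact fin C₂ 0 (2 * C₂ ^ 3) (by linarith only [C1, C2, C3]) (by linarith only [C1, C2, C3]) (by linarith only [C1]) (by linarith only [w0, c3, c4])

end

section

theorem tpa_lvl {x K D A A' B U l : ℝ} (hK : 0 ≤ K) (hA : 0 ≤ A) (hA' : 0 ≤ A') (hB : 0 ≤ B)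
    (hl : 0 < l) (hU : l ≤ U)
    (h : x ≤ K * (D / U ^ 2 + A / U ^ 4 + A' / U ^ 4 + B / (U ^ 3 * √U))) :
    x * U ^ 2 ≤ K * (D + (A + A') / l ^ 2 + B / (l * √l)) := by
  have U0 : 0 < U := hl.trans_le hU
  have s0 : 0 < √U := Real.sqrt_pos.2 U0
  have s1 : 0 < √l := Real.sqrt_pos.2 hl
  have h1 : K * (D / U ^ 2 + A / U ^ 4 + A' / U ^ 4 + B / (U ^ 3 * √U)) * U ^ 2 =
      K * (D + (A + A') / U ^ 2 + B / (U * √U)) := by
    field_simp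
    ring
  refine (mul_le_mul_of_nonneg_right h (by positivity)).trans (h1.le.trans ?_)
  have h2 : √l ≤ √U := Real.sqrt_le_sqrt hU
  gcongr

theorem tpa_int (ε : ℝ) (hε : 0 < ε) : ∃ C : ℝ, 0 < C ∧
    ∀ (N T : ℕ) (W : Finset ℤ) (a : ℕ → ℂ) (l : ℝ), 1 ≤ N → N ≤ T →
      (∀ t ∈ W, 0 ≤ t ∧ t ≤ T) → (∀ n, ‖a n‖ ≤ 1) → 1 ≤ l →
      ∑ t ∈ W, ‖DP N a t‖ ^ 2 ≤ 2 * l ^ 2 * #W + C * (N : ℝ) ^ ε * (N ^ 2 +
        (√T * N ^ 3 + T * (N : ℝ) ^ (19 / 8 : ℝ)) / l ^ 2 + T * N ^ 2 / (l * √l)) := by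
  obtain ⟨C0, hC0, H⟩ := count2 (ε / 2) (by positivity)
  obtain ⟨C1, hC1, hlog⟩ := tp1_log (ε / 2) (by positivity)
  refine ⟨4 * C1 * C0, by positivity, fun N T W a l hN hT hW ha hl => ?_⟩
  have N0 : (0 : ℝ) < N := by exact_mod_cast hN
  have l0 : 0 < l := by linarith only [hl]
  have e2 : (N : ℝ) ^ ε = (N : ℝ) ^ (ε / 2) * (N : ℝ) ^ (ε / 2) := by
    rw [← Real.rpow_add N0, add_halves]
  have h2 := tp1_sum W (fun t => if l ≤ ‖DP N a t‖ then ‖DP N a t‖ else 0) N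
    (C0 * (N : ℝ) ^ (ε / 2) * (N ^ 2 +
      (√T * N ^ 3 + T * (N : ℝ) ^ (19 / 8 : ℝ)) / l ^ 2 + T * N ^ 2 / (l * √l)))
    (fun t _ => by
      split_ifs
      · exact ⟨norm_nonneg _, tp1_triv N a ha t⟩
      · exact ⟨le_rfl, N0.le⟩)
    (fun V hV => by
      have h3 := tpa_lvl (by positivity) (by positivity) (by positivity) (by positivity) l0
        (le_max_right V l) (H N T {t ∈ W | max V l ≤ ‖DP N a t‖} a (max V l) hN hT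
          (fun t ht => hW t (mem_filter.1 ht).1) ha (lt_max_of_lt_left hV)
          (fun t ht => (mem_filter.1 ht).2))
      refine le_trans (mul_le_mul ?_ (pow_le_pow_left₀ hV.le (le_max_left V l) 2) (by positivity)
        (by positivity)) h3
      refine Nat.cast_le.2 (card_le_card fun t ht => ?_)
      obtain ⟨h4, h5⟩ := mem_filter.1 ht
      refine mem_filter.2 ⟨h4, ?_⟩
      split_ifs at h5 with h6
      · exact max_le h5 h6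
      · exact absurd h5 (not_le.2 hV))
  have h3 : ∀ t ∈ W, ‖DP N a t‖ ^ 2 ≤
      l ^ 2 + (if l ≤ ‖DP N a t‖ then ‖DP N a t‖ else 0) ^ 2 := by
    intro t _
    split_ifs with h
    · exact le_add_of_nonneg_left (by positivity)
    · rw [zero_pow two_ne_zero, add_zero]
      exact pow_le_pow_left₀ (norm_nonneg _) (not_le.1 h).le 2
  have h4 := sum_le_sum h3
  rw [sum_add_distrib, sum_const, nsmul_eq_mul] at h4
  have h5 : (#W : ℝ) ≤ #W * l ^ 2 := le_mul_of_one_le_right (by positivity) (one_le_pow₀ hl)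
  have Z0 : (0 : ℝ) ≤ N ^ 2 +
      (√T * N ^ 3 + T * (N : ℝ) ^ (19 / 8 : ℝ)) / l ^ 2 + T * N ^ 2 / (l * √l) := by positivity
  generalize (N : ℝ) ^ 2 +
    (√T * N ^ 3 + T * (N : ℝ) ^ (19 / 8 : ℝ)) / l ^ 2 + T * N ^ 2 / (l * √l) = Z at h2 Z0 ⊢
  have h6 := mul_le_mul_of_nonneg_right (hlog N hN)
    (show 0 ≤ 4 * (C0 * (N : ℝ) ^ (ε / 2) * Z) by positivity)
  rw [e2]
  generalize (N : ℝ) ^ (ε / 2) = y at h2 h6 ⊢
  linarith only [h4, h5, h2, h6]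

theorem tpa_sum (ε : ℝ) (hε : 0 < ε) : ∃ C : ℝ, 0 < C ∧
    ∀ (N : ℕ) (T l : ℝ) (S : Finset ℝ) (a : ℕ → ℂ), 1 ≤ N → (N : ℝ) ≤ T → 1 ≤ l →
      Sep S → (∀ t ∈ S, 0 ≤ t ∧ t ≤ T) → (∀ n, ‖a n‖ ≤ 1) →
      ∑ t ∈ S, ‖DP N a t‖ ^ 2 ≤ 8 * (2 * l ^ 2 * #S + C * (N : ℝ) ^ ε * (N ^ 2 +
        (√T * N ^ 3 + T * (N : ℝ) ^ (19 / 8 : ℝ)) / l ^ 2 + T * N ^ 2 / (l * √l))) := by
  obtain ⟨C, hC, H⟩ := tpa_int ε hε
  refine ⟨C, hC, fun N T l S a hN hTN hl hS hr ha => ?_⟩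
  have hT : 0 ≤ T := le_trans (by positivity) hTN
  have l0 : 0 < l := by linarith only [hl]
  obtain ⟨b, hb, hav⟩ := tp1_avg N hN a ha
  have inj : Set.InjOn (fun t : ℝ => ⌊t⌋) S := by
    intro t ht u hu e
    by_contra hne
    have h2 := hS t ht u hu hne
    have h3 := Int.abs_sub_lt_one_of_floor_eq_floor e
    linarith only [h2, h3]
  have hc : ∀ w : ℝ, Continuous fun x : ℝ => ‖DP N b (w + x)‖ ^ 2 := by
    intro w
    refine (Continuous.norm ?_).pow 2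
    exact continuous_finsetSum _ fun n _ => continuous_const.mul
      (continuous_ei.comp ((continuous_const.add continuous_id).mul continuous_const))
  have key : ∀ x : ℝ, ∑ t ∈ S, ‖DP N b ((⌊t⌋ : ℝ) + x)‖ ^ 2 ≤
      2 * l ^ 2 * #S + C * (N : ℝ) ^ ε * (N ^ 2 +
        (√T * N ^ 3 + T * (N : ℝ) ^ (19 / 8 : ℝ)) / l ^ 2 + T * N ^ 2 / (l * √l)) := by
    intro x
    have h2 := H N ⌊T⌋₊ (S.image fun t : ℝ => ⌊t⌋) (fun n => b n * ei (x * Real.log n)) l hN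
      (Nat.le_floor hTN) (by
        intro w hw
        obtain ⟨t, ht, rfl⟩ := mem_image.1 hw
        rw [Int.natCast_floor_eq_floor hT]
        exact ⟨Int.floor_nonneg.2 (hr t ht).1, Int.floor_le_floor (hr t ht).2⟩)
      (fun n => by rw [norm_mul, norm_ei, mul_one]; exact hb n) hl
    rw [sum_image inj, card_image_of_injOn inj] at h2
    refine le_trans (le_of_eq (sum_congr rfl fun t _ => ?_)) (h2.trans ?_)
    · congr 2
      refine sum_congr rfl fun n _ => ?_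
      rw [mul_assoc, ← ei_add]
      congr 2
      ring
    · have h4 : (⌊T⌋₊ : ℝ) ≤ T := Nat.floor_le hT
      have h3 : √(⌊T⌋₊ : ℝ) ≤ √T := Real.sqrt_le_sqrt h4
      gcongr
  refine (sum_le_sum fun t _ => hav t).trans ?_
  rw [← mul_sum, ← intervalIntegral.integral_finsetSum
    fun t _ => (hc _).intervalIntegrable _ _]
  have h2 := intervalIntegral.integral_mono_on (μ := MeasureTheory.volume) (a := 0) (b := 2)
    (by norm_num) ((continuous_finsetSum S fun t _ => hc (⌊t⌋ : ℝ)).intervalIntegrable _ _)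
    (continuous_const.intervalIntegrable _ _) fun x _ => key x
  rw [intervalIntegral.integral_const, smul_eq_mul, sub_zero] at h2
  linarith

theorem tpa_card (T : ℝ) (S : Finset ℝ) (hT : 0 ≤ T) (hS : Sep S)
    (hr : ∀ t ∈ S, 0 ≤ t ∧ t ≤ T) : (#S : ℝ) ≤ T + 1 := by
  have inj : Set.InjOn (fun t : ℝ => ⌊t⌋) S := by
    intro t ht u hu e
    by_contra hne
    have h2 := hS t ht u hu hne
    have h3 := Int.abs_sub_lt_one_of_floor_eq_floor e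
    linarith
  have h := cnt_card ⌊T⌋₊ (S.image fun t : ℝ => ⌊t⌋) (by
    intro w hw
    obtain ⟨t, ht, rfl⟩ := mem_image.1 hw
    rw [Int.natCast_floor_eq_floor hT]
    exact ⟨Int.floor_nonneg.2 (hr t ht).1, Int.floor_le_floor (hr t ht).2⟩)
  rw [card_image_of_injOn inj] at h
  linarith [Nat.floor_le hT]

theorem topA (ε : ℝ) (hε : 0 < ε) : ∃ C : ℝ, 0 < C ∧
    ∀ (N : ℕ) (T V : ℝ) (S : Finset ℝ) (a : ℕ → ℂ), 1 ≤ N → 0 ≤ T → 0 < V →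
      Sep S → (∀ t ∈ S, 0 ≤ t ∧ t ≤ T) → (∀ n, ‖a n‖ ≤ 1) → (∀ t ∈ S, V ≤ ‖DP N a t‖) →
      (#S : ℝ) ≤ C * (N : ℝ) ^ ε * (N ^ 2 / V ^ 2 + √T * N ^ 3 / V ^ 4 +
        T * (N : ℝ) ^ (19 / 8 : ℝ) / V ^ 4 + T * N ^ 2 / (V ^ 3 * √V)) := by
  obtain ⟨C, hC, H⟩ := tpa_sum ε hε
  refine ⟨65536 + 4096 * C, by positivity, fun N T V S a hN hT hV hS hr ha hSV => ?_⟩
  have N1 : (1 : ℝ) ≤ N := by exact_mod_cast hN
  have e1 : (1 : ℝ) ≤ (N : ℝ) ^ ε := Real.one_le_rpow N1 hε.le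
  have s0 : 0 < √V := Real.sqrt_pos.2 hV
  have hlow : #S * V ^ 2 ≤ ∑ t ∈ S, ‖DP N a t‖ ^ 2 := by
    rw [← nsmul_eq_mul, ← sum_const]
    exact sum_le_sum fun t ht => pow_le_pow_left₀ hV.le (hSV t ht) 2
  have p1 : (0 : ℝ) ≤ N ^ 2 / V ^ 2 := by positivity
  have p2 : (0 : ℝ) ≤ √T * N ^ 3 / V ^ 4 := by positivity
  have p3 : (0 : ℝ) ≤ T * (N : ℝ) ^ (19 / 8 : ℝ) / V ^ 4 := by positivity
  have p4 : (0 : ℝ) ≤ T * N ^ 2 / (V ^ 3 * √V) := by positivity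
  have triv : ∀ Z : ℝ, 0 ≤ Z → (#S : ℝ) ≤ 65536 * Z →
      (#S : ℝ) ≤ (65536 + 4096 * C) * (N : ℝ) ^ ε * Z := fun Z hZ h =>
    h.trans (mul_le_mul_of_nonneg_right ((le_add_of_nonneg_right (by positivity)).trans
      (le_mul_of_one_le_right (by positivity) e1)) hZ)
  rcases lt_or_ge T N with hTN | hTN
  · refine triv _ (by positivity) ?_
    have h1 := hlow.trans (H14.mvt N hN N le_rfl S hS
      (fun t ht => ⟨(hr t ht).1, (hr t ht).2.trans hTN.le⟩) a ha)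
    have h2 : (#S : ℝ) ≤ 30000 * (N ^ 2 / V ^ 2) := by
      rw [← mul_div_assoc, le_div_iff₀ (by positivity)]
      linarith only [h1]
    linarith
  rcases lt_or_ge V 16 with hV16 | hV16
  · refine triv _ (by positivity) ?_
    have h1 := tpa_card T S hT hS hr
    have h2 : V ^ 2 ≤ 16 ^ 2 := pow_le_pow_left₀ hV.le hV16.le 2
    have h3 : V ^ 4 ≤ 16 ^ 4 := pow_le_pow_left₀ hV.le hV16.le 4
    have h4 : (1 : ℝ) / 16 ^ 2 ≤ N ^ 2 / V ^ 2 :=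
      div_le_div₀ (by positivity) (one_le_pow₀ N1) (by positivity) h2
    have h5 : T / 16 ^ 4 ≤ T * (N : ℝ) ^ (19 / 8 : ℝ) / V ^ 4 :=
      div_le_div₀ (by positivity)
        (le_mul_of_one_le_right hT (Real.one_le_rpow N1 (by norm_num))) (by positivity) h3
    linarith only [p2, p4, h1, h4, h5]
  have h1 := hlow.trans (H N T (V / 16) S a hN hTN (by linarith only [hV16]) hS hr ha)
  have h2 : √(V / 16) = √V / 4 := by
    rw [Real.sqrt_div hV.le, show (16 : ℝ) = 4 ^ 2 by norm_num, Real.sqrt_sq (by norm_num)]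
  have h3 : (N : ℝ) ^ 2 + (√T * N ^ 3 + T * (N : ℝ) ^ (19 / 8 : ℝ)) / (V / 16) ^ 2 +
      T * N ^ 2 / (V / 16 * √(V / 16)) = V ^ 2 * (N ^ 2 / V ^ 2 + 256 * (√T * N ^ 3 / V ^ 4) +
        256 * (T * (N : ℝ) ^ (19 / 8 : ℝ) / V ^ 4) + 64 * (T * N ^ 2 / (V ^ 3 * √V))) := by
    rw [h2]
    field_simp
    ring
  rw [h3] at h1
  generalize (N : ℝ) ^ 2 / V ^ 2 = z1 at h1 p1 ⊢
  generalize √T * N ^ 3 / V ^ 4 = z2 at h1 p2 ⊢
  generalize T * (N : ℝ) ^ (19 / 8 : ℝ) / V ^ 4 = z3 at h1 p3 ⊢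
  generalize T * N ^ 2 / (V ^ 3 * √V) = z4 at h1 p4 ⊢
  have y0 : 0 ≤ C * (N : ℝ) ^ ε := by positivity
  have h4 : (#S : ℝ) ≤ 16 * (C * (N : ℝ) ^ ε * (z1 + 256 * z2 + 256 * z3 + 64 * z4)) := by
    refine le_of_mul_le_mul_right ?_ (show 0 < V ^ 2 by positivity)
    have h5 : (0 : ℝ) ≤ #S * V ^ 2 := by positivity
    linarith only [h1, h5]
  have h5 : C * (N : ℝ) ^ ε * (z1 + 256 * z2 + 256 * z3 + 64 * z4) ≤
      C * (N : ℝ) ^ ε * (256 * (z1 + z2 + z3 + z4)) :=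
    mul_le_mul_of_nonneg_left (by linarith only [p1, p4]) y0
  have h6 : 0 ≤ (N : ℝ) ^ ε * (z1 + z2 + z3 + z4) := by positivity
  linarith only [h4, h5, h6]

end

section

/-! ### block TPB -/

theorem tpb_conv {V : ℝ} (hV : 0 < V) : V ^ (7 / 2 : ℝ) = V ^ 3 * √V := by
  rw [Real.sqrt_eq_rpow, ← Real.rpow_natCast, ← Real.rpow_add hV]
  norm_num

theorem tpb_scale {M N T V L : ℝ} (hM : 0 ≤ M) (hMN : M ≤ N) (hT : 0 ≤ T) (hV : 0 < V)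
    (hL : 1 ≤ L) :
    M ^ 2 / (V / L) ^ 2 + √T * M ^ 3 / (V / L) ^ 4 + T * M ^ (19 / 8 : ℝ) / (V / L) ^ 4 +
        T * M ^ 2 / ((V / L) ^ 3 * √(V / L)) ≤
      L ^ 4 * (N ^ 2 / V ^ 2 + √T * N ^ 3 / V ^ 4 + T * N ^ (19 / 8 : ℝ) / V ^ 4 +
        T * N ^ 2 / (V ^ 3 * √V)) := by
  have hL0 : 0 < L := by linarith
  have hN : 0 ≤ N := hM.trans hMN
  have hsV : 0 < √V := Real.sqrt_pos.2 hV
  have hsL : 0 < √L := Real.sqrt_pos.2 hL0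
  have hsL' : √L ≤ L := by
    rw [Real.sqrt_le_left hL0.le]
    nlinarith only [hL]
  have e1 : M ^ 2 / (V / L) ^ 2 = L ^ 2 * (M ^ 2 / V ^ 2) := by field_simp
  have e2 : √T * M ^ 3 / (V / L) ^ 4 = L ^ 4 * (√T * M ^ 3 / V ^ 4) := by field_simp
  have e3 : T * M ^ (19 / 8 : ℝ) / (V / L) ^ 4 = L ^ 4 * (T * M ^ (19 / 8 : ℝ) / V ^ 4) := by
    field_simp
  have e4 : T * M ^ 2 / ((V / L) ^ 3 * √(V / L)) =
      (L ^ 3 * √L) * (T * M ^ 2 / (V ^ 3 * √V)) := by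
    rw [Real.sqrt_div hV.le]
    field_simp
  have f1 : L ^ 2 * (M ^ 2 / V ^ 2) ≤ L ^ 4 * (N ^ 2 / V ^ 2) := by
    have : L ^ 2 ≤ L ^ 4 := pow_le_pow_right₀ hL (by norm_num)
    gcongr
  have f2 : L ^ 4 * (√T * M ^ 3 / V ^ 4) ≤ L ^ 4 * (√T * N ^ 3 / V ^ 4) := by gcongr
  have f3 : L ^ 4 * (T * M ^ (19 / 8 : ℝ) / V ^ 4) ≤ L ^ 4 * (T * N ^ (19 / 8 : ℝ) / V ^ 4) := by
    gcongr
  have f4 : (L ^ 3 * √L) * (T * M ^ 2 / (V ^ 3 * √V)) ≤ L ^ 4 * (T * N ^ 2 / (V ^ 3 * √V)) := by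
    have : L ^ 3 * √L ≤ L ^ 4 := by
      rw [pow_succ L 3]
      gcongr
    gcongr
  rw [e1, e2, e3, e4]
  linarith only [f1, f2, f3, f4]

theorem topB (ε : ℝ) (hε : 0 < ε) : ∃ C : ℝ, 0 < C ∧
    ∀ (N : ℕ) (T V : ℝ) (S : Finset ℝ) (a : ℕ → ℂ), 1 ≤ N → 0 ≤ T → 0 < V →
      Sep S → (∀ t ∈ S, 0 ≤ t ∧ t ≤ T) → (∀ n, ‖a n‖ ≤ 1) →
      (∀ t ∈ S, V ≤ ‖∑ n ∈ Icc 1 N, a n * ei (t * Real.log n)‖) →
      (#S : ℝ) ≤ C * (N : ℝ) ^ ε * ((N : ℝ) ^ 2 / V ^ 2 + T ^ (1 / 2 : ℝ) * (N : ℝ) ^ 3 / V ^ 4 +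
        T * (N : ℝ) ^ (19 / 8 : ℝ) / V ^ 4 + T * (N : ℝ) ^ 2 / V ^ (7 / 2 : ℝ)) := by
  classical
  obtain ⟨C0, hC0, hd⟩ := topA (ε / 2) (by positivity)
  obtain ⟨C1, hC1, hlog⟩ := tp2_log 5 (ε / 2) (by positivity)
  refine ⟨64 + 16 * C0 * C1, by positivity, fun N T V S a hN hT hV hS hr ha hbig => ?_⟩
  have hN1 : (1 : ℝ) ≤ N := by exact_mod_cast hN
  have hNp : (0 : ℝ) < N := by positivity
  have hNe' : (1 : ℝ) ≤ (N : ℝ) ^ ε := Real.one_le_rpow hN1 hε.le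
  rw [tpb_conv hV, ← Real.sqrt_eq_rpow]
  obtain ⟨F, hF⟩ : ∃ F : ℝ, F = (N : ℝ) ^ 2 / V ^ 2 + √T * (N : ℝ) ^ 3 / V ^ 4 +
      T * (N : ℝ) ^ (19 / 8 : ℝ) / V ^ 4 + T * (N : ℝ) ^ 2 / (V ^ 3 * √V) := ⟨_, rfl⟩
  have hF0 : 0 ≤ F := by rw [hF]; positivity
  rw [← hF]
  have h6 : F ≤ (N : ℝ) ^ ε * F := le_mul_of_one_le_left hF0 hNe'
  have h5 : (N : ℝ) ^ ε = (N : ℝ) ^ (ε / 2) * (N : ℝ) ^ (ε / 2) := by
    rw [← Real.rpow_add hNp, add_halves]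
  have h7 : (64 + 16 * C0 * C1) * (N : ℝ) ^ ε * F = 64 * ((N : ℝ) ^ ε * F) +
      16 * (C0 * (N : ℝ) ^ (ε / 2) * F) * (C1 * (N : ℝ) ^ (ε / 2)) := by
    rw [h5]
    ring
  have h8 : 0 ≤ 16 * (C0 * (N : ℝ) ^ (ε / 2) * F) := by positivity
  have h9 : 0 ≤ 16 * (C0 * (N : ℝ) ^ (ε / 2) * F) * (C1 * (N : ℝ) ^ (ε / 2)) := by positivity
  rw [h7]
  rcases lt_or_ge V 2 with hV2 | hV2
  · have c1 : (#S : ℝ) ≤ 4 + 4 * T := by
      have c := tp2_card hT hS hr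
      have c4 : √(#S : ℝ) ^ 2 = #S := Real.sq_sqrt (by positivity)
      have c5 : √T ^ 2 = T := Real.sq_sqrt hT
      linarith only [sq_nonneg (√(#S : ℝ) - 2 * √T), c, c4, c5]
    have c2 : (1 / 4 : ℝ) ≤ (N : ℝ) ^ 2 / V ^ 2 := by
      rw [div_le_div_iff₀ (by norm_num) (by positivity)]
      have : (1 : ℝ) ≤ (N : ℝ) ^ 2 := one_le_pow₀ hN1
      nlinarith only [hV, hV2, this]
    have c3 : T / 16 ≤ T * (N : ℝ) ^ (19 / 8 : ℝ) / V ^ 4 := by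
      have d1 : (1 : ℝ) ≤ (N : ℝ) ^ (19 / 8 : ℝ) := Real.one_le_rpow hN1 (by norm_num)
      have d2 : V ^ 4 ≤ 16 := (pow_le_pow_left₀ hV.le hV2.le 4).trans (by norm_num)
      have d3 : T ≤ T * (N : ℝ) ^ (19 / 8 : ℝ) := le_mul_of_one_le_right hT d1
      gcongr
    have c4 : 0 ≤ √T * (N : ℝ) ^ 3 / V ^ 4 := by positivity
    have c5 : 0 ≤ T * (N : ℝ) ^ 2 / (V ^ 3 * √V) := by positivity
    linarith only [hF, h6, h9, c1, c2, c3, c4, c5]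
  obtain ⟨b, hb⟩ : ∃ b : ℕ → ℂ, b = fun m => if m ≤ N then a m else 0 := ⟨_, rfl⟩
  have hb1 : ∀ m, ‖b m‖ ≤ 1 := by
    intro m
    rw [hb]
    dsimp only
    split_ifs
    · exact ha m
    · simp
  have hK : N ≤ 2 ^ (Nat.log 2 N + 1) := (Nat.lt_pow_succ_log_self (by norm_num) N).le
  have hsplit : ∀ t : ℝ, ∑ m ∈ Icc 1 N, a m * ei (t * Real.log m) =
      b 1 * ei (t * Real.log (1 : ℕ)) + ∑ i ∈ range (Nat.log 2 N + 1), DP (2 ^ i) b t := by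
    intro t
    unfold DP
    rw [← tp2_split (fun m => b m * ei (t * Real.log m))]
    rw [← sum_subset (Icc_subset_Icc_right hK)]
    · refine sum_congr rfl fun m hm => ?_
      rw [hb]
      dsimp only
      rw [if_pos (mem_Icc.1 hm).2]
    · intro m hm hm'
      rw [hb]
      dsimp only
      rw [if_neg, zero_mul]
      intro h
      exact hm' (mem_Icc.2 ⟨(mem_Icc.1 hm).1, h⟩)
  obtain ⟨K, hKK⟩ : ∃ K : ℝ, K = (Nat.log 2 N : ℝ) + 1 := ⟨_, rfl⟩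
  have hK1 : 1 ≤ K := by
    rw [hKK]
    have : (0 : ℝ) ≤ (Nat.log 2 N : ℝ) := by positivity
    linarith only []
  have hK0 : 0 < K := by linarith only [hKK]
  have hW : 0 < V / (2 * K) := by positivity
  have hblock : ∀ i ∈ range (Nat.log 2 N + 1),
      (#{t ∈ S | V / (2 * K) ≤ ‖DP (2 ^ i) b t‖} : ℝ) ≤
        C0 * (N : ℝ) ^ (ε / 2) * ((2 * K) ^ 4 * F) := by
    intro i hi
    have hM : 2 ^ i ≤ N :=
      (Nat.pow_le_pow_right (by norm_num) (Nat.lt_succ_iff.1 (mem_range.1 hi))).trans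
        (Nat.pow_log_le_self 2 (by omega))
    have hM1 : 1 ≤ 2 ^ i := Nat.one_le_two_pow
    generalize 2 ^ i = M at hM hM1
    have hM' : (M : ℝ) ≤ N := by exact_mod_cast hM
    refine (hd M T (V / (2 * K)) _ b hM1 hT hW
      (fun t ht u hu => hS t (mem_filter.1 ht).1 u (mem_filter.1 hu).1)
      (fun t ht => hr t (mem_filter.1 ht).1) hb1 (fun t ht => (mem_filter.1 ht).2)).trans ?_
    have g1 := tpb_scale (L := 2 * K) (Nat.cast_nonneg M) hM' hT hV (by linarith only [hKK])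
    rw [← hF] at g1
    gcongr
  have hcov : S ⊆ (range (Nat.log 2 N + 1)).biUnion
      fun i => {t ∈ S | V / (2 * K) ≤ ‖DP (2 ^ i) b t‖} := by
    intro t ht
    by_contra hne
    have g1 : ∀ i ∈ range (Nat.log 2 N + 1), ‖DP (2 ^ i) b t‖ < V / (2 * K) := by
      intro i hi
      by_contra g
      exact hne (mem_biUnion.2 ⟨i, hi, mem_filter.2 ⟨ht, not_lt.1 g⟩⟩)
    have g2 := sum_lt_sum_of_nonempty (nonempty_range_add_one) g1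
    rw [sum_const, card_range, nsmul_eq_mul] at g2
    push_cast at g2
    rw [← hKK] at g2
    have g3 : K * (V / (2 * K)) = V / 2 := by field_simp
    have g4 := hbig t ht
    rw [hsplit t] at g4
    have g5 := g4.trans ((norm_add_le _ _).trans (add_le_add_right (norm_sum_le _ _) _))
    rw [norm_mul, norm_ei, mul_one] at g5
    have g6 := hb1 1
    linarith only [hV2, g2, g3, g5, g6]
  have hc1 : (#S : ℝ) ≤ ∑ i ∈ range (Nat.log 2 N + 1),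
      (#{t ∈ S | V / (2 * K) ≤ ‖DP (2 ^ i) b t‖} : ℝ) := by
    exact_mod_cast (card_le_card hcov).trans card_biUnion_le
  have h2 := sum_le_sum hblock
  rw [sum_const, card_range, nsmul_eq_mul] at h2
  push_cast at h2
  rw [← hKK] at h2
  have h4 := mul_le_mul_of_nonneg_left (hlog N hN) h8
  rw [← hKK] at h4
  have h10 : K * (C0 * (N : ℝ) ^ (ε / 2) * ((2 * K) ^ 4 * F)) =
      16 * (C0 * (N : ℝ) ^ (ε / 2) * F) * K ^ 5 := by ring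
  linarith only [hF0, h6, hc1, h2, h4]

end

end Pool.Agent.MP_71ac24_nt.H54
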